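import Pool.Agent.H23.CL.GC

/-!
# The weak gradient of a weak solution is continuous: the proof
-/

set_option autoImplicit false

open Set Filter Topology MeasureTheory
open scoped ContDiff ComplexConjugate ENNReal

noncomputable section

namespace Pool.Agent.H23.CL.GC

open Pool.Agent.H15.UC
open Pool.Agent.H23.UC (Weak StGrad)

/-- a limit almost everywhere of functions with a common modulus of continuity -/
lemma equi {B : Set ℂ} (hB : IsOpen B) {f : ℕ → ℂ → ℝ} {G : ℂ → ℝ} (n₀ : ℕ)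
    (he : ∀ η > 0, ∃ δ > 0, ∀ n ≥ n₀, ∀ z ∈ B, ∀ z' ∈ B, ‖z - z'‖ < δ → |f n z - f n z'| ≤ η)
    (ha : ∀ᵐ z, z ∈ B → Tendsto (fun n => f n z) atTop (𝓝 (G z))) :
    ∃ G' : ℂ → ℝ, ContinuousOn G' B ∧ ∀ᵐ z, z ∈ B → G z = G' z := by
  have hconv : ∀ z ∈ B, ∃ l, Tendsto (fun n => f n z) atTop (𝓝 l) := by
    intro z hz
    refine cauchySeq_tendsto_of_complete (Metric.cauchySeq_iff.2 fun η hη => ?_)
    obtain ⟨δ, hδ, h1⟩ := he (η / 4) (by linarith)
    obtain ⟨z', hz', hz'B, hz't⟩ : ∃ z' ∈ Metric.ball z δ, z' ∈ B ∧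
        Tendsto (fun n => f n z') atTop (𝓝 (G z')) := by
      have h2 : 0 < volume (B ∩ Metric.ball z δ) :=
        (hB.inter Metric.isOpen_ball).measure_pos volume ⟨z, hz, Metric.mem_ball_self hδ⟩
      by_contra hcon
      push Not at hcon
      rw [ae_iff] at ha
      refine h2.ne' (measure_mono_null ?_ ha)
      rintro y ⟨hy1, hy2⟩ h3
      exact hcon y hy2 hy1 (h3 hy1)
    obtain ⟨N, hN⟩ := Metric.cauchySeq_iff.1 hz't.cauchySeq (η / 4) (by linarith)
    refine ⟨max N n₀, fun m hm n hn => ?_⟩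
    have e1 := h1 m (le_trans (le_max_right _ _) hm) z hz z' hz'B (by
      rw [← dist_eq_norm, dist_comm]; exact hz')
    have e2 := h1 n (le_trans (le_max_right _ _) hn) z hz z' hz'B (by
      rw [← dist_eq_norm, dist_comm]; exact hz')
    have e3 := hN m (le_trans (le_max_left _ _) hm) n (le_trans (le_max_left _ _) hn)
    rw [Real.dist_eq] at e3 ⊢
    rw [abs_le] at e1 e2
    rw [abs_lt] at e3 ⊢
    constructor <;> linarith [e1.1, e1.2, e2.1, e2.2, e3.1, e3.2]
  classical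
  obtain ⟨G', hG'⟩ : ∃ G' : ℂ → ℝ, ∀ z ∈ B, Tendsto (fun n => f n z) atTop (𝓝 (G' z)) := by
    refine ⟨fun z => if h : z ∈ B then (hconv z h).choose else 0, fun z hz => ?_⟩
    simp only
    rw [dif_pos hz]
    exact (hconv z hz).choose_spec
  refine ⟨G', ?_, ?_⟩
  · rw [Metric.continuousOn_iff]
    intro z hz η hη
    obtain ⟨δ, hδ, h1⟩ := he (η / 2) (by linarith)
    refine ⟨δ, hδ, fun z' hz' hd => ?_⟩
    rw [dist_eq_norm] at hd
    have h2 : |G' z' - G' z| ≤ η / 2 := by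
      refine le_of_tendsto ((hG' z' hz').sub (hG' z hz)).abs ?_
      filter_upwards [eventually_ge_atTop n₀] with n hn
      exact h1 n hn z' hz' z hz hd
    rw [Real.dist_eq]
    linarith
  · filter_upwards [ha] with z hz hzB
    exact tendsto_nhds_unique (hz hzB) (hG' z hzB)

/-- mollification and the modulus of continuity -/
lemma mo_mod {F : ℂ → ℝ} (hF : Continuous F) (n : ℕ) {η : ℝ} {a b : ℂ}
    (h : ∀ s, |F (a - s) - F (b - s)| ≤ η) : |mo (ρ n) F a - mo (ρ n) F b| ≤ η := by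
  have e : ∀ x, mo (ρ n) F x = ∫ s, F (x - s) * ρ n s := by
    intro x
    rw [mo_apply, ← integral_sub_left_eq_self (fun t => F t * ρ n (x - t)) volume x]
    congr 1
    funext s
    rw [sub_sub_cancel]
  have hi : ∀ x, Integrable fun s => F (x - s) * ρ n s := by
    intro x
    refine ((hF.comp (continuous_const.sub continuous_id)).mul
      (ρ_smooth n).continuous).integrable_of_hasCompactSupport (ρ_supp n).mul_left
  rw [e, e, ← integral_sub (hi a) (hi b)]
  have i0 : Integrable (ρ n) := (ρ_smooth n).continuous.integrable_of_hasCompactSupport (ρ_supp n)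
  have h1 : ‖∫ s, (F (a - s) * ρ n s - F (b - s) * ρ n s)‖ ≤ ∫ s, η * ρ n s := by
    refine norm_integral_le_of_norm_le (i0.const_mul η) (Eventually.of_forall fun s => ?_)
    rw [← sub_mul, norm_mul, Real.norm_eq_abs, Real.norm_of_nonneg (ρ_nonneg n s)]
    exact mul_le_mul_of_nonneg_right (h s) (ρ_nonneg n s)
  rw [integral_const_mul, ρ_int, mul_one, Real.norm_eq_abs] at h1
  exact h1

/-- mollification in `L¹` -/
lemma mo_l1 {F : ℂ → ℝ} (hF : Integrable F) (n : ℕ) : ∫ z, |mo (ρ n) F z| ≤ ∫ z, |F z| := by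
  have i0 : Integrable (ρ n) := (ρ_smooth n).continuous.integrable_of_hasCompactSupport (ρ_supp n)
  have h1 : ∫ z, mo (ρ n) (fun z => |F z|) z = ∫ z, |F z| := by
    unfold mo
    rw [integral_convolution (ContinuousLinearMap.mul ℝ ℝ) hF.abs i0, ρ_int]
    simp
  have h2 : Integrable (mo (ρ n) fun z => |F z|) := by
    unfold mo
    exact hF.abs.integrable_convolution (ContinuousLinearMap.mul ℝ ℝ) i0
  rw [← h1]
  refine integral_mono_of_nonneg (Eventually.of_forall fun z => abs_nonneg _) h2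
    (Eventually.of_forall fun z => ?_)
  simp only
  rw [mo_apply, mo_apply, ← Real.norm_eq_abs]
  refine (norm_integral_le_integral_norm _).trans (le_of_eq ?_)
  congr 1
  funext t
  rw [norm_mul, Real.norm_eq_abs, Real.norm_of_nonneg (ρ_nonneg n _)]

/-- the local representative of the gradient -/
theorem grad_rep {O : Set ℂ} {U w : ℂ → ℝ} {g : ℂ → ℂ} (hO : IsOpen O) (W : Weak O U g w)
    (hU : ContinuousOn U O) (hw : ContinuousOn w O) {z0 : ℂ} (hz : z0 ∈ O) :
    ∃ (r : ℝ) (G : ℂ → ℂ), 0 < r ∧ Metric.ball z0 r ⊆ O ∧ ContinuousOn G (Metric.ball z0 r) ∧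
      ∀ᵐ z, z ∈ Metric.ball z0 r → g z = G z := by
  obtain ⟨ε, hε, hb⟩ := Metric.isOpen_iff.mp hO z0 hz
  let χ : ContDiffBump z0 := ⟨ε / 4, ε / 2, by positivity, by linarith⟩
  have hts : tsupport (fun z => χ z) = Metric.closedBall z0 (ε / 2) := bump_tsupp χ
  have hsub : tsupport (fun z => χ z) ⊆ O := by
    rw [hts]
    refine (Metric.closedBall_subset_ball ?_).trans hb
    linarith
  have s := bump_smooth χ
  have c := bump_supp χ
  have hone : ∀ z ∈ Metric.ball z0 (ε / 4), χ z = 1 := fun z hz =>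
    χ.one_of_mem_closedBall (Metric.ball_subset_closedBall hz)
  -- the two parts of the Laplacian
  obtain ⟨F₁, hF₁⟩ : ∃ F₁ : ℂ → ℝ, F₁ = fun z => w z * (-χ z) + U z * Lap (fun z => χ z) z :=
    ⟨_, rfl⟩
  obtain ⟨F₂, hF₂⟩ : ∃ F₂ : ℂ → ℝ, F₂ = fun z => (g z).re * (2 * D 1 (fun z => χ z) z) +
      (g z).im * (2 * D Complex.I (fun z => χ z) z) := ⟨_, rfl⟩
  have hFF : ∀ z, FF (fun z => χ z) U w g z = F₁ z + F₂ z := by
    intro z
    rw [hF₁, hF₂]
    unfold FF
    ring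
  have tLap : tsupport (Lap fun z => χ z) ⊆ O := by
    refine Subset.trans ?_ hsub
    refine closure_minimal (fun z hz => ?_) (isClosed_tsupport _)
    by_contra hcon
    exact hz (Lap_zero_of_tsupp hcon)
  have cF₁ : Continuous F₁ := by
    rw [hF₁]
    refine Continuous.add ?_ (cont_cut tLap hO hU (smooth_Lap s).continuous)
    refine cont_cut ?_ hO hw s.continuous.neg
    refine Subset.trans ?_ hsub
    refine closure_minimal (fun z hz => ?_) (isClosed_tsupport _)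
    by_contra hcon
    refine hz ?_
    show -χ z = 0
    rw [show χ z = 0 from zero_of_tsupp hcon, neg_zero]
  have zF₁ : ∀ z, z ∉ tsupport (fun z => χ z) → F₁ z = 0 := by
    intro z hz
    rw [hF₁]
    simp only
    rw [Lap_zero_of_tsupp hz, show χ z = 0 from zero_of_tsupp hz]
    ring
  have zF₂ : ∀ z, z ∉ tsupport (fun z => χ z) → F₂ z = 0 := by
    intro z hz
    rw [hF₂]
    simp only
    rw [D_zero_of_tsupp hz, D_zero_of_tsupp hz]
    ring
  have iF₂ : Integrable F₂ := by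
    rw [hF₂]
    exact (int_K c (f := fun z => (g z).re) (θ := fun z => 2 * D 1 (fun z => χ z) z)
      (W.mg _ hsub c).re (continuous_const.mul (smooth_D s 1).continuous)
      (fun z h => by rw [D_zero_of_tsupp h, mul_zero])).add
      (int_K c (f := fun z => (g z).im) (θ := fun z => 2 * D Complex.I (fun z => χ z) z)
      (W.mg _ hsub c).im (continuous_const.mul (smooth_D s Complex.I).continuous)
      (fun z h => by rw [D_zero_of_tsupp h, mul_zero]))
  have nF₂ : ∀ z ∈ Metric.ball z0 (ε / 4), F₂ z = 0 := by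
    intro z hz
    rw [hF₂]
    simp only
    rw [D_one Metric.isOpen_ball hone hz, D_one Metric.isOpen_ball hone hz]
    ring
  -- supports
  obtain ⟨R, hR⟩ : ∃ R : ℝ, R = ‖z0‖ + ε := ⟨_, rfl⟩
  have hout : ∀ z : ℂ, R < ‖z‖ → z ∉ tsupport (fun z => χ z) := by
    intro z hz h
    rw [hts, Metric.mem_closedBall, dist_eq_norm] at h
    have h2 : ‖z‖ ≤ ‖z0‖ + ‖z - z0‖ := by
      have e : z = z0 + (z - z0) := by ring
      calc ‖z‖ = ‖z0 + (z - z0)‖ := by rw [← e]
        _ ≤ _ := norm_add_le _ _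
    linarith
  have hmoR : ∀ (F : ℂ → ℝ), (∀ z, R < ‖z‖ → F z = 0) → ∀ n z, R + 1 < ‖z‖ → mo (ρ n) F z = 0 := by
    intro F hF n z hz
    refine mo_zero fun t ht => hF t ?_
    have h1 : 1 / ((n : ℝ) + 1) ≤ 1 := by
      rw [div_le_one (by positivity)]
      linarith [Nat.cast_nonneg (α := ℝ) n]
    have : ‖z‖ ≤ ‖t‖ + ‖z - t‖ := by
      have e : z = t + (z - t) := by ring
      calc ‖z‖ = ‖t + (z - t)‖ := by rw [← e]
        _ ≤ _ := norm_add_le _ _
    linarith
  have lF₁ : LocallyIntegrable F₁ := cF₁.locallyIntegrable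
  have lF₂ : LocallyIntegrable F₂ := iF₂.locallyIntegrable
  have lP : LocallyIntegrable fun z => U z * χ z := loc (mem_P W s c hsub)
  have sP : ∀ n, ContDiff ℝ ∞ (mo (ρ n) fun z => U z * χ z) := fun n =>
    mo_smooth (ρ_smooth n) (ρ_supp n) lP
  have cP : ∀ n, HasCompactSupport (mo (ρ n) fun z => U z * χ z) := fun n =>
    mo_supp (R := R) fun z hz => by rw [show χ z = 0 from zero_of_tsupp (hout z hz), mul_zero]
  have hLap : ∀ n z, Lap (mo (ρ n) fun z => U z * χ z) z = mo (ρ n) F₁ z + mo (ρ n) F₂ z := by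
    intro n z
    rw [(cut W s c hsub).mo (ρ_smooth n) (ρ_supp n) lP, mo_apply, mo_apply, mo_apply,
      ← integral_add (int_mo (ρ_smooth n).continuous (ρ_supp n) lF₁ z)
        (int_mo (ρ_smooth n).continuous (ρ_supp n) lF₂ z)]
    congr 1
    funext t
    rw [hFF, add_mul]
  -- the derivatives
  have c1 : ∀ n, Continuous (mo (ρ n) F₁) := fun n =>
    (mo_smooth (ρ_smooth n) (ρ_supp n) lF₁).continuous
  have c2 : ∀ n, Continuous (mo (ρ n) F₂) := fun n =>
    (mo_smooth (ρ_smooth n) (ρ_supp n) lF₂).continuous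
  have z1 : ∀ n z, R + 1 < ‖z‖ → mo (ρ n) F₁ z = 0 := hmoR F₁ fun z hz => zF₁ z (hout z hz)
  have z2 : ∀ n z, R + 1 < ‖z‖ → mo (ρ n) F₂ z = 0 := hmoR F₂ fun z hz => zF₂ z (hout z hz)
  have hdz : ∀ n z, (2 * Real.pi : ℂ) * dz (mo (ρ n) fun z => U z * χ z) z =
      ct (mo (ρ n) F₁) z + ct (mo (ρ n) F₂) z := by
    intro n z
    rw [dz_ct (sP n) (cP n), ct_shift, ct_shift, ct_shift,
      ← integral_add (ct_int (c1 n) (z1 n) z le_rfl) (ct_int (c2 n) (z2 n) z le_rfl)]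
    congr 1
    funext w
    rw [hLap]
    push_cast
    ring
  obtain ⟨n₀, hn₀⟩ : ∃ n₀ : ℕ, ∀ n ≥ n₀, 1 / ((n : ℝ) + 1) < ε / 8 := by
    have h1 := tendsto_δ.eventually (gt_mem_nhds (show (0 : ℝ) < ε / 8 by positivity))
    exact eventually_atTop.1 h1
  have hfar : ∀ n ≥ n₀, ∀ ζ, ‖ζ - z0‖ < ε / 8 → mo (ρ n) F₂ ζ = 0 := by
    intro n hn ζ hζ
    refine mo_zero fun t ht => nF₂ t ?_
    rw [Metric.mem_ball, dist_eq_norm]
    have h1 := hn₀ n hn
    have h2 : ‖t - z0‖ ≤ ‖ζ - t‖ + ‖ζ - z0‖ := by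
      have e : t - z0 = -(ζ - t) + (ζ - z0) := by ring
      calc ‖t - z0‖ = ‖-(ζ - t) + (ζ - z0)‖ := by rw [← e]
        _ ≤ ‖-(ζ - t)‖ + ‖ζ - z0‖ := norm_add_le _ _
        _ = _ := by rw [norm_neg]
    linarith
  -- the modulus of continuity
  obtain ⟨C, hC0, hC⟩ := ct_near (R := R + 1) (R' := R + 1 + (‖z0‖ + ε))
  obtain ⟨I₂, hI₂⟩ : ∃ I₂ : ℝ, I₂ = ∫ z, |F₂ z| := ⟨_, rfl⟩
  have hI₂0 : 0 ≤ I₂ := by rw [hI₂]; exact integral_nonneg fun z => abs_nonneg _
  have huc : ∀ η > 0, ∃ δ > 0, ∀ a b : ℂ, ‖a - b‖ < δ → |F₁ a - F₁ b| ≤ η := by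
    intro η hη
    have h0 : HasCompactSupport F₁ := HasCompactSupport.intro c fun z hz => zF₁ z hz
    have h1 : UniformContinuous F₁ := h0.uniformContinuous_of_continuous cF₁
    obtain ⟨δ, hδ, h2⟩ := Metric.uniformContinuous_iff.1 h1 η hη
    refine ⟨δ, hδ, fun a b hab => ?_⟩
    have := h2 (a := a) (b := b) (by rw [dist_eq_norm]; exact hab)
    rw [Real.dist_eq] at this
    exact this.le
  have hequi : ∀ η > 0, ∃ δ > 0, ∀ n ≥ n₀, ∀ z ∈ Metric.ball z0 (ε / 16),
      ∀ z' ∈ Metric.ball z0 (ε / 16), ‖z - z'‖ < δ →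
        ‖dz (mo (ρ n) fun z => U z * χ z) z - dz (mo (ρ n) fun z => U z * χ z) z'‖ ≤ η := by
    intro η hη
    obtain ⟨δ₁, hδ₁, h1⟩ := huc (η / (C + 1)) (by positivity)
    refine ⟨min δ₁ (η / (4 / (ε / 8) ^ 2 * I₂ + 1)), lt_min hδ₁ (by positivity), ?_⟩
    intro n hn z hz z' hz' hd
    rw [Metric.mem_ball, dist_eq_norm] at hz hz'
    have hzn : ∀ y : ℂ, ‖y - z0‖ < ε / 16 → R + 1 + ‖y‖ ≤ R + 1 + (‖z0‖ + ε) := by
      intro y hy
      have h2 : ‖y‖ ≤ ‖z0‖ + ‖y - z0‖ := by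
        have e : y = z0 + (y - z0) := by ring
        calc ‖y‖ = ‖z0 + (y - z0)‖ := by rw [← e]
          _ ≤ _ := norm_add_le _ _
      linarith
    have e1 : ‖ct (mo (ρ n) F₁) z - ct (mo (ρ n) F₁) z'‖ ≤ η / (C + 1) * C := by
      refine hC _ _ z z' (c1 n) (z1 n) (by positivity) (hzn z hz) (hzn z' hz') fun w => ?_
      refine mo_mod cF₁ n fun s => h1 _ _ ?_
      have e : z - w - s - (z' - w - s) = z - z' := by ring
      rw [e]
      exact lt_of_lt_of_le hd (min_le_left _ _)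
    have e2 : ‖ct (mo (ρ n) F₂) z - ct (mo (ρ n) F₂) z'‖ ≤
        4 / (ε / 8) ^ 2 * ‖z - z'‖ * I₂ := by
      refine (ct_far (c2 n) (HasCompactSupport.intro (isCompact_closedBall (0 : ℂ) (R + 1))
        fun w hw => z2 n w (by
          by_contra hcon
          exact hw (mem_closedBall_zero_iff.2 (not_lt.1 hcon)))) (s := ε / 8) (by positivity)
        (hfar n hn) (by linarith) (by linarith)).trans ?_
      refine mul_le_mul_of_nonneg_left ?_ (by positivity)
      rw [hI₂]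
      exact mo_l1 iF₂ n
    have e3 : 4 / (ε / 8) ^ 2 * ‖z - z'‖ * I₂ ≤ η := by
      have h2 : ‖z - z'‖ ≤ η / (4 / (ε / 8) ^ 2 * I₂ + 1) := (lt_of_lt_of_le hd (min_le_right _ _)).le
      have h3 : 0 ≤ 4 / (ε / 8) ^ 2 * I₂ := by positivity
      calc 4 / (ε / 8) ^ 2 * ‖z - z'‖ * I₂ = 4 / (ε / 8) ^ 2 * I₂ * ‖z - z'‖ := by ring
        _ ≤ 4 / (ε / 8) ^ 2 * I₂ * (η / (4 / (ε / 8) ^ 2 * I₂ + 1)) :=
          mul_le_mul_of_nonneg_left h2 h3
        _ ≤ (4 / (ε / 8) ^ 2 * I₂ + 1) * (η / (4 / (ε / 8) ^ 2 * I₂ + 1)) := by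
          refine mul_le_mul_of_nonneg_right (by linarith) (by positivity)
        _ = η := by
          rw [mul_div_cancel₀]
          positivity
    have e4 : η / (C + 1) * C ≤ η := by
      rw [div_mul_eq_mul_div, div_le_iff₀ (by positivity)]
      nlinarith
    have e5 : ‖(2 * Real.pi : ℂ) * (dz (mo (ρ n) fun z => U z * χ z) z -
        dz (mo (ρ n) fun z => U z * χ z) z')‖ ≤ 2 * η := by
      rw [mul_sub, hdz, hdz]
      have e : ct (mo (ρ n) F₁) z + ct (mo (ρ n) F₂) z -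
          (ct (mo (ρ n) F₁) z' + ct (mo (ρ n) F₂) z') =
          (ct (mo (ρ n) F₁) z - ct (mo (ρ n) F₁) z') +
            (ct (mo (ρ n) F₂) z - ct (mo (ρ n) F₂) z') := by ring
      rw [e]
      refine (norm_add_le _ _).trans ?_
      linarith
    rw [norm_mul] at e5
    have e6 : ‖(2 * Real.pi : ℂ)‖ = 2 * Real.pi := by
      rw [norm_mul, Complex.norm_real, Real.norm_of_nonneg Real.pi_pos.le]
      norm_num
    rw [e6] at e5
    have hpi := Real.pi_gt_three
    have h7 : 0 ≤ ‖dz (mo (ρ n) fun z => U z * χ z) z - dz (mo (ρ n) fun z => U z * χ z) z'‖ :=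
      norm_nonneg _
    nlinarith
  -- the limits
  have hlim : ∀ v : ℂ, ∀ᵐ z, z ∈ Metric.ball z0 (ε / 16) →
      Tendsto (fun n => D v (mo (ρ n) fun z => U z * χ z) z) atTop (𝓝 (inner ℝ (g z) v)) := by
    intro v
    filter_upwards [mo_tendsto (loc (mem_G W s c hsub v))] with z hzt hzB
    have hzB' : z ∈ Metric.ball z0 (ε / 4) := Metric.ball_subset_ball (by linarith) hzB
    have e : GG (fun z => χ z) U g v z = inner ℝ (g z) v := by
      unfold GG
      rw [D_one Metric.isOpen_ball hone hzB']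
      show inner ℝ (g z) v * χ z + U z * 0 = _
      rw [hone z hzB', mul_one, mul_zero, add_zero]
    rw [e] at hzt
    refine hzt.congr fun n => ?_
    rw [D_mo_cut W s c hsub n v]
  have hre : ∀ (n : ℕ) (z z' : ℂ), |D 1 (mo (ρ n) fun z => U z * χ z) z -
      D 1 (mo (ρ n) fun z => U z * χ z) z'| ≤
      ‖dz (mo (ρ n) fun z => U z * χ z) z - dz (mo (ρ n) fun z => U z * χ z) z'‖ := by
    intro n z z'
    refine le_trans (le_of_eq ?_) (Complex.abs_re_le_norm _)
    unfold dz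
    simp
  have him : ∀ (n : ℕ) (z z' : ℂ), |D Complex.I (mo (ρ n) fun z => U z * χ z) z -
      D Complex.I (mo (ρ n) fun z => U z * χ z) z'| ≤
      ‖dz (mo (ρ n) fun z => U z * χ z) z - dz (mo (ρ n) fun z => U z * χ z) z'‖ := by
    intro n z z'
    refine le_trans (le_of_eq ?_) (Complex.abs_im_le_norm _)
    unfold dz
    simp
    rw [abs_sub_comm]
    congr 1
    ring
  obtain ⟨G₁, hG₁, hG₁e⟩ := equi Metric.isOpen_ball n₀ (fun η hη => by
    obtain ⟨δ, hδ, h⟩ := hequi η hη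
    exact ⟨δ, hδ, fun n hn z hz z' hz' hd => (hre n z z').trans (h n hn z hz z' hz' hd)⟩) (hlim 1)
  obtain ⟨G₂, hG₂, hG₂e⟩ := equi Metric.isOpen_ball n₀ (fun η hη => by
    obtain ⟨δ, hδ, h⟩ := hequi η hη
    exact ⟨δ, hδ, fun n hn z hz z' hz' hd => (him n z z').trans (h n hn z hz z' hz' hd)⟩)
    (hlim Complex.I)
  refine ⟨ε / 16, fun z => (G₁ z : ℂ) + (G₂ z : ℂ) * Complex.I, by positivity,
    (Metric.ball_subset_ball (by linarith)).trans hb, ?_, ?_⟩
  · exact (Complex.continuous_ofReal.comp_continuousOn hG₁).add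
      ((Complex.continuous_ofReal.comp_continuousOn hG₂).mul continuousOn_const)
  · filter_upwards [hG₁e, hG₂e] with z h1 h2 hzB
    rw [← h1 hzB, ← h2 hzB]
    apply Complex.ext
    · simp [Complex.inner]
    · simp [Complex.inner]

/-- **`LR-GRAD`** -/
theorem stGrad : StGrad := by
  intro O U g w hO hU hw W
  have hl := fun z : O => grad_rep hO W hU hw z.2
  choose r P hr hsub hc he using hl
  classical
  -- uniqueness on overlaps
  have uniq : ∀ (a b : O) (z : ℂ), z ∈ Metric.ball a.1 (r a) → z ∈ Metric.ball b.1 (r b) →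
      P a z = P b z := by
    intro a b z ha hb
    have ho : IsOpen (Metric.ball a.1 (r a) ∩ Metric.ball b.1 (r b)) :=
      Metric.isOpen_ball.inter Metric.isOpen_ball
    have h1 : P a =ᵐ[volume.restrict (Metric.ball a.1 (r a) ∩ Metric.ball b.1 (r b))] P b := by
      refine (ae_restrict_iff' ho.measurableSet).mpr ?_
      filter_upwards [he a, he b] with z h1 h2 h3
      rw [← h1 h3.1, ← h2 h3.2]
    exact Measure.eqOn_open_of_ae_eq h1 ho ((hc a).mono inter_subset_left)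
      ((hc b).mono inter_subset_right) ⟨ha, hb⟩
  let U' : ℂ → ℂ := fun z => if h : z ∈ O then P ⟨z, h⟩ z else 0
  have hU' : ∀ (a : O) (z : ℂ), z ∈ Metric.ball a.1 (r a) → U' z = P a z := by
    intro a z hz
    have hzO := hsub a hz
    show (if h : z ∈ O then P ⟨z, h⟩ z else 0) = P a z
    rw [dif_pos hzO]
    exact uniq ⟨z, hzO⟩ a z (Metric.mem_ball_self (hr _)) hz
  refine ⟨U', ?_, ?_⟩
  · intro z hz
    have h1 : U' =ᶠ[𝓝 z] P ⟨z, hz⟩ :=
      Filter.eventually_of_mem (Metric.ball_mem_nhds z (hr ⟨z, hz⟩)) fun y hy => hU' ⟨z, hz⟩ y hy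
    have h2 : ContinuousAt (P ⟨z, hz⟩) z :=
      (hc ⟨z, hz⟩).continuousAt (Metric.ball_mem_nhds z (hr ⟨z, hz⟩))
    exact (h2.congr h1.symm).continuousWithinAt
  · rw [ae_restrict_iff' hO.measurableSet]
    have h1 : volume {z | z ∈ O ∧ g z ≠ U' z} = 0 := by
      refine measure_null_of_locally_null _ fun z hz => ?_
      refine ⟨{y | y ∈ Metric.ball z (r ⟨z, hz.1⟩) ∧ g y ≠ U' y}, ?_, ?_⟩
      · rw [mem_nhdsWithin]
        refine ⟨Metric.ball z (r ⟨z, hz.1⟩), Metric.isOpen_ball, Metric.mem_ball_self (hr _), ?_⟩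
        rintro y ⟨h1, h2⟩
        exact ⟨h1, h2.2⟩
      · have h2 := he ⟨z, hz.1⟩
        rw [ae_iff] at h2
        refine measure_mono_null ?_ h2
        rintro y ⟨h3, h4⟩ h5
        exact h4 ((h5 h3).trans (hU' ⟨z, hz.1⟩ y h3).symm)
    rw [ae_iff]
    refine measure_mono_null ?_ h1
    intro z hz
    simp only [Classical.not_imp, Set.mem_ofPred_eq] at hz
    exact hz

end Pool.Agent.H23.CL.GC
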