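import Pool.Agent.H23.UC.Stm

/-!
# Linear combinations of weak solutions
-/

set_option autoImplicit false

open Set Filter Topology MeasureTheory
open scoped ContDiff ENNReal

noncomputable section

namespace Pool.Agent.H23.CL

lemma int_mul_test {O : Set ℂ} {F : ℂ → ℝ}
    (hF : ∀ K ⊆ O, IsCompact K → MemLp F 2 (volume.restrict K)) {θ : ℂ → ℝ} (hθ : Continuous θ)
    {K : Set ℂ} (hK : IsCompact K) (hKO : K ⊆ O) (h0 : ∀ z ∉ K, θ z = 0) :
    Integrable fun z => F z * θ z := by
  have hfin : IsFiniteMeasure (volume.restrict K) := ⟨by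
    rw [Measure.restrict_apply_univ]
    exact hK.measure_lt_top⟩
  have h2 : IntegrableOn F K := (hF K hKO hK).integrable (by norm_num)
  have h1 : IntegrableOn (fun z => F z * θ z) K := h2.mul_continuousOn hθ.continuousOn hK
  refine (integrableOn_iff_integrable_of_support_subset ?_).1 h1
  intro z hz
  by_contra hzK
  refine hz ?_
  show F z * θ z = 0
  rw [h0 z hzK, mul_zero]

lemma fderiv_off {η : ℂ → ℝ} {z : ℂ} (hz : z ∉ tsupport η) (v : ℂ) : fderiv ℝ η z v = 0 := by
  have h6 : fderiv ℝ η z = 0 := by
    by_contra hne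
    exact hz (support_fderiv_subset ℝ (Function.mem_support.2 hne))
  rw [h6]
  rfl

lemma fderiv_cont {η : ℂ → ℝ} (h : ContDiff ℝ ∞ η) (v : ℂ) : Continuous fun z => fderiv ℝ η z v :=
  (h.continuous_fderiv (by simp)).clm_apply continuous_const

lemma clm_split (L : ℂ →L[ℝ] ℝ) (w : ℂ) : L w = w.re * L 1 + w.im * L Complex.I := by
  have h1 : w = w.re • (1 : ℂ) + w.im • Complex.I := by
    apply Complex.ext <;> simp
  conv_lhs => rw [h1]
  rw [map_add, map_smul, map_smul, smul_eq_mul, smul_eq_mul]

lemma inner_split (w v : ℂ) : inner ℝ w v = w.re * v.re + w.im * v.im := by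
  rw [Complex.inner]
  simp
  ring

/-- linear combinations of weak solutions -/
theorem weak_comb {O : Set ℂ} {m : ℕ} {U : Fin m → ℂ → ℝ} {g : Fin m → ℂ → ℂ} {w : Fin m → ℂ → ℝ}
    (h : ∀ i, UC.Weak O (U i) (g i) (w i)) (t : Fin m → ℝ) :
    UC.Weak O (fun z => ∑ i, t i * U i z) (fun z => ∑ i, ((t i : ℝ) : ℂ) * g i z)
      (fun z => ∑ i, t i * w i z) := by
  have mre : ∀ i, ∀ K ⊆ O, IsCompact K → MemLp (fun z => (g i z).re) 2 (volume.restrict K) :=
    fun i K h1 h2 => ((h i).mg K h1 h2).re
  have mim : ∀ i, ∀ K ⊆ O, IsCompact K → MemLp (fun z => (g i z).im) 2 (volume.restrict K) :=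
    fun i K h1 h2 => ((h i).mg K h1 h2).im
  refine ⟨fun K h1 h2 => ?_, fun K h1 h2 => ?_, fun K h1 h2 => ?_, ?_, ?_⟩
  · exact memLp_finsetSum _ fun i _ => ((h i).mU K h1 h2).const_mul _
  · exact memLp_finsetSum _ fun i _ => ((h i).mg K h1 h2).const_mul _
  · exact memLp_finsetSum _ fun i _ => ((h i).mw K h1 h2).const_mul _
  · intro η h1 h2 h3 v
    have e1 : (fun z => (∑ i, t i * U i z) * fderiv ℝ η z v) =
        fun z => ∑ i, t i * (U i z * fderiv ℝ η z v) := by
      funext z
      rw [Finset.sum_mul]
      exact Finset.sum_congr rfl fun i _ => by ring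
    have e2 : (fun z => inner ℝ (∑ i, ((t i : ℝ) : ℂ) * g i z) v * η z) =
        fun z => ∑ i, t i * (inner ℝ (g i z) v * η z) := by
      funext z
      rw [inner_split, Complex.re_sum, Complex.im_sum, Finset.sum_mul, Finset.sum_mul,
        ← Finset.sum_add_distrib, Finset.sum_mul]
      refine Finset.sum_congr rfl fun i _ => ?_
      rw [inner_split]
      simp
      ring
    have i1 : ∀ i, Integrable fun z => U i z * fderiv ℝ η z v := fun i =>
      int_mul_test (h i).mU (fderiv_cont h1 v) h2 h3 fun z hz => fderiv_off hz v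
    have i2 : ∀ i, Integrable fun z => inner ℝ (g i z) v * η z := by
      intro i
      have h4 : (fun z => inner ℝ (g i z) v * η z) =
          fun z => v.re * ((g i z).re * η z) + v.im * ((g i z).im * η z) := by
        funext z
        rw [inner_split]
        ring
      rw [h4]
      exact ((int_mul_test (mre i) h1.continuous h2 h3 fun z hz =>
        image_eq_zero_of_notMem_tsupport hz).const_mul _).add
        ((int_mul_test (mim i) h1.continuous h2 h3 fun z hz =>
        image_eq_zero_of_notMem_tsupport hz).const_mul _)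
    rw [e1, e2, integral_finsetSum _ fun i _ => (i1 i).const_mul _,
      integral_finsetSum _ fun i _ => (i2 i).const_mul _, ← Finset.sum_neg_distrib]
    refine Finset.sum_congr rfl fun i _ => ?_
    rw [integral_const_mul, integral_const_mul, (h i).grad η h1 h2 h3 v]
    ring
  · intro η h1 h2 h3
    have e1 : (fun z => fderiv ℝ η z (∑ i, ((t i : ℝ) : ℂ) * g i z)) =
        fun z => ∑ i, t i * fderiv ℝ η z (g i z) := by
      funext z
      rw [map_sum]
      refine Finset.sum_congr rfl fun i _ => ?_
      have h4 : ((t i : ℝ) : ℂ) * g i z = t i • g i z := by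
        rw [Complex.real_smul]
      rw [h4, map_smul, smul_eq_mul]
    have e2 : (fun z => (∑ i, t i * w i z) * η z) = fun z => ∑ i, t i * (w i z * η z) := by
      funext z
      rw [Finset.sum_mul]
      exact Finset.sum_congr rfl fun i _ => by ring
    have i1 : ∀ i, Integrable fun z => fderiv ℝ η z (g i z) := by
      intro i
      have h4 : (fun z => fderiv ℝ η z (g i z)) = fun z => (g i z).re * fderiv ℝ η z 1 +
          (g i z).im * fderiv ℝ η z Complex.I := by
        funext z
        rw [clm_split]
      rw [h4]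
      exact (int_mul_test (mre i) (fderiv_cont h1 1) h2 h3 fun z hz => fderiv_off hz 1).add
        (int_mul_test (mim i) (fderiv_cont h1 Complex.I) h2 h3 fun z hz =>
          fderiv_off hz Complex.I)
    have i2 : ∀ i, Integrable fun z => w i z * η z := fun i =>
      int_mul_test (h i).mw h1.continuous h2 h3 fun z hz => image_eq_zero_of_notMem_tsupport hz
    rw [e1, e2, integral_finsetSum _ fun i _ => (i1 i).const_mul _,
      integral_finsetSum _ fun i _ => (i2 i).const_mul _]
    refine Finset.sum_congr rfl fun i _ => ?_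
    rw [integral_const_mul, integral_const_mul, (h i).lap η h1 h2 h3]

end Pool.Agent.H23.CL
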