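import Pool.Agent.H15.UC.Three
import Pool.Agent.H23.CL.Comb

/-!
# Weak solutions with proportional gradients
-/

set_option autoImplicit false

open Set Filter Topology MeasureTheory
open scoped ContDiff ComplexConjugate ENNReal

noncomputable section

namespace Pool.Agent.H23.CL.GC

open Pool.Agent.H15.UC
open Pool.Agent.H23.UC (Weak)

/-- two weak solutions with `W ∇ X = X ∇ W` are proportional on a smaller set -/
theorem prop_const {O : Set ℂ} {X W : ℂ → ℝ} {gX gW : ℂ → ℂ} {wX wW : ℂ → ℝ} (oO : IsOpen O)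
    (nO : O.Nonempty) (cX : ContinuousOn X O) (cW : ContinuousOn W O) (WX : Weak O X gX wX)
    (WW : Weak O W gW wW) (hW : ∀ z ∈ O, W z ≠ 0)
    (hp : ∀ᵐ z ∂(volume.restrict O), ((W z : ℝ) : ℂ) * gX z = ((X z : ℝ) : ℂ) * gW z) :
    ∃ (c : ℝ) (B : Set ℂ), IsOpen B ∧ B.Nonempty ∧ B ⊆ O ∧ ∀ z ∈ B, X z = c * W z := by
  obtain ⟨z₀, hz₀⟩ := nO
  have hW0 : W z₀ ≠ 0 := hW z₀ hz₀
  -- the discs
  have hev : ∀ᶠ z in 𝓝 z₀, z ∈ O ∧ |W z - W z₀| < |W z₀| / 2 := by
    have h0 : ∀ᶠ z in 𝓝 z₀, z ∈ O := oO.mem_nhds hz₀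
    refine h0.and ?_
    have h1 := cW.continuousAt (oO.mem_nhds hz₀)
    have h2 := Metric.continuousAt_iff'.mp h1 (|W z₀| / 2) (by
      have := abs_pos.mpr hW0
      positivity)
    filter_upwards [h2] with z hz
    rwa [Real.dist_eq] at hz
  obtain ⟨ε, hε, hball⟩ := Metric.eventually_nhds_iff_ball.mp hev
  set r := ε / 4 with hr
  have hr0 : 0 < r := by positivity
  let χ : ContDiffBump z₀ := ⟨r, 2 * r, hr0, by linarith⟩
  have ts : tsupport (fun z => χ z) ⊆ O := by
    rw [χ.tsupport_eq]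
    intro z hz
    refine (hball z ?_).1
    refine Metric.closedBall_subset_ball ?_ hz
    show 2 * r < ε
    linarith
  have sχ : ContDiff ℝ ∞ (fun z => χ z) := χ.contDiff
  have kχ : HasCompactSupport (fun z => χ z) := χ.hasCompactSupport
  set B := Metric.ball z₀ r with hB
  have oB : IsOpen B := Metric.isOpen_ball
  have hBε : B ⊆ Metric.ball z₀ ε := Metric.ball_subset_ball (by linarith)
  have hBO : B ⊆ O := fun z hz => (hball z (hBε hz)).1
  have one : ∀ z ∈ B, χ z = 1 := fun z hz =>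
    χ.one_of_mem_closedBall (Metric.ball_subset_closedBall hz)
  have prop : ∀ v : ℂ, ∀ᵐ z, z ∈ B → W z * inner ℝ (gX z) v = X z * inner ℝ (gW z) v := by
    intro v
    filter_upwards [(ae_restrict_iff' oO.measurableSet).1 hp] with z h hz
    have h1 := h (hBO hz)
    have h2 := congrArg Complex.re h1
    have h3 := congrArg Complex.im h1
    simp only [Complex.re_ofReal_mul, Complex.im_ofReal_mul] at h2 h3
    rw [inner_split, inner_split]
    linear_combination v.re * h2 + v.im * h3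
  obtain ⟨F, sF, hF⟩ := inv_fun hW0
  have hFB : ∀ z ∈ B, F (W z) = (W z)⁻¹ ∧ deriv F (W z) = -(W z ^ 2)⁻¹ := fun z hz =>
    hF _ (hball z (hBε hz)).2
  have hWne : ∀ z ∈ B, W z ≠ 0 := fun z hz => hW z (hBO hz)
  have zero : ∀ (v : ℂ) (η : ℂ → ℝ), ContDiff ℝ ∞ η → HasCompactSupport η → tsupport η ⊆ B →
      ∫ z, X z / W z * D v η z = 0 := by
    intro v η sη kη tη
    have h := chain WX WW sχ kχ ts oO cW oB hBO one sη kη tη sF v
    have e1 : ∫ z, X z * (F (W z) * D v η z) = ∫ z, X z / W z * D v η z := by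
      congr 1
      funext z
      by_cases hz : z ∈ tsupport η
      · rw [(hFB z (tη hz)).1]
        ring
      · rw [D_zero_of_tsupp hz]
        ring
    have e2 : ∫ z, X z * (deriv F (W z) * η z) * inner ℝ (gW z) v =
        -∫ z, inner ℝ (gX z) v * (F (W z) * η z) := by
      rw [← integral_neg]
      refine integral_congr_ae ?_
      filter_upwards [prop v] with z hz
      by_cases h2 : z ∈ tsupport η
      · rw [(hFB z (tη h2)).1, (hFB z (tη h2)).2]
        have h3 := hz (tη h2)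
        have h4 := hWne z (tη h2)
        have h5 : X z * (-(W z ^ 2)⁻¹ * η z) * inner ℝ (gW z) v =
            -((W z ^ 2)⁻¹ * η z * (X z * inner ℝ (gW z) v)) := by ring
        rw [h5, ← h3]
        field_simp
      · rw [zero_of_tsupp h2]
        ring
    rw [e1, e2] at h
    linarith
  have cQ : ContinuousOn (fun z => X z / W z) B :=
    (cX.mono hBO).div (cW.mono hBO) hWne
  have fin := const_of_weak hr0 cQ zero
  refine ⟨X z₀ / W z₀, Metric.ball z₀ (r / 4), Metric.isOpen_ball,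
    ⟨z₀, Metric.mem_ball_self (by positivity)⟩,
    (Metric.ball_subset_ball (by linarith)).trans hBO, ?_⟩
  intro z hz
  have h1 : X z / W z = X z₀ / W z₀ := fin z hz
  have h2 := hWne z (Metric.ball_subset_ball (by linarith) hz)
  rw [← h1]
  field_simp

/-- a difference of weak solutions -/
theorem weak_sub_mul {O : Set ℂ} {V U : ℂ → ℝ} {gV gU : ℂ → ℂ} {wV wU : ℂ → ℝ}
    (WV : Weak O V gV wV) (WU : Weak O U gU wU) (m : ℝ) :
    Weak O (fun z => V z - m * U z) (fun z => gV z - ((m : ℝ) : ℂ) * gU z)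
      (fun z => wV z - m * wU z) := by
  have h : ∀ i : Fin 2, Weak O ((![V, U] : Fin 2 → ℂ → ℝ) i) ((![gV, gU] : Fin 2 → ℂ → ℂ) i)
      ((![wV, wU] : Fin 2 → ℂ → ℝ) i) := by
    intro i
    fin_cases i
    · exact WV
    · exact WU
  have h2 := weak_comb h ![1, -m]
  have e1 : (fun z => ∑ i : Fin 2, (![1, -m] : Fin 2 → ℝ) i * (![V, U] : Fin 2 → ℂ → ℝ) i z) =
      fun z => V z - m * U z := by
    funext z
    simp [Fin.sum_univ_two]
    ring
  have e2 : (fun z => ∑ i : Fin 2, (((![1, -m] : Fin 2 → ℝ) i : ℝ) : ℂ) *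
      (![gV, gU] : Fin 2 → ℂ → ℂ) i z) = fun z => gV z - ((m : ℝ) : ℂ) * gU z := by
    funext z
    simp [Fin.sum_univ_two]
    ring
  have e3 : (fun z => ∑ i : Fin 2, (![1, -m] : Fin 2 → ℝ) i *
      (![wV, wU] : Fin 2 → ℂ → ℝ) i z) = fun z => wV z - m * wU z := by
    funext z
    simp [Fin.sum_univ_two]
    ring
  rw [e1, e2, e3] at h2
  exact h2

end Pool.Agent.H23.CL.GC
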