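import Pool.Agent.H23.CL.Cov

/-!
# Clusters of levels: independent directions
-/

set_option autoImplicit false
set_option linter.unusedSectionVars false

open Set Filter Topology MeasureTheory
open scoped ENNReal
open Pool.Agent.Y262.QE Pool.Agent.Y264.QR Q101.QG
open Pool.Agent.Q233 Pool.Agent.Q233.GLV

noncomputable section

namespace Pool.Agent.H23.CL

open Pool.Agent.H23.LR

/-- the pairs of indices of the cluster -/
abbrev Ix (r : ℕ) : Type := Fin (r + 2) × Fin (r + 2)

/-- a symmetric matrix whose quadratic form is bounded by the mean of the diagonal is scalar -/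
lemma scal {r : ℕ} (K : Fin (r + 2) → Fin (r + 2) → ℝ) (hK : ∀ i j, K i j = K j i)
    (h : ∀ x ∈ US r, ∑ i, ∑ j, x i * x j * K i j ≤ (∑ j, K j j) / (r + 2)) :
    ∃ t : ℝ, ∀ i j, K i j = if i = j then t else 0 := by
  classical
  obtain ⟨t, ht⟩ : ∃ t, t = (∑ j, K j j) / ((r : ℝ) + 2) := ⟨_, rfl⟩
  rw [← ht] at h
  -- the value at a combination of two vectors
  have hval : ∀ (i j : Fin (r + 2)) (α β : ℝ),
      ∑ k, ∑ l, (α * (Pi.single i (1 : ℝ) : Fin (r + 2) → ℝ) k +
        β * (Pi.single j (1 : ℝ) : Fin (r + 2) → ℝ) k) *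
        (α * (Pi.single i (1 : ℝ) : Fin (r + 2) → ℝ) l +
        β * (Pi.single j (1 : ℝ) : Fin (r + 2) → ℝ) l) * K k l =
      α * α * K i i + α * β * K i j + β * α * K j i + β * β * K j j := by
    intro i j α β
    have e1 : ∀ (p s : Fin (r + 2)) (γ : ℝ), ∑ k, ∑ l, γ *
        ((Pi.single p (1 : ℝ) : Fin (r + 2) → ℝ) k * (Pi.single s (1 : ℝ) : Fin (r + 2) → ℝ) l) *
          K k l = γ * K p s := by
      intro p s γ
      rw [Finset.sum_eq_single p]
      · rw [Finset.sum_eq_single s]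
        · simp
        · intro l _ hl
          simp [Pi.single_eq_of_ne hl]
        · intro h
          exact absurd (Finset.mem_univ _) h
      · intro k _ hk
        refine Finset.sum_eq_zero fun l _ => ?_
        simp [Pi.single_eq_of_ne hk]
      · intro h
        exact absurd (Finset.mem_univ _) h
    rw [← e1 i i (α * α), ← e1 i j (α * β), ← e1 j i (β * α), ← e1 j j (β * β),
      ← Finset.sum_add_distrib, ← Finset.sum_add_distrib, ← Finset.sum_add_distrib]
    refine Finset.sum_congr rfl fun k _ => ?_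
    rw [← Finset.sum_add_distrib, ← Finset.sum_add_distrib, ← Finset.sum_add_distrib]
    refine Finset.sum_congr rfl fun l _ => ?_
    ring
  have hnorm : ∀ (i j : Fin (r + 2)) (α β : ℝ), i ≠ j → α ^ 2 + β ^ 2 = 1 →
      (fun k => α * (Pi.single i (1 : ℝ) : Fin (r + 2) → ℝ) k +
        β * (Pi.single j (1 : ℝ) : Fin (r + 2) → ℝ) k) ∈ US r := by
    intro i j α β hij hαβ
    show ∑ k, _ = 1
    have e1 : ∀ k, (α * (Pi.single i (1 : ℝ) : Fin (r + 2) → ℝ) k +
        β * (Pi.single j (1 : ℝ) : Fin (r + 2) → ℝ) k) ^ 2 =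
        (if k = i then α ^ 2 else 0) + (if k = j then β ^ 2 else 0) := by
      intro k
      by_cases h1 : k = i
      · subst h1
        rw [if_pos rfl, if_neg hij, Pi.single_eq_same, Pi.single_eq_of_ne hij]
        ring
      · by_cases h2 : k = j
        · subst h2
          rw [if_neg h1, if_pos rfl, Pi.single_eq_same, Pi.single_eq_of_ne h1]
          ring
        · rw [if_neg h1, if_neg h2, Pi.single_eq_of_ne h1, Pi.single_eq_of_ne h2]
          ring
    simp only [e1]
    rw [Finset.sum_add_distrib]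
    simp [hαβ]
  have hdiag : ∀ i, K i i ≤ t := by
    intro i
    obtain ⟨j, hj⟩ : ∃ j : Fin (r + 2), i ≠ j := by
      obtain ⟨j, hj⟩ := exists_ne i
      exact ⟨j, hj.symm⟩
    have h1 := h _ (hnorm i j 1 0 hj (by norm_num))
    have h2 := hval i j 1 0
    rw [h2] at h1
    linarith
  have hdiag' : ∀ i, K i i = t := by
    have h1 : ∑ i, (t - K i i) = 0 := by
      rw [Finset.sum_sub_distrib, Finset.sum_const, Finset.card_univ, Fintype.card_fin,
        nsmul_eq_mul, ht]
      push_cast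
      field_simp
      ring
    have h2 := (Finset.sum_eq_zero_iff_of_nonneg fun i _ => sub_nonneg.2 (hdiag i)).1 h1
    intro i
    linarith [h2 i (Finset.mem_univ i)]
  refine ⟨t, fun i j => ?_⟩
  by_cases hij : i = j
  · subst hij
    rw [if_pos rfl, hdiag']
  · rw [if_neg hij]
    have hs : (Real.sqrt 2)⁻¹ ^ 2 = 1 / 2 := by
      rw [inv_pow, Real.sq_sqrt (by norm_num)]
      norm_num
    have h1 := h _ (hnorm i j (Real.sqrt 2)⁻¹ (Real.sqrt 2)⁻¹ hij (by rw [hs]; norm_num))
    have h2 := h _ (hnorm i j (Real.sqrt 2)⁻¹ (-(Real.sqrt 2)⁻¹) hij (by rw [neg_sq, hs]; norm_num))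
    rw [hval, hdiag', hdiag', hK j i] at h1 h2
    have hs' : (Real.sqrt 2)⁻¹ * (Real.sqrt 2)⁻¹ = 1 / 2 := by rw [← sq, hs]
    have e1 : (Real.sqrt 2)⁻¹ * (Real.sqrt 2)⁻¹ * t + (Real.sqrt 2)⁻¹ * (Real.sqrt 2)⁻¹ * K i j +
        (Real.sqrt 2)⁻¹ * (Real.sqrt 2)⁻¹ * K i j + (Real.sqrt 2)⁻¹ * (Real.sqrt 2)⁻¹ * t =
        t + K i j := by
      rw [hs']
      ring
    have e2 : (Real.sqrt 2)⁻¹ * (Real.sqrt 2)⁻¹ * t + (Real.sqrt 2)⁻¹ * -(Real.sqrt 2)⁻¹ * K i j +
        -(Real.sqrt 2)⁻¹ * (Real.sqrt 2)⁻¹ * K i j + -(Real.sqrt 2)⁻¹ * -(Real.sqrt 2)⁻¹ * t =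
        t - K i j := by
      linear_combination (2 * t - 2 * K i j) * hs'
    rw [e1] at h1
    rw [e2] at h2
    linarith

variable {M : Type} [MetricSpace M] [CompactSpace M] [MeasurableSpace M] [BorelSpace M]
  {μ : Measure M} [IsFiniteMeasure μ] {H : Type} [NormedAddCommGroup H] [InnerProductSpace ℝ H]
  {i : H →L[ℝ] Lp ℝ 2 μ} {a : H →L[ℝ] H →L[ℝ] ℝ} {b : C(M, ℝ) → H →L[ℝ] H →L[ℝ] ℝ}
  {m q r d : ℕ}

/-- the products of `r + 2` independent eigenvectors of an eigenvalue span a space of dimension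
greater than `d` -/
def Rich (μ : Measure M) (i : H →L[ℝ] Lp ℝ 2 μ) (a : H →L[ℝ] H →L[ℝ] ℝ)
    (b : C(M, ℝ) → H →L[ℝ] H →L[ℝ] ℝ) (r d : ℕ) : Prop :=
  ∀ (φ : C(M, ℝ)) (E : ℝ) (v : Fin (r + 2) → H), 0 < E → LinearIndependent ℝ v →
    (∀ j w, a (v j) w = E * b φ (v j) w) → ∀ A : Submodule ℝ (Module.Dual ℝ (Ix r → ℝ)),
    (∀ f ∈ A, ∀ᵐ x ∂μ, f (fun p => (i (v p.1) : M → ℝ) x * (i (v p.2) : M → ℝ) x) = 0) →
      Module.finrank ℝ A + (d + 1) ≤ (r + 2) ^ 2

/-- a family of `d + 1` or more independent vectors contains `d` vectors which are independent modulo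
a given one -/
lemma choose_dir {V : Type} [AddCommGroup V] [Module ℝ V] [FiniteDimensional ℝ V] (T : ℕ → V)
    (I : V) (h : d + 1 ≤ Module.finrank ℝ (Submodule.span ℝ (range T))) :
    ∃ n : Fin d → ℕ, ∀ z : Fin d → ℝ, z ≠ 0 → ∀ t : ℝ, ∑ j, z j • T (n j) ≠ t • I := by
  obtain ⟨N, hN⟩ : ∃ N : Submodule ℝ V, N = Submodule.span ℝ {I} := ⟨_, rfl⟩
  obtain ⟨W, hW⟩ : ∃ W : Submodule ℝ V, W = Submodule.span ℝ (range T) := ⟨_, rfl⟩
  have h1 : Submodule.span ℝ (range fun k => N.mkQ (T k)) = W.map N.mkQ := by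
    rw [hW, Submodule.map_span, ← range_comp]
    rfl
  have h2 : d ≤ Module.finrank ℝ (Submodule.span ℝ (range fun k => N.mkQ (T k))) := by
    rw [h1]
    have h3 := LinearMap.finrank_range_add_finrank_ker (N.mkQ.domRestrict W)
    rw [LinearMap.range_domRestrict, LinearMap.ker_domRestrict, Submodule.ker_mkQ] at h3
    have h4 : Module.finrank ℝ (Submodule.comap W.subtype N) ≤ 1 := by
      rw [← Submodule.finrank_map_subtype_eq]
      refine (Submodule.finrank_mono (Submodule.map_comap_le _ _)).trans ?_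
      rw [hN]
      by_cases hI : I = 0
      · rw [hI, Submodule.span_zero_singleton, finrank_bot]
        norm_num
      · rw [finrank_span_singleton hI]
    rw [← hW] at h
    omega
  obtain ⟨g, hg1, -, hg2⟩ := Submodule.exists_fun_fin_finrank_span_eq ℝ
    (range fun k => N.mkQ (T k))
  choose n hn using hg1
  have hli := hg2.comp (Fin.castLE h2) (Fin.castLE_injective h2)
  refine ⟨fun j => n (Fin.castLE h2 j), fun z hz t hcon => hz ?_⟩
  have h3 : ∑ j, z j • (g ∘ Fin.castLE h2) j = 0 := by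
    have h4 : ∀ j, (g ∘ Fin.castLE h2) j = N.mkQ (T (n (Fin.castLE h2 j))) := fun j =>
      (hn (Fin.castLE h2 j)).symm
    simp only [h4, ← map_smul, ← map_sum]
    rw [hcon, map_smul]
    have h5 : N.mkQ I = 0 := by
      rw [Submodule.mkQ_apply, Submodule.Quotient.mk_eq_zero, hN]
      exact Submodule.mem_span_singleton_self I
    rw [h5, smul_zero]
  funext j
  exact Fintype.linearIndependent_iff.1 hli z h3 j

lemma nv_lin {φ : C(M, ℝ)} {u : ℕ → H} (hu : Tp a b (q + r) φ u)
    (hmp : ∀ j, m ≤ j → ∀ φ, 0 < Ev a (b φ) j) (hmq : m ≤ q) :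
    LinearIndependent ℝ fun j : Fin (r + 2) => nv (fun j => Ev a (b φ) j) u (q + (j : ℕ)) := by
  rw [Fintype.linearIndependent_iff]
  intro t ht j
  have h1 : a (∑ j : Fin (r + 2), t j • nv (fun j => Ev a (b φ) j) u (q + (j : ℕ)))
      (nv (fun j => Ev a (b φ) j) u (q + (j : ℕ))) = t j := by
    rw [sum_form, Finset.sum_eq_single j]
    · rw [nv_a hu (fun j hj _ => hmp j hj φ) (m := m) (by omega) (by omega) (by omega), if_pos rfl,
        mul_one]
    · intro k _ hk
      rw [nv_a hu (fun j hj _ => hmp j hj φ) (m := m) (by omega) (by omega) (by omega), if_neg,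
        mul_zero]
      intro h
      exact hk (Fin.ext (by omega))
    · intro h
      exact absurd (Finset.mem_univ _) h
  rw [← h1, ht, map_zero, zero_apply]

/-- **independent directions at a multiple eigenvalue** -/
theorem dir_ne [CompleteSpace H] [Nonempty M] (hS : Sf μ i a) (hB : IsB μ i b)
    (hmp : ∀ j, m ≤ j → ∀ φ, 0 < Ev a (b φ) j) (hmq : m ≤ q) (hrich : Rich μ i a b r d)
    {hs : ℕ → C(M, ℝ)} (hsd : Dense (Submodule.span ℝ (range hs) : Set C(M, ℝ))) (φ : C(M, ℝ))
    (u : ℕ → H) (hu : Tp a b (q + r) φ u) (heq : Ev a (b φ) q = Ev a (b φ) (q + r + 1)) :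
    ∃ n : Fin d → ℕ, ∀ z : EuclideanSpace ℝ (Fin d), ‖z‖ = 1 →
      ∃ x ∈ US r, 0 < xs (kf b (sp (fun j => hs (n j)) z * ex φ)) (fun j => Ev a (b φ) j) u q x := by
  obtain ⟨hF, hcmp, -⟩ := forms μ i a b hS hB
  obtain ⟨hnn, hmono, -, -, -⟩ := tLip M μ H a b hF hcmp
  obtain ⟨E, hE⟩ : ∃ E, E = Ev a (b φ) q := ⟨_, rfl⟩
  have hE0 : 0 < E := by rw [hE]; exact hmp q hmq φ
  have hEj : ∀ j : Fin (r + 2), Ev a (b φ) (q + (j : ℕ)) = E := by
    intro j
    rw [hE]
    refine le_antisymm ?_ (hmono φ _ _ (by omega))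
    rw [heq]
    exact hmono φ _ _ (by have := j.2; omega)
  obtain ⟨v, hv⟩ : ∃ v : Fin (r + 2) → H,
      v = fun j : Fin (r + 2) => nv (fun j => Ev a (b φ) j) u (q + (j : ℕ)) := ⟨_, rfl⟩
  have hvlin : LinearIndependent ℝ v := by
    rw [hv]
    exact nv_lin hu hmp hmq
  have hveig : ∀ j w, a (v j) w = E * b φ (v j) w := by
    intro j w
    rw [hv]
    simp only [nv, map_smul, smul_apply, smul_eq_mul]
    rw [hu.eig _ (by have := j.2; omega), hEj]
    ring
  obtain ⟨T, hT⟩ : ∃ T : C(M, ℝ) → Ix r → ℝ, T = fun h p => kf b (h * ex φ) (v p.1) (v p.2) :=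
    ⟨_, rfl⟩
  -- the annihilator
  have hann : ∀ f ∈ (Submodule.span ℝ (range fun k => T (hs k))).dualAnnihilator, ∀ᵐ x ∂μ,
      f (fun p => (i (v p.1) : M → ℝ) x * (i (v p.2) : M → ℝ) x) = 0 := by
    intro f hf
    have hf1 : ∀ k, f (T (hs k)) = 0 := fun k =>
      (Submodule.mem_dualAnnihilator f).1 hf _ (Submodule.subset_span ⟨k, rfl⟩)
    have hfs : ∀ w : Ix r → ℝ, f w = ∑ p, w p * f (Pi.single p 1) := by
      intro w
      rw [LinearMap.pi_apply_eq_sum_univ]
      refine Finset.sum_congr rfl fun p _ => ?_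
      rw [smul_eq_mul]
      congr 2
      funext l
      rw [Pi.single_apply]
      by_cases hpl : p = l
      · rw [if_pos hpl, if_pos hpl.symm]
      · rw [if_neg hpl, if_neg (Ne.symm hpl)]
    have hint : Integrable (fun x => Real.exp (φ x) *
        f (fun p => (i (v p.1) : M → ℝ) x * (i (v p.2) : M → ℝ) x)) μ := by
      have h1 : (fun x => Real.exp (φ x) *
          f (fun p => (i (v p.1) : M → ℝ) x * (i (v p.2) : M → ℝ) x)) = fun x => ∑ p : Ix r,
          (Real.exp (φ x) * ((i (v p.1) : M → ℝ) x * (i (v p.2) : M → ℝ) x)) *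
            f (Pi.single p 1) := by
        funext x
        rw [hfs, Finset.mul_sum]
        refine Finset.sum_congr rfl fun p _ => ?_
        ring
      rw [h1]
      exact integrable_finsetSum _ fun p _ => (od_integrable φ (v p.1) (v p.2)).mul_const _
    have h1 := RSP.zero_of_total μ hint (range hs) hsd (by
      rintro _ ⟨k, rfl⟩
      rw [← hf1 k, hfs]
      have h2 : ∀ p : Ix r, T (hs k) p = ∫ x, hs k x * (Real.exp (φ x) *
          ((i (v p.1) : M → ℝ) x * (i (v p.2) : M → ℝ) x)) ∂μ := by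
        intro p
        rw [hT]
        simp only
        rw [kf_apply hB]
        refine integral_congr_ae (Eventually.of_forall fun x => ?_)
        simp only [Pool.Agent.Q233.GLV.ex, ContinuousMap.mul_apply, ContinuousMap.coe_mk]
        ring
      simp only [h2, ← integral_mul_const]
      rw [← integral_finsetSum _ fun p _ => ?_]
      · refine integral_congr_ae (Eventually.of_forall fun x => ?_)
        simp only
        rw [hfs, Finset.mul_sum, Finset.mul_sum]
        refine Finset.sum_congr rfl fun p _ => ?_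
        ring
      · refine Integrable.mul_const ?_ _
        have h3 := kf_int (i := i) (hs k * ex φ) (v p.1) (v p.2)
        refine h3.congr (Eventually.of_forall fun x => ?_)
        simp only [Pool.Agent.Q233.GLV.ex, ContinuousMap.mul_apply, ContinuousMap.coe_mk]
        ring)
    filter_upwards [h1] with x hx
    exact (mul_eq_zero.1 hx).resolve_left (Real.exp_pos _).ne'
  have hdim : d + 1 ≤ Module.finrank ℝ (Submodule.span ℝ (range fun k => T (hs k))) := by
    have h1 := hrich φ E v hE0 hvlin hveig _ hann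
    have h2 := Subspace.finrank_add_finrank_dualAnnihilator_eq
      (Submodule.span ℝ (range fun k => T (hs k)))
    rw [Module.finrank_pi, Fintype.card_prod, Fintype.card_fin] at h2
    rw [sq] at h1
    omega
  obtain ⟨n, hn⟩ := choose_dir (fun k => T (hs k)) (fun p : Ix r => if p.1 = p.2 then (1 : ℝ) else 0)
    hdim
  refine ⟨n, fun z hz => ?_⟩
  by_contra hcon
  push Not at hcon
  obtain ⟨t, ht⟩ := scal (fun j l => kf b (sp (fun j => hs (n j)) z * ex φ) (v j) (v l))
    (fun j l => kf_symm hB _ _ _) (fun x hx => by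
      have h1 := hcon x hx
      unfold xs at h1
      rw [cv_form] at h1
      rw [hv]
      linarith)
  refine hn (fun j => z j) (fun h0 => ?_) t ?_
  · have h1 : z = 0 := by
      ext j
      exact congrFun h0 j
    rw [h1, norm_zero] at hz
    exact zero_ne_one hz
  · funext p
    rw [Finset.sum_apply]
    have h1 := ht p.1 p.2
    rw [kf_sp hB] at h1
    simp only [Pi.smul_apply, smul_eq_mul]
    rw [hT]
    simp only
    rw [h1]
    split_ifs <;> ring

end Pool.Agent.H23.CL
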