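import Pool.Agent.H23.CL.Gap
import Pool.Agent.H23.CL.Comb
import Pool.Agent.H23.UC.Stm8

/-!
# Clusters of levels: the products of eigenfunctions on a surface
-/

set_option autoImplicit false
set_option linter.unusedSectionVars false

open Set Filter Topology MeasureTheory
open scoped ContDiff ENNReal
open Pool.Agent.Y262.QE Pool.Agent.Y264.QR Q101.QG
open Pool.Agent.Q233 Pool.Agent.Q233.GLV

noncomputable section

namespace Pool.Agent.H23.CL

open Pool.Agent.H23.LR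

/-- the weak equation for another representative -/
lemma weak_congr' {O : Set ℂ} (hO : IsOpen O) {U U' : ℂ → ℝ} {g : ℂ → ℂ} {w w' : ℂ → ℝ}
    (hw : UC.Weak O U g w) (hU : ∀ᵐ z ∂(volume.restrict O), U z = U' z)
    (hww : ∀ᵐ z ∂(volume.restrict O), w z = w' z) : UC.Weak O U' g w' := by
  have hint : ∀ {F G : ℂ → ℝ}, (∀ᵐ z ∂(volume.restrict O), F z = G z) → (∀ z ∉ O, F z = 0) →
      (∀ z ∉ O, G z = 0) → ∫ z, F z = ∫ z, G z := by
    intro F G h h0 h1
    refine integral_congr_ae ?_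
    filter_upwards [(ae_restrict_iff' hO.measurableSet).1 h] with z hz
    by_cases hzO : z ∈ O
    · exact hz hzO
    · rw [h0 z hzO, h1 z hzO]
  refine ⟨fun K hK hc => (hw.mU K hK hc).ae_eq (ae_mono (Measure.restrict_mono hK le_rfl) hU),
    hw.mg, fun K hK hc => (hw.mw K hK hc).ae_eq (ae_mono (Measure.restrict_mono hK le_rfl) hww),
    ?_, ?_⟩
  · intro η h1 h2 h3 v
    rw [← hw.grad η h1 h2 h3 v]
    refine hint ?_ (fun z hz => ?_) (fun z hz => ?_)
    · filter_upwards [hU] with z hz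
      rw [hz]
    · rw [fderiv_off (fun h => hz (h3 h)), mul_zero]
    · rw [fderiv_off (fun h => hz (h3 h)), mul_zero]
  · intro η h1 h2 h3
    rw [hw.lap η h1 h2 h3]
    have h4 : ∀ z ∉ O, η z = 0 := fun z hz => image_eq_zero_of_notMem_tsupport fun h => hz (h3 h)
    refine hint ?_ (fun z hz => ?_) (fun z hz => ?_)
    · filter_upwards [hww] with z hz
      rw [hz]
    · rw [h4 z hz, mul_zero]
    · rw [h4 z hz, mul_zero]

variable {M : Type} [MetricSpace M] [CompactSpace M] [MeasurableSpace M] [BorelSpace M]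
  {μ : Measure M} {D : Data M} [IsFiniteMeasure μ]

/-- an eigenvector which vanishes on an open set of a chart is zero -/
lemma ev_chart (hucp : UC.StUCP) [ConnectedSpace M]
    (S : D.IsSurf μ) (hiso : ∀ p, ∀ z ∈ D.T p, ∃ c : ℝ, ∀ v, ‖D.A p z v‖ = c * ‖v‖)
    {i : HF D μ →L[ℝ] Lp ℝ 2 μ} {a : HF D μ →L[ℝ] HF D μ →L[ℝ] ℝ}
    {b : C(M, ℝ) → HF D μ →L[ℝ] HF D μ →L[ℝ] ℝ} (hS : Sf μ i a)
    (hi : ∀ v, i v = v.1.fst) (ha : ∀ u v, a u v = inner ℝ u.1.snd v.1.snd) (hB : IsB μ i b)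
    {φ : C(M, ℝ)} {E : ℝ} {w : HF D μ} (hw : ∀ w', a w w' = E * b φ w w') {p : Fin D.N}
    {B : Set ℂ} (hBo : IsOpen B) (hBT : B ⊆ D.T p) (hBne : B.Nonempty)
    (h0 : ∀ᵐ z ∂(volume.restrict (D.T p)), z ∈ B → (i w : M → ℝ) (D.ψ p z) = 0) : w = 0 := by
  have hO₂o : IsOpen (D.U p ∩ D.φ p ⁻¹' B) :=
    (S.contφ p).isOpen_inter_preimage (S.openU p) hBo
  have hz : ∀ᵐ x ∂μ, (i w : M → ℝ) x = 0 := by
    refine uc_open hucp S hiso hi ha hB hw hO₂o ?_ ?_
    · obtain ⟨z, hz⟩ := hBne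
      obtain ⟨hU, hφ⟩ := Pool.Agent.Y183.QR.Loc.φψ S (hBT hz)
      refine ⟨D.ψ p z, hU, ?_⟩
      rw [mem_preimage, hφ]
      exact hz
    · have h5 : ∀ᵐ z ∂(volume.restrict (D.T p)),
          (fun x => x ∈ D.U p ∩ D.φ p ⁻¹' B → (i w : M → ℝ) x = 0) (D.ψ p z) := by
        filter_upwards [h0, ae_restrict_mem (S.openT p).measurableSet] with z h4 hzT h5
        have h6 := h5.2
        rw [mem_preimage, (Pool.Agent.Y183.QR.Loc.φψ S hzT).2] at h6
        exact h4 h6
      filter_upwards [ae_chart' S p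
        (P := fun x => x ∈ D.U p ∩ D.φ p ⁻¹' B → (i w : M → ℝ) x = 0) h5] with y hy hyO
      exact hy hyO.1 hyO
  have h4 : i w = 0 := by
    rw [Lp.ext_iff]
    filter_upwards [hz, Lp.coeFn_zero ℝ 2 μ] with x hx hx0
    rw [hx, hx0]
    rfl
  have h6 := hS.nm w
  have h7 : b φ w w = 0 := by
    rw [hB]
    refine integral_eq_zero_of_ae ?_
    filter_upwards [hz] with x hx
    rw [hx]
    simp
  rw [hw, h7, h4, norm_zero] at h6
  have h8 : ‖w‖ ^ 2 = 0 := by rw [h6]; ring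
  exact norm_eq_zero.1 (pow_eq_zero_iff (two_ne_zero) |>.1 h8)

lemma i_sum {i : HF D μ →L[ℝ] Lp ℝ 2 μ} {m : ℕ} (t : Fin m → ℝ) (v : Fin m → HF D μ) :
    ∀ᵐ x ∂μ, (i (∑ k, t k • v k) : M → ℝ) x = ∑ k, t k * (i (v k) : M → ℝ) x := by
  have h3 : i (∑ k, t k • v k) = ∑ k, t k • i (v k) := by
    rw [map_sum]
    refine Finset.sum_congr rfl fun k _ => ?_
    rw [map_smul]
  rw [h3]
  have h4 : ∀ s : Finset (Fin m), ∀ᵐ x ∂μ,
      ((∑ k ∈ s, t k • i (v k) : Lp ℝ 2 μ) : M → ℝ) x = ∑ k ∈ s, t k * (i (v k) : M → ℝ) x := by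
    intro s
    classical
    induction s using Finset.induction_on with
    | empty =>
      rw [Finset.sum_empty]
      filter_upwards [Lp.coeFn_zero ℝ 2 μ] with x hx
      rw [hx, Finset.sum_empty]
      rfl
    | insert k s hk ih =>
      rw [Finset.sum_insert hk]
      filter_upwards [ih, Lp.coeFn_add (t k • i (v k)) (∑ k ∈ s, t k • i (v k)),
        Lp.coeFn_smul (t k) (i (v k))] with x h5 h6 h7
      rw [h6, Pi.add_apply, h5, h7, Pi.smul_apply, smul_eq_mul, Finset.sum_insert hk]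
  exact h4 Finset.univ

lemma fun_split {m : ℕ} (f : Module.Dual ℝ (Fin m × Fin m → ℝ)) (w : Fin m × Fin m → ℝ) :
    f w = ∑ i, ∑ j, f (Pi.single (i, j) 1) * w (i, j) := by
  rw [LinearMap.pi_apply_eq_sum_univ, Fintype.sum_prod_type]
  refine Finset.sum_congr rfl fun i _ => Finset.sum_congr rfl fun j _ => ?_
  rw [smul_eq_mul, mul_comm]
  congr 2
  funext l
  rw [Pi.single_apply]
  by_cases hpl : (i, j) = l
  · rw [if_pos hpl, if_pos hpl.symm]
  · rw [if_neg hpl, if_neg (Ne.symm hpl)]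

/-- **the products of `r + 2` eigenvectors span a space of dimension at least `3 r + 3`** -/
theorem rich_pts (hcont : UC.StCont) (hucp : UC.StUCP) (hrank : UC.StRank) (hrel : UC.StRel)
    (hpts : UC.StPts) [ConnectedSpace M]
    (S : D.IsSurf μ) (hiso : ∀ p, ∀ z ∈ D.T p, ∃ c : ℝ, ∀ v, ‖D.A p z v‖ = c * ‖v‖)
    {i : HF D μ →L[ℝ] Lp ℝ 2 μ} {a : HF D μ →L[ℝ] HF D μ →L[ℝ] ℝ}
    {b : C(M, ℝ) → HF D μ →L[ℝ] HF D μ →L[ℝ] ℝ} (hS : Sf μ i a)
    (hi : ∀ v, i v = v.1.fst) (ha : ∀ u v, a u v = inner ℝ u.1.snd v.1.snd) (hB : IsB μ i b)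
    (r : ℕ) : Rich μ i a b r (3 * r + 2) := by
  intro φ E v hE0 hvlin hveig A hA
  obtain ⟨x₀⟩ : Nonempty M := inferInstance
  obtain ⟨p, hp⟩ := S.cover x₀
  have hTne : (D.T p).Nonempty := ⟨D.φ p x₀, mem_image_of_mem _ hp⟩
  obtain ⟨ρ, hρ⟩ : ∃ ρ : ℂ → ℝ, ρ = fun z => E * (Real.exp (φ (D.ψ p z)) * |(D.A p z).det|) :=
    ⟨_, rfl⟩
  have hρc : ContinuousOn ρ (D.T p) := by
    rw [hρ]
    exact continuousOn_const.mul ((Real.continuous_exp.comp_continuousOn
      (φ.continuous.comp_continuousOn (S.contψ p))).mul (Pool.Agent.Y960.QE.contDet S p))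
  have hrep : ∀ {w : HF D μ}, (∀ w', a w w' = E * b φ w w') → ∃ (U' : ℂ → ℝ) (g : ℂ → ℂ),
      ContinuousOn U' (D.T p) ∧
      (∀ᵐ z ∂(volume.restrict (D.T p)), (i w : M → ℝ) (D.ψ p z) = U' z) ∧
      UC.Weak (D.T p) U' g (fun z => ρ z * U' z) := by
    intro w hw
    obtain ⟨g, hg⟩ := weak_of_ev S hi ha hB (hiso p) hw
    obtain ⟨U', hU'c, hU'⟩ := hcont _ _ _ _ (S.openT p) hg
    refine ⟨U', g, hU'c, hU', weak_congr' (S.openT p) hg hU' ?_⟩
    filter_upwards [hU'] with z hz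
    rw [hρ, ← hz]
  choose U g hUc hUe hUw using fun j => hrep (hveig j)
  -- the combinations
  have hev : ∀ (t : Fin (r + 2) → ℝ), ∀ w', a (∑ k, t k • v k) w' = E * b φ (∑ k, t k • v k) w' := by
    intro t w'
    rw [sum_form, sum_form, Finset.mul_sum]
    refine Finset.sum_congr rfl fun k _ => ?_
    rw [hveig]
    ring
  have hval : ∀ t : Fin (r + 2) → ℝ, ∀ᵐ z ∂(volume.restrict (D.T p)),
      (i (∑ k, t k • v k) : M → ℝ) (D.ψ p z) = ∑ k, t k * U k z := by
    intro t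
    have h1 := ae_chart S p (i_sum (i := i) t v)
    filter_upwards [h1, ae_all_iff.2 hUe] with z h2 h3
    rw [h2]
    exact Finset.sum_congr rfl fun k _ => by rw [h3]
  have hopen : ∀ t : Fin (r + 2) → ℝ, ∀ B ⊆ D.T p, IsOpen B → B.Nonempty →
      (∀ z ∈ B, ∑ k, t k * U k z = 0) → t = 0 := by
    intro t B hBT hBo hBne h0
    have h1 : ∑ k, t k • v k = 0 := by
      refine ev_chart hucp S hiso hS hi ha hB (hev t) hBo hBT hBne ?_
      filter_upwards [hval t] with z hz hzB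
      rw [hz, h0 z hzB]
    funext k
    exact Fintype.linearIndependent_iff.1 hvlin t h1 k
  have hwt : ∀ t : Fin (r + 2) → ℝ, UC.Weak (D.T p) (fun z => ∑ k, t k * U k z)
      (fun z => ∑ k, ((t k : ℝ) : ℂ) * g k z) (fun z => ρ z * ∑ k, t k * U k z) := by
    intro t
    have h1 := weak_comb hUw t
    have h2 : (fun z => ∑ k, t k * (ρ z * U k z)) = fun z => ρ z * ∑ k, t k * U k z := by
      funext z
      rw [Finset.mul_sum]
      exact Finset.sum_congr rfl fun k _ => by ring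
    rw [h2] at h1
    exact h1
  have hct : ∀ t : Fin (r + 2) → ℝ, ContinuousOn (fun z => ∑ k, t k * U k z) (D.T p) := fun t =>
    continuousOn_finsetSum _ fun k _ => continuousOn_const.mul (hUc k)
  have hmain := hpts (r + 2) (D.T p) U g (by omega) (S.openT p) hTne hUc ?_ ?_ A ?_
  · have h1 : 3 * (r + 2 - 1) = 3 * r + 2 + 1 := by omega
    rw [h1] at hmain
    exact hmain
  · intro t ht B hBT hBo hBne
    by_contra hcon
    push Not at hcon
    exact ht (hopen t B hBT hBo hBne hcon)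
  · intro t₁ t₂ t₃ hlin B hBT hBo hBne hdet
    obtain ⟨α, β, γ, B', hne, hB'o, hB'ne, hB'B, h0⟩ := hrank B _ _ _ _ _ _ ρ hBo hBne
      ((hct t₁).mono hBT) ((hct t₂).mono hBT) ((hct t₃).mono hBT) (hρc.mono hBT)
      (weak_mono hBT (hwt t₁)) (weak_mono hBT (hwt t₂)) (weak_mono hBT (hwt t₃)) hdet
    have h1 := hopen (fun k => α * t₁ k + β * t₂ k + γ * t₃ k) B' (hB'B.trans hBT) hB'o hB'ne
      (fun z hz => by
        rw [← h0 z hz, Finset.mul_sum, Finset.mul_sum, Finset.mul_sum, ← Finset.sum_add_distrib,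
          ← Finset.sum_add_distrib]
        exact Finset.sum_congr rfl fun k _ => by ring)
    have h2 := Fintype.linearIndependent_iff.1 hlin ![α, β, γ] (by
      rw [Fin.sum_univ_three]
      funext k
      have := congrFun h1 k
      simpa using this)
    have e0 := h2 0
    have e1 := h2 1
    have e2 := h2 2
    simp at e0 e1 e2
    rcases hne with h | h | h
    · exact h e0
    · exact h e1
    · exact h e2
  · intro f hf
    obtain ⟨q, hq⟩ : ∃ q : Fin (r + 2) → Fin (r + 2) → ℝ, q = fun k l => f (Pi.single (k, l) 1) :=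
      ⟨_, rfl⟩
    have hfs : ∀ w : Fin (r + 2) × Fin (r + 2) → ℝ, f w = ∑ k, ∑ l, q k l * w (k, l) := by
      intro w
      rw [fun_split, hq]
    have h1 : ∀ᵐ z ∂(volume.restrict (D.T p)), ∑ k, ∑ l, q k l * (U k z * U l z) = 0 := by
      filter_upwards [ae_chart S p (hA f hf), ae_all_iff.2 hUe] with z h2 h3
      rw [hfs] at h2
      simp only [h3] at h2
      exact h2
    have h2 : ∀ z ∈ D.T p, ∑ k, ∑ l, q k l * (U k z * U l z) = 0 := by
      have h3 : (fun z => ∑ k, ∑ l, q k l * (U k z * U l z)) =ᵐ[volume.restrict (D.T p)]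
          fun _ => (0 : ℝ) := h1
      exact fun z hz => Measure.eqOn_open_of_ae_eq h3 (S.openT p)
        (continuousOn_finsetSum _ fun k _ => continuousOn_finsetSum _ fun l _ =>
          continuousOn_const.mul ((hUc k).mul (hUc l))) continuousOn_const hz
    have h4 := hrel (r + 2) (D.T p) U g _ q (S.openT p) hUc hUw h2
    filter_upwards [h1, h4] with z h5 h6
    refine ⟨by rw [hfs]; exact h5, ?_, ?_⟩
    · have h7 := congrArg Complex.re h6
      rw [hfs, ← Complex.zero_re, ← h7]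
      simp only [Complex.re_sum]
      refine Finset.sum_congr rfl fun k _ => Finset.sum_congr rfl fun l _ => ?_
      simp
      left
      ring
    · have h7 := congrArg Complex.im h6
      rw [hfs, ← Complex.zero_im, ← h7]
      simp only [Complex.im_sum]
      refine Finset.sum_congr rfl fun k _ => Finset.sum_congr rfl fun l _ => ?_
      simp
      left
      ring

end Pool.Agent.H23.CL
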