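import Pool.Agent.H23.CL.Loc
import Pool.Agent.H23.CL.Pts
import Pool.Agent.H23.UC.Stm7

/-!
# Clusters of levels: metrics whose eigenfunctions have independent products
-/

set_option autoImplicit false
set_option linter.unusedSectionVars false

open Set Filter Topology MeasureTheory
open scoped ENNReal
open Pool.Agent.Y262.QE Pool.Agent.Y264.QR Q101.QG
open Pool.Agent.Q233 Pool.Agent.Q233.GLV

noncomputable section

namespace Pool.Agent.H23.CL

open Pool.Agent.H23.LR

variable {M : Type} [MetricSpace M] [CompactSpace M] [MeasurableSpace M] [BorelSpace M]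
  {μ : Measure M} {D : Data M}

/-- the products of any `n + 1` independent eigenfunctions of one positive eigenvalue are
independent -/
def Arn (D : Data M) (μ : Measure M) (n : ℕ) (φ : C(M, ℝ)) : Prop :=
  ∀ (E : ℝ) (v : Fin (n + 1) → M → ℝ), 0 < E →
    (∀ j, (D.conf fun x => Real.exp (φ x)).IsEig (wm μ fun x => Real.exp (φ x)) E (v j)) →
    (∀ t : Fin (n + 1) → ℝ, (∀ᵐ x ∂μ, ∑ j, t j * v j x = 0) → t = 0) →
    ∀ c : Fin (n + 1) → Fin (n + 1) → ℝ, (∀ i j, c i j = c j i) →
      (∀ᵐ x ∂μ, ∑ i, ∑ j, c i j * (v i x * v j x) = 0) → c = 0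

theorem arn_rich (halt : UC.StAlt) [Nonempty M] (hD : D.IsSurf μ) {K : Set C(M, ℝ)} {r : ℕ}
    (h : ∀ φ ∈ K, Arn D μ (r + 1) φ) : RichOn μ D r ((r + 1) * (r + 1 + 3) / 2) K := by
  intro hf i a b hS hi ha hB φ hφ E v hE0 hvlin hveig A hA
  have key : ∀ f ∈ A, ∀ y : Fin (r + 2) → ℝ, f (fun p => y p.1 * y p.2) = 0 := by
    intro f hfA
    have hEig : ∀ j, (D.conf fun x => Real.exp (φ x)).IsEig (wm μ fun x => Real.exp (φ x)) E
        (i (v j) : M → ℝ) := by
      intro j
      have h1 := eigF tGr tFin tConf tDenF M μ D hD (fun x => Real.exp (φ x))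
        (Real.continuous_exp.comp φ.continuous) (fun x => Real.exp_pos _) E (v j).1 (v j).2
        (fun v' hv' => by
          have h2 := hveig j ⟨v', hv'⟩
          rw [ha, hB, hi, hi] at h2
          exact h2)
      rw [hi]
      exact h1
    have hind : ∀ t : Fin (r + 1 + 1) → ℝ, (∀ᵐ x ∂μ, ∑ j, t j * (i (v j) : M → ℝ) x = 0) →
        t = 0 := by
      intro t ht
      have hw : ∀ w', a (∑ k, t k • v k) w' = E * b φ (∑ k, t k • v k) w' := by
        intro w'
        rw [sum_form, sum_form, Finset.mul_sum]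
        refine Finset.sum_congr rfl fun k _ => ?_
        rw [hveig]
        ring
      have hz : ∀ᵐ x ∂μ, (i (∑ k, t k • v k) : M → ℝ) x = 0 := by
        filter_upwards [i_sum (i := i) t v, ht] with x h1 h2
        rw [h1, h2]
      have h4 : i (∑ k, t k • v k) = 0 := by
        rw [Lp.ext_iff]
        filter_upwards [hz, Lp.coeFn_zero ℝ 2 μ] with x hx hx0
        rw [hx, hx0]
        rfl
      have h6 := hS.nm (∑ k, t k • v k)
      have h7 : b φ (∑ k, t k • v k) (∑ k, t k • v k) = 0 := by
        rw [hB]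
        refine integral_eq_zero_of_ae ?_
        filter_upwards [hz] with x hx
        rw [hx]
        simp
      rw [hw, h7, h4, norm_zero] at h6
      have h8 : ‖∑ k, t k • v k‖ ^ 2 = 0 := by rw [h6]; ring
      have h9 := norm_eq_zero.1 (pow_eq_zero_iff (two_ne_zero) |>.1 h8)
      funext k
      exact Fintype.linearIndependent_iff.1 hvlin t h9 k
    have h1 := h φ hφ E (fun j => (i (v j) : M → ℝ)) hE0 hEig hind
      (fun k l => (f (Pi.single (k, l) 1) + f (Pi.single (l, k) 1)) / 2)
      (fun k l => by rw [add_comm])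
    have hsum : ∀ y : Fin (r + 2) → ℝ, ∑ k, ∑ l, (f (Pi.single (k, l) 1) +
        f (Pi.single (l, k) 1)) / 2 * (y k * y l) = f (fun p => y p.1 * y p.2) := by
      intro y
      rw [fun_split]
      have e1 : ∑ k, ∑ l, (f (Pi.single (k, l) 1) + f (Pi.single (l, k) 1)) / 2 * (y k * y l) =
          (∑ k, ∑ l, f (Pi.single (k, l) 1) * (y k * y l)) / 2 +
          (∑ k, ∑ l, f (Pi.single (l, k) 1) * (y k * y l)) / 2 := by
        rw [Finset.sum_div, Finset.sum_div, ← Finset.sum_add_distrib]
        refine Finset.sum_congr rfl fun k _ => ?_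
        rw [Finset.sum_div, Finset.sum_div, ← Finset.sum_add_distrib]
        refine Finset.sum_congr rfl fun l _ => ?_
        ring
      have e2 : ∑ k, ∑ l, f (Pi.single (l, k) 1) * (y k * y l) =
          ∑ k, ∑ l, f (Pi.single (k, l) 1) * (y k * y l) := by
        rw [Finset.sum_comm]
        refine Finset.sum_congr rfl fun k _ => Finset.sum_congr rfl fun l _ => ?_
        ring
      rw [e1, e2]
      ring
    have h2 := h1 (by
      filter_upwards [hA f hfA] with x hx
      exact (hsum fun k => (i (v k) : M → ℝ) x).trans hx)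
    intro y
    rw [← hsum]
    refine Finset.sum_eq_zero fun k _ => Finset.sum_eq_zero fun l _ => ?_
    have h3 := congrFun (congrFun h2 k) l
    simp only [Pi.zero_apply] at h3
    rw [h3, zero_mul]
  have h1 := halt (r + 2) A key
  have h2 : 2 * ((r + 1) * (r + 1 + 3) / 2) ≤ (r + 1) * (r + 1 + 3) := Nat.mul_div_le _ _
  have h3 : (r + 2) * (r + 2 + 1) = (r + 1) * (r + 1 + 3) + 2 := by ring
  rw [h3] at h1
  have aux : ∀ F X Y : ℕ, 2 * F + (X + 2) ≤ 2 * Y → 2 * (X / 2) ≤ X → F + (X / 2 + 1) ≤ Y := by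
    intro F X Y h4 h5
    omega
  exact aux _ _ _ h1 h2

end Pool.Agent.H23.CL
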