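import Pool.Agent.H23.CL.Alg
import Pool.Agent.H23.LR.Top

/-!
# Clusters of levels: eigenfunctions in a chart
-/

set_option autoImplicit false
set_option linter.unusedSectionVars false

open Set Filter Topology MeasureTheory
open scoped ContDiff ENNReal
open Pool.Agent.Y262.QE Pool.Agent.Y264.QR Q101.QG
open Pool.Agent.Q233 Pool.Agent.Q233.GLV

noncomputable section

namespace Pool.Agent.H23.CL

open Pool.Agent.H23.LR

variable {M : Type} [MetricSpace M] [CompactSpace M] [MeasurableSpace M] [BorelSpace M]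
  {μ : Measure M} {D : Data M}

/-- **unique continuation from an open set** -/
theorem uc_open (hucp : UC.StUCP) [IsFiniteMeasure μ] [ConnectedSpace M]
    (S : D.IsSurf μ)
    (hiso : ∀ p, ∀ z ∈ D.T p, ∃ c : ℝ, ∀ v, ‖D.A p z v‖ = c * ‖v‖)
    {i : HF D μ →L[ℝ] Lp ℝ 2 μ} {a : HF D μ →L[ℝ] HF D μ →L[ℝ] ℝ}
    {b : C(M, ℝ) → HF D μ →L[ℝ] HF D μ →L[ℝ] ℝ}
    (hi : ∀ v, i v = v.1.fst) (ha : ∀ u v, a u v = inner ℝ u.1.snd v.1.snd) (hB : IsB μ i b)
    {φ : C(M, ℝ)} {E' : ℝ} {v' : HF D μ} (hv' : ∀ w, a v' w = E' * b φ v' w) {O' : Set M}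
    (hO' : IsOpen O') (hne' : O'.Nonempty) (h0' : ∀ᵐ x ∂μ, x ∈ O' → (i v' : M → ℝ) x = 0) :
    ∀ᵐ x ∂μ, (i v' : M → ℝ) x = 0 := by
  have hclosed : ∀ {v : HF D μ} {E : ℝ}, (∀ w, a v w = E * b φ v w) →
      IsClosed (Zr μ (i v : M → ℝ)) := by
    intro v E hv
    rw [← closure_subset_iff_isClosed]
    intro x hx
    obtain ⟨p, hp⟩ := S.cover x
    have hT : D.φ p x ∈ D.T p := mem_image_of_mem _ hp
    obtain ⟨g, hg⟩ := weak_of_ev S hi ha hB (hiso p) hv
    obtain ⟨r, hr, hrT⟩ := Metric.isOpen_iff.1 (S.openT p) _ hT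
    obtain ⟨B, hB'⟩ : ∃ B, B = Metric.ball (D.φ p x) (r / 2) := ⟨_, rfl⟩
    have hBc : Metric.closedBall (D.φ p x) (r / 2) ⊆ D.T p :=
      (Metric.closedBall_subset_ball (by linarith)).trans hrT
    have hBT : B ⊆ D.T p := by rw [hB']; exact Metric.ball_subset_closedBall.trans hBc
    have hBo : IsOpen B := by rw [hB']; exact Metric.isOpen_ball
    have hwc : ContinuousOn (fun z => E * (Real.exp (φ (D.ψ p z)) * |(D.A p z).det|)) (D.T p) :=
      continuousOn_const.mul ((Real.continuous_exp.comp_continuousOn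
        (φ.continuous.comp_continuousOn (S.contψ p))).mul (Pool.Agent.Y960.QE.contDet S p))
    obtain ⟨C, hC⟩ := (isCompact_closedBall (D.φ p x) (r / 2)).exists_bound_of_continuousOn
      (hwc.mono hBc)
    -- the image of the ball
    obtain ⟨O, hO⟩ : ∃ O : Set M, O = D.U p ∩ D.φ p ⁻¹' B := ⟨_, rfl⟩
    have hOo : IsOpen O := by
      rw [hO]
      exact (S.contφ p).isOpen_inter_preimage (S.openU p) hBo
    have hxO : x ∈ O := by
      rw [hO]
      refine ⟨hp, ?_⟩
      rw [mem_preimage, hB']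
      exact Metric.mem_ball_self (by linarith)
    obtain ⟨y, hyO, O₁, hO₁, hyO₁, hae⟩ := mem_closure_iff.1 hx O hOo hxO
    obtain ⟨O', hO'⟩ : ∃ O' : Set ℂ, O' = B ∩ D.ψ p ⁻¹' O₁ := ⟨_, rfl⟩
    have hO'o : IsOpen O' := by
      rw [hO']
      exact ((S.contψ p).mono hBT).isOpen_inter_preimage hBo hO₁
    rw [hO] at hyO
    have hne : O'.Nonempty := by
      refine ⟨D.φ p y, ?_⟩
      rw [hO']
      refine ⟨hyO.2, ?_⟩
      rw [mem_preimage, S.left p y hyO.1]
      exact hyO₁
    have hsub : O' ⊆ B := by rw [hO']; exact inter_subset_left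
    have h1 := ae_chart S p hae
    have h2 : ∀ᵐ z ∂(volume.restrict O'), (i v : M → ℝ) (D.ψ p z) = 0 := by
      have h3 := ae_mono (Measure.restrict_mono (hsub.trans hBT) le_rfl) h1
      filter_upwards [h3, ae_restrict_mem hO'o.measurableSet] with z hz hzO
      rw [hO'] at hzO
      exact hz hzO.2
    have h3 := hucp B (fun z => (i v : M → ℝ) (D.ψ p z)) g
      (fun z => E * (Real.exp (φ (D.ψ p z)) * |(D.A p z).det|) * (i v : M → ℝ) (D.ψ p z)) C hBo
      (by rw [hB']; exact (convex_ball _ _).isPreconnected) (weak_mono hBT hg) (by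
        refine (ae_restrict_iff' hBo.measurableSet).2 (Eventually.of_forall fun z hz => ?_)
        rw [abs_mul]
        refine mul_le_mul_of_nonneg_right ?_ (abs_nonneg _)
        rw [hB'] at hz
        exact hC z (Metric.ball_subset_closedBall hz)) O' hO'o hne hsub h2
    refine ⟨O, hOo, hxO, ?_⟩
    have h4 : ∀ᵐ z ∂(volume.restrict (D.T p)), (fun x => x ∈ O → (i v : M → ℝ) x = 0)
        (D.ψ p z) := by
      have h5 := (ae_restrict_iff' hBo.measurableSet).1 h3
      have h6 := ae_restrict_of_ae (s := D.T p) h5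
      filter_upwards [h6, ae_restrict_mem (S.openT p).measurableSet] with z hz hzT hzO
      rw [hO] at hzO
      have h7 := hzO.2
      rw [mem_preimage, (Pool.Agent.Y183.QR.Loc.φψ S hzT).2] at h7
      exact hz h7
    filter_upwards [ae_chart' S p (P := fun x => x ∈ O → (i v : M → ℝ) x = 0) h4] with y hy hyO
    rw [hO] at hyO
    exact hy hyO.1 (by rw [hO]; exact hyO)
  obtain ⟨x, hx⟩ := hne'
  refine zr_univ ?_
  exact IsClopen.eq_univ ⟨hclosed hv', zr_open _⟩ ⟨x, O', hO', hx, h0'⟩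

section rich

variable [IsFiniteMeasure μ] {r : ℕ}

/-- **the products of the eigenfunctions** -/
theorem rich_hopf (hcont : UC.StCont) (hucp : UC.StUCP) (hhopf : UC.StHopf) [ConnectedSpace M]
    (S : D.IsSurf μ) (hiso : ∀ p, ∀ z ∈ D.T p, ∃ c : ℝ, ∀ v, ‖D.A p z v‖ = c * ‖v‖)
    {i : HF D μ →L[ℝ] Lp ℝ 2 μ} {a : HF D μ →L[ℝ] HF D μ →L[ℝ] ℝ}
    {b : C(M, ℝ) → HF D μ →L[ℝ] HF D μ →L[ℝ] ℝ} (hS : Sf μ i a)
    (hi : ∀ v, i v = v.1.fst) (ha : ∀ u v, a u v = inner ℝ u.1.snd v.1.snd) (hB : IsB μ i b) :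
    Rich μ i a b r (2 * (r + 1)) := by
  intro φ E v hE0 hvlin hveig A hA
  obtain ⟨x₀⟩ : Nonempty M := inferInstance
  obtain ⟨p, hp⟩ := S.cover x₀
  have hW : ∀ j, ∃ U' : ℂ → ℝ, ContinuousOn U' (D.T p) ∧
      ∀ᵐ z ∂(volume.restrict (D.T p)), (i (v j) : M → ℝ) (D.ψ p z) = U' z := by
    intro j
    obtain ⟨g, hg⟩ := weak_of_ev S hi ha hB (hiso p) (hveig j)
    exact hcont _ _ _ _ (S.openT p) hg
  choose V hVc hVe using hW
  have hX : Nonempty (D.T p) := ⟨⟨D.φ p x₀, mem_image_of_mem _ hp⟩⟩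
  have h1 := hhopf (D.T p) (r + 1) (fun j z => V j z)
    (fun j => (hVc j).comp_continuous continuous_subtype_val fun z => z.2) (by
    intro t ht O hO hOne
    by_contra hcon
    push Not at hcon
    -- the corresponding eigenvector
    obtain ⟨w, hw⟩ : ∃ w, w = ∑ j, t j • v j := ⟨_, rfl⟩
    have hweig : ∀ w', a w w' = E * b φ w w' := by
      intro w'
      rw [hw, sum_form, sum_form, Finset.mul_sum]
      refine Finset.sum_congr rfl fun j _ => ?_
      rw [hveig]
      ring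
    have hwe : ∀ᵐ z ∂(volume.restrict (D.T p)), (i w : M → ℝ) (D.ψ p z) = ∑ j, t j * V j z := by
      have h2 : ∀ᵐ x ∂μ, (i w : M → ℝ) x = ∑ j, t j * (i (v j) : M → ℝ) x := by
        have h3 : i w = ∑ j, t j • i (v j) := by
          rw [hw, map_sum]
          refine Finset.sum_congr rfl fun j _ => ?_
          rw [map_smul]
        rw [h3]
        have h4 : ∀ s : Finset (Fin (r + 2)), ∀ᵐ x ∂μ,
            ((∑ j ∈ s, t j • i (v j) : Lp ℝ 2 μ) : M → ℝ) x = ∑ j ∈ s, t j * (i (v j) : M → ℝ) x := by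
          intro s
          classical
          induction s using Finset.induction_on with
          | empty =>
            rw [Finset.sum_empty]
            filter_upwards [Lp.coeFn_zero ℝ 2 μ] with x hx
            rw [hx, Finset.sum_empty]
            rfl
          | insert j s hj ih =>
            rw [Finset.sum_insert hj]
            filter_upwards [ih, Lp.coeFn_add (t j • i (v j)) (∑ j ∈ s, t j • i (v j)),
              Lp.coeFn_smul (t j) (i (v j))] with x h5 h6 h7
            rw [h6, Pi.add_apply, h5, h7, Pi.smul_apply, smul_eq_mul, Finset.sum_insert hj]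
        exact h4 Finset.univ
      have h3 := ae_chart S p h2
      filter_upwards [h3, ae_all_iff.2 hVe] with z h4 h5
      rw [h4]
      exact Finset.sum_congr rfl fun j _ => by rw [h5]
    -- the open set
    obtain ⟨O₁, hO₁, hOO⟩ := isOpen_induced_iff.1 hO
    obtain ⟨O₂, hO₂⟩ : ∃ O₂ : Set M, O₂ = D.U p ∩ D.φ p ⁻¹' (O₁ ∩ D.T p) := ⟨_, rfl⟩
    have hO₂o : IsOpen O₂ := by
      rw [hO₂]
      exact (S.contφ p).isOpen_inter_preimage (S.openU p) (hO₁.inter (S.openT p))
    have hO₂ne : O₂.Nonempty := by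
      obtain ⟨z, hz⟩ := hOne
      obtain ⟨hU, hφ⟩ := Pool.Agent.Y183.QR.Loc.φψ S z.2
      refine ⟨D.ψ p z, ?_⟩
      rw [hO₂]
      refine ⟨hU, ?_⟩
      rw [mem_preimage, hφ]
      rw [← hOO] at hz
      exact ⟨hz, z.2⟩
    have h2 : ∀ᵐ x ∂μ, x ∈ O₂ → (i w : M → ℝ) x = 0 := by
      have h3 : ∀ᵐ z ∂(volume.restrict (D.T p)),
          (fun x => x ∈ O₂ → (i w : M → ℝ) x = 0) (D.ψ p z) := by
        filter_upwards [hwe, ae_restrict_mem (S.openT p).measurableSet] with z h4 hzT h5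
        rw [hO₂] at h5
        have h6 := h5.2
        rw [mem_preimage, (Pool.Agent.Y183.QR.Loc.φψ S hzT).2] at h6
        rw [h4]
        refine hcon ⟨z, hzT⟩ ?_
        rw [← hOO]
        exact h6.1
      filter_upwards [ae_chart' S p (P := fun x => x ∈ O₂ → (i w : M → ℝ) x = 0) h3] with y hy hyO
      refine hy ?_ hyO
      rw [hO₂] at hyO
      exact hyO.1
    have h3 := uc_open hucp S hiso hi ha hB hweig hO₂o hO₂ne h2
    have h4 : i w = 0 := by
      rw [Lp.ext_iff]
      filter_upwards [h3, Lp.coeFn_zero ℝ 2 μ] with x hx hx0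
      rw [hx, hx0]
      rfl
    have h5 : w = 0 := by
      have h6 := hS.nm w
      have h7 : b φ w w = 0 := by
        rw [hB]
        refine integral_eq_zero_of_ae ?_
        filter_upwards [h3] with x hx
        rw [hx]
        simp
      rw [hweig, h7, h4, norm_zero] at h6
      have h8 : ‖w‖ ^ 2 = 0 := by rw [h6]; ring
      exact norm_eq_zero.1 (pow_eq_zero_iff (two_ne_zero) |>.1 h8)
    refine ht (funext fun j => ?_)
    exact Fintype.linearIndependent_iff.1 hvlin t (by rw [← hw]; exact h5) j)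
  -- the linear map
  obtain ⟨Pi', hPi⟩ : ∃ Pi' : Module.Dual ℝ (Ix r → ℝ) →ₗ[ℝ] (D.T p → ℝ),
      ∀ f z, Pi' f z = f (fun s => V s.1 z * V s.2 z) :=
    ⟨{ toFun := fun f z => f (fun s => V s.1 z * V s.2 z)
       map_add' := fun f g => rfl
       map_smul' := fun c f => rfl }, fun f z => rfl⟩
  have hspan : Submodule.span ℝ (range fun s : Fin (r + 1 + 1) × Fin (r + 1 + 1) =>
      fun z : D.T p => V s.1 z * V s.2 z) ≤ LinearMap.range Pi' := by
    rw [Submodule.span_le]
    rintro _ ⟨s, rfl⟩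
    refine ⟨LinearMap.proj s, ?_⟩
    funext z
    rw [hPi]
    rfl
  have hker : A ≤ LinearMap.ker Pi' := by
    intro f hf
    rw [LinearMap.mem_ker]
    have h2 := ae_chart S p (hA f hf)
    have h3 : (fun z => f (fun s => V s.1 z * V s.2 z)) =ᵐ[volume.restrict (D.T p)] fun _ => 0 := by
      filter_upwards [h2, ae_all_iff.2 hVe] with z h4 h5
      rw [← h4]
      congr 1
      funext s
      rw [h5, h5]
    have hfc : ContinuousOn (fun z => f (fun s => V s.1 z * V s.2 z)) (D.T p) :=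
      (LinearMap.continuous_of_finiteDimensional f).comp_continuousOn
        (continuousOn_pi.2 fun s => (hVc s.1).mul (hVc s.2))
    have h4 := Measure.eqOn_open_of_ae_eq h3 (S.openT p) hfc continuousOn_const
    funext z
    rw [hPi]
    exact h4 z.2
  have h2 := LinearMap.finrank_range_add_finrank_ker Pi'
  have h3 : Module.finrank ℝ (Module.Dual ℝ (Ix r → ℝ)) = (r + 2) * (r + 2) := by
    rw [Subspace.dual_finrank_eq, Module.finrank_pi, Fintype.card_prod, Fintype.card_fin]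
  rw [h3] at h2
  have h4 := Submodule.finrank_mono hker
  have h5 := Submodule.finrank_mono hspan
  rw [sq]
  omega

end rich

end Pool.Agent.H23.CL
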