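import Pool.Agent.H23.CL.Gap
import Pool.Agent.H23.LR.Fin3

/-!
# Clusters of levels: the correlation measures
-/

set_option autoImplicit false
set_option linter.unusedSectionVars false

open Set Filter Topology MeasureTheory
open scoped ENNReal
open Pool.Agent.Y262.QE Pool.Agent.Y264.QR Pool.Agent.Y319.QR Q101.QG
open Pool.Agent.Q233 Pool.Agent.Q233.GLV

noncomputable section

namespace Pool.Agent.H23.CL

open Pool.Agent.H23.LR

/-- the tuples of `n + 1` different indices with levels at most `T` -/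
abbrev Tpl (n : ℕ) (T : ℝ) (x : ℕ → ℝ) : Type :=
  {k : Fin (n + 1) → ℕ // Function.Injective k ∧ ∀ j, x (k j) ≤ T}

/-- the correlation measure -/
def crm (n : ℕ) (T : ℝ) (x : ℕ → ℝ) : Measure (Fin n → ℝ) :=
  ENNReal.ofReal T⁻¹ • Measure.sum fun k : Tpl n T x =>
    Measure.dirac fun j => x (k.1 j.succ) - x (k.1 0)

/-- the cube -/
def cube (n : ℕ) (ε : ℝ) : Set (Fin n → ℝ) := {y | ∀ j, |y j| ≤ ε}

lemma cube_meas (n : ℕ) (ε : ℝ) : MeasurableSet (cube n ε) := by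
  have h1 : cube n ε = ⋂ j, {y : Fin n → ℝ | |y j| ≤ ε} := by
    ext y
    simp [cube]
  rw [h1]
  refine MeasurableSet.iInter fun j => ?_
  exact measurableSet_le (measurable_pi_apply j).abs measurable_const

/-- `n + 1` different levels near each other contain a short cluster -/
lemma short {n : ℕ} {x : ℕ → ℝ} (hm : Monotone x) {k : Fin (n + 1) → ℕ}
    (hk : Function.Injective k) {ε : ℝ} (h : ∀ j : Fin n, |x (k j.succ) - x (k 0)| ≤ ε) (hε : 0 ≤ ε)
    {N : ℕ} (hN : ∀ j, k j < N) : ∃ q < N, x (q + n) - x q ≤ 2 * ε := by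
  obtain ⟨j₀, hj₀⟩ := Finite.exists_min k
  have hall : ∀ j, |x (k j) - x (k 0)| ≤ ε := by
    intro j
    refine Fin.cases ?_ (fun j => h j) j
    rw [sub_self, abs_zero]
    exact hε
  have hbig : ∃ j, k j₀ + n ≤ k j := by
    by_contra hcon
    push Not at hcon
    have h1 : (Finset.univ.image k) ⊆ Finset.Ico (k j₀) (k j₀ + n) := by
      intro l hl
      rw [Finset.mem_image] at hl
      obtain ⟨j, -, rfl⟩ := hl
      rw [Finset.mem_Ico]
      exact ⟨hj₀ j, hcon j⟩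
    have h2 := Finset.card_le_card h1
    rw [Finset.card_image_of_injective _ hk, Finset.card_univ, Fintype.card_fin, Nat.card_Ico] at h2
    omega
  obtain ⟨j₁, hj₁⟩ := hbig
  refine ⟨k j₀, hN j₀, ?_⟩
  have h1 := hm hj₁
  have h2 := abs_le.1 (hall j₀)
  have h3 := abs_le.1 (hall j₁)
  linarith [h2.1, h3.2]

lemma crm_le {n : ℕ} {T : ℝ} {x : ℕ → ℝ} (hm : Monotone x) {N : ℕ} (hN : ∀ j, x j ≤ T → j < N)
    {ε : ℝ} (hε : 0 < ε) :
    (Measure.sum fun k : Tpl n T x => Measure.dirac fun j : Fin n => x (k.1 j.succ) - x (k.1 0))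
      (cube n ε) ≤ ∑ _k ∈ Fintype.piFinset (fun _ : Fin (n + 1) => Finset.range N),
        ∑ q ∈ Finset.range N, (if x (q + n) - x q ≤ 2 * ε then 1 else 0 : ℝ≥0∞) := by
  rw [Measure.sum_apply _ (cube_meas n ε)]
  obtain ⟨g, hg⟩ : ∃ g : (Fin (n + 1) → ℕ) → ℝ≥0∞, g = fun k =>
      if k ∈ Fintype.piFinset (fun _ : Fin (n + 1) => Finset.range N) then
        ∑ q ∈ Finset.range N, (if x (q + n) - x q ≤ 2 * ε then 1 else 0 : ℝ≥0∞) else 0 := ⟨_, rfl⟩
  have h1 : ∀ k : Tpl n T x, (Measure.dirac fun j : Fin n => x (k.1 j.succ) - x (k.1 0))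
      (cube n ε) ≤ g k.1 := by
    rintro ⟨k, hk, hkT⟩
    simp only
    rw [Measure.dirac_apply' _ (cube_meas n ε)]
    by_cases hmem : (fun j : Fin n => x (k j.succ) - x (k 0)) ∈ cube n ε
    · rw [indicator_of_mem hmem, hg]
      simp only [Fintype.mem_piFinset, Finset.mem_range, Pi.one_apply]
      rw [if_pos fun j => hN _ (hkT j)]
      obtain ⟨q, hq, hle⟩ := short hm hk hmem hε.le fun j => hN _ (hkT j)
      calc (1 : ℝ≥0∞) = if x (q + n) - x q ≤ 2 * ε then 1 else 0 := by rw [if_pos hle]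
        _ ≤ _ := Finset.single_le_sum
          (f := fun q => (if x (q + n) - x q ≤ 2 * ε then 1 else 0 : ℝ≥0∞))
          (fun _ _ => zero_le) (Finset.mem_range.2 hq)
    · rw [indicator_of_notMem hmem]
      exact zero_le
  refine (ENNReal.tsum_le_tsum h1).trans ?_
  refine (ENNReal.tsum_comp_le_tsum_of_injective Subtype.val_injective g).trans ?_
  rw [tsum_eq_sum (s := Fintype.piFinset (fun _ : Fin (n + 1) => Finset.range N))
    (fun p hp => by rw [hg]; exact if_neg hp)]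
  refine Finset.sum_le_sum fun p hp => ?_
  rw [hg]
  simp only
  rw [if_pos hp]

/-- **the correlation measure near zero** -/
theorem corr_zero {E : Type} [MeasurableSpace E] {P : Measure E} {K : Set E} (hK : MeasurableSet K)
    {x : E → ℕ → ℝ} (hx : ∀ j, Measurable fun φ => x φ j) (hm : ∀ φ, Monotone (x φ)) {n d : ℕ}
    (h : ∀ q, ∃ C : ℝ, ∀ ε > 0,
      P (K ∩ {φ | x φ (q + n) - x φ q ≤ ε}) ≤ ENNReal.ofReal (C * ε ^ d)) {T : ℝ}
    (hN : ∃ N, ∀ φ ∈ K, ∀ j, x φ j ≤ T → j < N) :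
    ∃ C : ℝ, ∀ ε > 0, ∫⁻ φ in K, crm n T (x φ) (cube n ε) ∂P ≤ ENNReal.ofReal (C * ε ^ d) := by
  classical
  obtain ⟨N, hN⟩ := hN
  have h' : ∀ q, ∃ C : ℝ, 0 ≤ C ∧ ∀ ε > 0,
      P (K ∩ {φ | x φ (q + n) - x φ q ≤ ε}) ≤ ENNReal.ofReal (C * ε ^ d) := by
    intro q
    obtain ⟨C, hC⟩ := h q
    refine ⟨max C 0, le_max_right _ _, fun ε hε => (hC ε hε).trans (ENNReal.ofReal_le_ofReal ?_)⟩
    exact mul_le_mul_of_nonneg_right (le_max_left _ _) (by positivity)
  choose c hc0 hc using h'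
  obtain ⟨L, hL⟩ : ∃ L : ℕ, L = (Fintype.piFinset (fun _ : Fin (n + 1) => Finset.range N)).card :=
    ⟨_, rfl⟩
  refine ⟨|T⁻¹| * (L * ∑ q ∈ Finset.range N, c q * 2 ^ d), fun ε hε => ?_⟩
  have h1 : ∀ φ ∈ K, crm n T (x φ) (cube n ε) ≤ ENNReal.ofReal |T⁻¹| * (L *
      ∑ q ∈ Finset.range N, {φ | x φ (q + n) - x φ q ≤ 2 * ε}.indicator 1 φ) := by
    intro φ hφ
    unfold crm
    rw [Measure.smul_apply, smul_eq_mul]
    refine mul_le_mul' (ENNReal.ofReal_le_ofReal (le_abs_self _)) ?_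
    refine (crm_le (hm φ) (hN φ hφ) hε).trans (le_of_eq ?_)
    rw [Finset.sum_const, nsmul_eq_mul, ← hL]
    congr 1
  have hms : ∀ q : ℕ, MeasurableSet {φ | x φ (q + n) - x φ q ≤ 2 * ε} := fun q =>
    measurableSet_le ((hx (q + n)).sub (hx q)) measurable_const
  refine (setLIntegral_mono' hK h1).trans ?_
  rw [lintegral_const_mul' _ _ ENNReal.ofReal_ne_top, lintegral_const_mul' _ _
    (ENNReal.natCast_ne_top L), lintegral_finsetSum _ fun q _ =>
    measurable_one.indicator (hms _), mul_assoc, ENNReal.ofReal_mul (abs_nonneg _)]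
  refine mul_le_mul' le_rfl ?_
  rw [mul_assoc, ENNReal.ofReal_mul (Nat.cast_nonneg L), ENNReal.ofReal_natCast]
  refine mul_le_mul' le_rfl ?_
  rw [Finset.sum_mul, ENNReal.ofReal_sum_of_nonneg fun q _ =>
    mul_nonneg (mul_nonneg (hc0 _) (by positivity)) (by positivity)]
  refine Finset.sum_le_sum fun q _ => ?_
  rw [lintegral_indicator_one (hms _), Measure.restrict_apply (hms _), inter_comm]
  refine (hc q (2 * ε) (by positivity)).trans (le_of_eq ?_)
  congr 1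
  rw [mul_pow]
  ring

variable {M : Type} [MetricSpace M] [CompactSpace M] [MeasurableSpace M] [BorelSpace M]
  {μ : Measure M} {D : Data M} [Nonempty M]

/-- **clusters of levels** -/
theorem cl_all (hpl : UC.StPlaneD) (hcell : UC.StCellD) [ConnectedSpace M] (hD : D.IsSurf μ)
    {r d : ℕ} (hd : 0 < d) (hrich : RichS μ D r d)
    [MeasurableSpace C(M, ℝ)] [BorelSpace C(M, ℝ)] {P : Measure C(M, ℝ)} [IsProbabilityMeasure P]
    {S : Set C(M, ℝ)} (hS : Dense (Submodule.span ℝ S : Set C(M, ℝ)))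
    (hP : ∀ h : Fin d → C(M, ℝ), (∀ j, h j ∈ S) → LinearIndependent ℝ h → UC.BdDirD P h)
    {K : Set C(M, ℝ)} (hK : IsCompact K) {x : C(M, ℝ) → ℕ → ℝ} (hx : Lev μ D x) :
    (∀ q, ∃ C : ℝ, ∀ ε > 0,
      P (K ∩ {φ | x φ (q + (r + 1)) - x φ q ≤ ε}) ≤ ENNReal.ofReal (C * ε ^ d)) ∧
    ∀ T : ℝ, ∃ C : ℝ, ∀ ε > 0,
      ∫⁻ φ in K, crm (r + 1) T (x φ) (cube (r + 1) ε) ∂P ≤ ENNReal.ofReal (C * ε ^ d) := by
  have h2 : ∀ q, ∃ C : ℝ, ∀ ε > 0,
      P (K ∩ {φ | x φ (q + (r + 1)) - x φ q ≤ ε}) ≤ ENNReal.ofReal (C * ε ^ d) := by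
    intro q
    by_cases hq : ∃ φ, 0 < x φ q
    · exact cl_cpt hpl hcell hD hd hrich hS hP hK x hx hq
    · push Not at hq
      have hq0 : ∀ φ, x φ q = 0 := fun φ => le_antisymm (hq φ) ((lev_pos hD hx φ).1 q)
      have hc : Continuous fun φ => x φ (q + (r + 1)) := lev_c μ D hD x hx (q + (r + 1))
      rcases K.eq_empty_or_nonempty with h0 | h0
      · refine ⟨0, fun ε _ => ?_⟩
        rw [h0, empty_inter, measure_empty]
        exact zero_le
      · obtain ⟨φ₁, hφ₁, hmin⟩ := hK.exists_isMinOn h0 hc.continuousOn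
        have hpos := (lev_pos hD hx φ₁).2 (q + (r + 1)) (by omega)
        refine ⟨1 / (x φ₁ (q + (r + 1))) ^ d, fun ε hε => ?_⟩
        rcases lt_or_ge ε (x φ₁ (q + (r + 1))) with h | h
        · have hempty : K ∩ {φ | x φ (q + (r + 1)) - x φ q ≤ ε} = ∅ := by
            rw [eq_empty_iff_forall_notMem]
            rintro φ ⟨hφ, hle⟩
            have h3 : x φ (q + (r + 1)) - x φ q ≤ ε := hle
            rw [hq0, sub_zero] at h3
            have h4 : x φ₁ (q + (r + 1)) ≤ x φ (q + (r + 1)) := hmin hφ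
            linarith
          rw [hempty, measure_empty]
          exact zero_le
        · refine prob_le_one.trans ?_
          rw [← ENNReal.ofReal_one]
          refine ENNReal.ofReal_le_ofReal ?_
          rw [div_mul_eq_mul_div, one_mul, le_div_iff₀ (by positivity), one_mul]
          exact pow_le_pow_left₀ hpos.le h d
  exact ⟨h2, fun T => corr_zero hK.isClosed.measurableSet
    (fun j => (lev_c μ D hD x hx j).measurable) (lev_mono' hx) h2 (few hD x hx hK T)⟩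

/-- **clusters of levels, law carried by a compact set** -/
theorem cl_univ (hpl : UC.StPlaneD) (hcell : UC.StCellD) [ConnectedSpace M] (hD : D.IsSurf μ)
    {r d : ℕ} (hd : 0 < d) (hrich : RichS μ D r d)
    [MeasurableSpace C(M, ℝ)] [BorelSpace C(M, ℝ)] {P : Measure C(M, ℝ)} [IsProbabilityMeasure P]
    {S : Set C(M, ℝ)} (hS : Dense (Submodule.span ℝ S : Set C(M, ℝ)))
    (hP : ∀ h : Fin d → C(M, ℝ), (∀ j, h j ∈ S) → LinearIndependent ℝ h → UC.BdDirD P h)
    {K : Set C(M, ℝ)} (hK : IsCompact K) (hK0 : P Kᶜ = 0) {x : C(M, ℝ) → ℕ → ℝ}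
    (hx : Lev μ D x) :
    (∀ q, ∃ C : ℝ, ∀ ε > 0,
      P {φ | x φ (q + (r + 1)) - x φ q ≤ ε} ≤ ENNReal.ofReal (C * ε ^ d)) ∧
    ∀ T : ℝ, ∃ C : ℝ, ∀ ε > 0,
      ∫⁻ φ, crm (r + 1) T (x φ) (cube (r + 1) ε) ∂P ≤ ENNReal.ofReal (C * ε ^ d) := by
  obtain ⟨g1, g2⟩ := cl_all hpl hcell hD hd hrich hS hP hK hx
  have hres : P.restrict K = P := Measure.restrict_eq_self_of_ae_mem (by
    rw [ae_iff]
    exact hK0)
  refine ⟨fun q => ?_, fun T => ?_⟩
  · obtain ⟨C, hC⟩ := g1 q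
    refine ⟨C, fun ε hε => le_trans (le_of_eq ?_) (hC ε hε)⟩
    have h1 : MeasurableSet {φ | x φ (q + (r + 1)) - x φ q ≤ ε} :=
      measurableSet_le ((lev_c μ D hD x hx (q + (r + 1))).measurable.sub
        (lev_c μ D hD x hx q).measurable) measurable_const
    rw [inter_comm, ← Measure.restrict_apply h1, hres]
  · obtain ⟨C, hC⟩ := g2 T
    refine ⟨C, fun ε hε => ?_⟩
    have := hC ε hε
    rwa [hres] at this

end Pool.Agent.H23.CL
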