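import Pool.Agent.H23.CL.Space
import Pool.Agent.H23.LR.Cov2

/-!
# Clusters of levels: compactness
-/

set_option autoImplicit false
set_option linter.unusedSectionVars false

open Set Filter Topology MeasureTheory
open scoped ENNReal
open Pool.Agent.Y262.QE Pool.Agent.Y264.QR Q101.QG
open Pool.Agent.Q233 Pool.Agent.Q233.GLV

noncomputable section

namespace Pool.Agent.H23.CL

open Pool.Agent.H23.LR

variable {M : Type} [MetricSpace M] [CompactSpace M] [MeasurableSpace M] [BorelSpace M]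
  {μ : Measure M} [IsFiniteMeasure μ] {H : Type} [NormedAddCommGroup H] [InnerProductSpace ℝ H]
  {i : H →L[ℝ] Lp ℝ 2 μ} {a : H →L[ℝ] H →L[ℝ] ℝ} {b : C(M, ℝ) → H →L[ℝ] H →L[ℝ] ℝ}
  {m q r d : ℕ}

/-- the unit sphere of the trial vectors -/
def US (r : ℕ) : Set (Fin (r + 2) → ℝ) := {x | ∑ j, x j ^ 2 = 1}

lemma us_compact (r : ℕ) : IsCompact (US r) := by
  have h1 : IsCompact (Set.pi (univ : Set (Fin (r + 2))) fun _ => Icc (-1 : ℝ) 1) :=
    isCompact_univ_pi fun _ => isCompact_Icc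
  refine h1.of_isClosed_subset ?_ ?_
  · exact isClosed_eq (continuous_finsetSum _ fun j _ => (continuous_apply j).pow 2)
      continuous_const
  · intro x hx j _
    have h2 : x j ^ 2 ≤ ∑ j, x j ^ 2 :=
      Finset.single_le_sum (f := fun j => x j ^ 2) (fun j _ => sq_nonneg _) (Finset.mem_univ j)
    have h3 : ∑ j, x j ^ 2 = 1 := hx
    rw [h3] at h2
    have h4 : |x j| ≤ 1 := abs_le_one_iff_mul_self_le_one.2 (by nlinarith)
    exact abs_le.1 h4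

lemma cv_tend (hS : Sf μ i a) (hB : IsB μ i b) (hmp : ∀ j, m ≤ j → ∀ φ, 0 < Ev a (b φ) j)
    (hmq : m ≤ q) {φs : ℕ → C(M, ℝ)} {φ : C(M, ℝ)} (hφ : Tendsto φs atTop (𝓝 φ))
    {us : ℕ → ℕ → H} {u : ℕ → H} (hu : ∀ j < q + r + 2, Tendsto (fun n => us n j) atTop (𝓝 (u j)))
    {xn : ℕ → Fin (r + 2) → ℝ} {x : Fin (r + 2) → ℝ} (hx : Tendsto xn atTop (𝓝 x)) :
    Tendsto (fun n => cv (fun j => Ev a (b (φs n)) j) (us n) q (xn n)) atTop
      (𝓝 (cv (fun j => Ev a (b φ) j) u q x)) := by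
  unfold cv
  refine tendsto_finsetSum _ fun j _ => ?_
  exact (tendsto_pi_nhds.1 hx j).smul
    (nv_tend (j := q + (j : ℕ)) hS hB hφ (hmp _ (by omega) φ) (hu _ (by have := j.2; omega)))

lemma xs_tend (hS : Sf μ i a) (hB : IsB μ i b) (hmp : ∀ j, m ≤ j → ∀ φ, 0 < Ev a (b φ) j)
    (hmq : m ≤ q) {φs : ℕ → C(M, ℝ)} {φ : C(M, ℝ)} (hφ : Tendsto φs atTop (𝓝 φ))
    {us : ℕ → ℕ → H} {u : ℕ → H} (hu : ∀ j < q + r + 2, Tendsto (fun n => us n j) atTop (𝓝 (u j)))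
    {xn : ℕ → Fin (r + 2) → ℝ} {x : Fin (r + 2) → ℝ} (hx : Tendsto xn atTop (𝓝 x))
    {fs : ℕ → C(M, ℝ)} {f : C(M, ℝ)} (hf : Tendsto fs atTop (𝓝 f)) :
    Tendsto (fun n => xs (kf b (fs n * ex (φs n))) (fun j => Ev a (b (φs n)) j) (us n) q (xn n))
      atTop (𝓝 (xs (kf b (f * ex φ)) (fun j => Ev a (b φ) j) u q x)) := by
  have h1 := hf.mul (ex_tend hφ)
  have h2 := cv_tend hS hB hmp hmq hφ hu hx
  unfold xs
  refine (kf_tend hS hB h1 h2 h2).sub (Tendsto.div_const (tendsto_finsetSum _ fun j _ => ?_) _)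
  have h3 := nv_tend (j := q + (j : ℕ)) hS hB hφ (hmp _ (by omega) φ)
    (hu _ (by have := j.2; omega))
  exact kf_tend hS hB h1 h3 h3

lemma fd_closed [CompleteSpace H] (hS : Sf μ i a) (hB : IsB μ i b)
    (hmp : ∀ j, m ≤ j → ∀ φ, 0 < Ev a (b φ) j) (hmq : m ≤ q) (h : Fin d → C(M, ℝ)) (c : ℝ) :
    IsClosed (Fd a b q r h c) := by
  refine isSeqClosed_iff_isClosed.1 fun φs φ hmem hφ => ?_
  choose us hus hc using hmem
  obtain ⟨s, u, hs, hu, hlim⟩ := cl hS hB hφ hus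
  refine ⟨u, hu, fun z hz => ?_⟩
  choose xn hxn hxc using fun n => hc n z hz
  obtain ⟨x, hx, t, ht, hxt⟩ := (us_compact r).tendsto_subseq (fun n => hxn (s n))
  refine ⟨x, hx, ?_⟩
  have hφ' : Tendsto (fun n => φs (s (t n))) atTop (𝓝 φ) :=
    (hφ.comp hs.tendsto_atTop).comp ht.tendsto_atTop
  have hu' : ∀ j < q + r + 2, Tendsto (fun n => us (s (t n)) j) atTop (𝓝 (u j)) :=
    fun j hj => (hlim j hj).comp ht.tendsto_atTop
  have h1 := xs_tend hS hB hmp hmq hφ' hu' hxt (tendsto_const_nhds (x := sp h z))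
  exact ge_of_tendsto' h1 fun n => hxc (s (t n))

/-- **the covering of a compact set** -/
theorem cover [CompleteSpace H] (hS : Sf μ i a) (hB : IsB μ i b)
    (hmp : ∀ j, m ≤ j → ∀ φ, 0 < Ev a (b φ) j) (hmq : m ≤ q) (hs : ℕ → C(M, ℝ))
    (hne : ∀ φ u, Tp a b (q + r) φ u → Ev a (b φ) q = Ev a (b φ) (q + r + 1) →
      ∃ n : Fin d → ℕ, ∀ z : EuclideanSpace ℝ (Fin d), ‖z‖ = 1 →
        ∃ x ∈ US r, 0 < xs (kf b (sp (fun j => hs (n j)) z * ex φ)) (fun j => Ev a (b φ) j) u q x)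
    {K : Set C(M, ℝ)} (hK : IsCompact K) :
    ∃ (N : ℕ) (c : ℝ), 0 < c ∧ ∀ φ ∈ K, iv a b q φ - iv a b (q + r + 1) φ ≤ c →
      ∃ n : Fin d → Fin N, φ ∈ Fd a b q r (fun j => hs (n j)) c := by
  obtain ⟨hF, hcmp, -⟩ := forms μ i a b hS hB
  by_contra hcon
  push Not at hcon
  have h1 : ∀ n : ℕ, ∃ φ ∈ K, iv a b q φ - iv a b (q + r + 1) φ ≤ 1 / ((n : ℝ) + 1) ∧
      ∀ l : Fin d → Fin n, φ ∉ Fd a b q r (fun j => hs (l j)) (1 / ((n : ℝ) + 1)) :=
    fun n => hcon n (1 / ((n : ℝ) + 1)) (by positivity)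
  choose φs hφK hφδ hφF using h1
  obtain ⟨φ, hφ, s, hs1, hs2⟩ := hK.tendsto_subseq hφK
  choose us hus using fun n => tp_ex hF (q + r) (φs (s n))
  obtain ⟨s', u, hs3, hu, hlim⟩ := cl hS hB hs2 hus
  have hφl : Tendsto (fun n => φs (s (s' n))) atTop (𝓝 φ) := hs2.comp hs3.tendsto_atTop
  have hmono' : StrictMono fun n => s (s' n) := hs1.comp hs3
  have hinf : Tendsto (fun n : ℕ => 1 / (((s (s' n) : ℕ) : ℝ) + 1)) atTop (𝓝 0) :=
    tendsto_one_div_add_atTop_nhds_zero_nat.comp (hs1.tendsto_atTop.comp hs3.tendsto_atTop)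
  have hiv : iv a b q φ - iv a b (q + r + 1) φ ≤ 0 := by
    have h2 : Tendsto (fun n => iv a b q (φs (s (s' n))) - iv a b (q + r + 1) (φs (s (s' n)))) atTop
        (𝓝 (iv a b q φ - iv a b (q + r + 1) φ)) :=
      (((iv_cont hF μ hcmp hmp hmq).tendsto φ).comp hφl).sub
        (((iv_cont hF μ hcmp hmp (by omega : m ≤ q + r + 1)).tendsto φ).comp hφl)
    exact le_of_tendsto_of_tendsto' h2 hinf fun n => hφδ _
  have heq : Ev a (b φ) q = Ev a (b φ) (q + r + 1) := by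
    obtain ⟨hnn, hmono, -, -, -⟩ := tLip M μ H a b hF hcmp
    refine le_antisymm (hmono φ q (q + r + 1) (by omega)) ?_
    have h3 : (Ev a (b φ) q)⁻¹ ≤ (Ev a (b φ) (q + r + 1))⁻¹ := by
      have : iv a b q φ ≤ iv a b (q + r + 1) φ := by linarith
      exact this
    exact (inv_le_inv₀ (hmp q hmq φ) (hmp (q + r + 1) (by omega) φ)).1 h3
  obtain ⟨l, hl⟩ := hne φ u hu heq
  -- a bound for the indices
  obtain ⟨L, hL⟩ : ∃ L : ℕ, ∀ j, l j < L := by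
    refine ⟨(∑ j, l j) + 1, fun j => Nat.lt_succ_of_le ?_⟩
    exact Finset.single_le_sum (f := l) (fun _ _ => Nat.zero_le _) (Finset.mem_univ j)
  have hz : ∀ n, ∃ z : EuclideanSpace ℝ (Fin d), L ≤ s (s' n) → ‖z‖ = 1 ∧ ∀ x ∈ US r,
      xs (kf b (sp (fun j => hs (l j)) z * ex (φs (s (s' n)))))
        (fun j => Ev a (b (φs (s (s' n)))) j) (us (s' n)) q x ≤ 1 / (((s (s' n) : ℕ) : ℝ) + 1) := by
    intro n
    by_cases hn : L ≤ s (s' n)
    · have h2 := hφF (s (s' n)) (fun j => ⟨l j, (hL j).trans_le hn⟩)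
      by_contra hcon2
      push Not at hcon2
      refine h2 ⟨us (s' n), hus (s' n), fun z hz => ?_⟩
      obtain ⟨-, h3⟩ := hcon2 z
      obtain ⟨x, hx, h4⟩ := h3 hz
      exact ⟨x, hx, h4.le⟩
    · exact ⟨0, fun h => absurd h hn⟩
  choose zn hzn using hz
  have hev : ∀ᶠ n in atTop, L ≤ s (s' n) :=
    (hs1.tendsto_atTop.comp hs3.tendsto_atTop).eventually (eventually_ge_atTop L)
  obtain ⟨n₀, hn₀⟩ := eventually_atTop.1 hev
  obtain ⟨z, hz, t, ht, hzt⟩ := (isCompact_sphere (0 : EuclideanSpace ℝ (Fin d)) 1).tendsto_subseq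
    (x := fun n => zn (n + n₀)) (fun n => by
      rw [mem_sphere_zero_iff_norm]
      exact (hzn (n + n₀) (hn₀ _ (by omega))).1)
  rw [mem_sphere_zero_iff_norm] at hz
  obtain ⟨x, hx, hpos⟩ := hl z hz
  have ht' : Tendsto (fun n => t n + n₀) atTop atTop :=
    tendsto_atTop_mono (fun n => Nat.le_add_right _ _) ht.tendsto_atTop
  have h2 := xs_tend (r := r) (xn := fun _ => x) hS hB hmp hmq (hφl.comp ht')
    (us := fun n => us (s' (t n + n₀))) (fun j hj => (hlim j hj).comp ht') tendsto_const_nhds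
    (((sp_cont fun j => hs (l j)).tendsto z).comp hzt)
  have h3 := le_of_tendsto_of_tendsto' h2 (hinf.comp ht') fun n =>
    (hzn (t n + n₀) (hn₀ _ (by omega))).2 x hx
  linarith

end Pool.Agent.H23.CL
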