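import Pool.Agent.H23.UC.Stm10

/-!
# Leading terms: adapted sequences
-/

set_option autoImplicit false

open Set Filter Topology MeasureTheory Asymptotics
open scoped ComplexConjugate

noncomputable section

namespace Pool.Agent.H23.CL.FO

variable {m : ℕ} (u : Fin m → ℂ → ℝ) (z₀ : ℂ)

/-- linear combinations -/
def cb (t : Fin m → ℝ) (z : ℂ) : ℝ := ∑ i, t i * u i z

lemma cb_add (s t : Fin m → ℝ) : cb u (s + t) = fun z => cb u s z + cb u t z := by
  funext z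
  unfold cb
  rw [← Finset.sum_add_distrib]
  exact Finset.sum_congr rfl fun i _ => by rw [Pi.add_apply]; ring

lemma cb_smul (r : ℝ) (t : Fin m → ℝ) : cb u (r • t) = fun z => r * cb u t z := by
  funext z
  unfold cb
  rw [Finset.mul_sum]
  exact Finset.sum_congr rfl fun i _ => by rw [Pi.smul_apply, smul_eq_mul]; ring

lemma cb_zero : cb u (0 : Fin m → ℝ) = fun _ => 0 := by
  funext z
  unfold cb
  simp

/-- the combinations which vanish to the order `k` -/
def XX (k : ℕ) : Submodule ℝ (Fin m → ℝ) where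
  carrier := {t | cb u t =O[𝓝 z₀] fun z => ‖z - z₀‖ ^ k}
  zero_mem' := by
    show cb u (0 : Fin m → ℝ) =O[𝓝 z₀] _
    rw [cb_zero]
    exact isBigO_zero _ _
  add_mem' := by
    intro s t hs ht
    show cb u (s + t) =O[𝓝 z₀] _
    rw [cb_add]
    exact IsBigO.add hs ht
  smul_mem' := by
    intro r t ht
    show cb u (r • t) =O[𝓝 z₀] _
    rw [cb_smul]
    exact IsBigO.const_mul_left ht r

lemma mem_XX {k : ℕ} {t : Fin m → ℝ} :
    t ∈ XX u z₀ k ↔ cb u t =O[𝓝 z₀] fun z => ‖z - z₀‖ ^ k := Iff.rfl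

/-- the combination `t` has the term `Re (c (z - z₀) ^ k)` up to the order `k + 1` -/
def Co (k : ℕ) (t : Fin m → ℝ) (c : ℂ) : Prop :=
  (fun z => cb u t z - (c * (z - z₀) ^ k).re) =O[𝓝 z₀] fun z => ‖z - z₀‖ ^ (k + 1)

variable {u z₀}

lemma pow_O (k : ℕ) {j : ℕ} (h : j ≤ k) :
    (fun z : ℂ => ‖z - z₀‖ ^ k) =O[𝓝 z₀] fun z => ‖z - z₀‖ ^ j := by
  refine IsBigO.of_bound 1 ?_
  filter_upwards [Metric.ball_mem_nhds z₀ one_pos] with z hz
  rw [Metric.mem_ball, dist_eq_norm] at hz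
  rw [one_mul, norm_pow, norm_pow, norm_norm]
  exact pow_le_pow_of_le_one (norm_nonneg _) hz.le h

lemma re_O (c : ℂ) (k : ℕ) :
    (fun z : ℂ => (c * (z - z₀) ^ k).re) =O[𝓝 z₀] fun z => ‖z - z₀‖ ^ k := by
  refine IsBigO.of_bound ‖c‖ (Eventually.of_forall fun z => ?_)
  rw [norm_pow, norm_norm, Real.norm_eq_abs]
  calc |(c * (z - z₀) ^ k).re| ≤ ‖c * (z - z₀) ^ k‖ := Complex.abs_re_le_norm _
    _ = ‖c‖ * ‖z - z₀‖ ^ k := by rw [norm_mul, norm_pow]

lemma XX_anti {j k : ℕ} (h : j ≤ k) : XX u z₀ k ≤ XX u z₀ j := fun _ ht =>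
  IsBigO.trans ht (pow_O k h)

lemma Co.mem {k : ℕ} {t : Fin m → ℝ} {c : ℂ} (h : Co u z₀ k t c) : t ∈ XX u z₀ k := by
  have h1 := (IsBigO.trans h (pow_O (z₀ := z₀) (k + 1) (Nat.le_succ k))).add (re_O c k)
  refine h1.congr (fun z => ?_) fun z => rfl
  ring

lemma Co.add {k : ℕ} {s t : Fin m → ℝ} {c d : ℂ} (h : Co u z₀ k s c) (h' : Co u z₀ k t d) :
    Co u z₀ k (s + t) (c + d) := by
  refine (IsBigO.add h h').congr (fun z => ?_) fun z => rfl
  rw [cb_add, add_mul, Complex.add_re]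
  ring

lemma Co.smul {k : ℕ} {t : Fin m → ℝ} {c : ℂ} (h : Co u z₀ k t c) (r : ℝ) :
    Co u z₀ k (r • t) (r • c) := by
  refine (IsBigO.const_mul_left h r).congr (fun z => ?_) fun z => rfl
  rw [cb_smul, smul_mul_assoc, Complex.smul_re, smul_eq_mul]
  ring

/-- a form which is small of higher order vanishes -/
lemma form_zero {c : ℂ} {k : ℕ}
    (h : (fun z : ℂ => (c * (z - z₀) ^ k).re) =O[𝓝 z₀] fun z => ‖z - z₀‖ ^ (k + 1)) (w : ℂ) :
    (c * w ^ k).re = 0 := by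
  obtain ⟨C, hC⟩ := h.bound
  have h1 : Tendsto (fun s : ℝ => z₀ + (s : ℂ) * w) (𝓝[>] 0) (𝓝 z₀) := by
    have : Tendsto (fun s : ℝ => z₀ + (s : ℂ) * w) (𝓝 0) (𝓝 (z₀ + ((0 : ℝ) : ℂ) * w)) := by
      have hc : Continuous fun s : ℝ => z₀ + (s : ℂ) * w :=
        continuous_const.add (Complex.continuous_ofReal.mul continuous_const)
      exact hc.tendsto 0
    rw [Complex.ofReal_zero, zero_mul, add_zero] at this
    exact this.mono_left nhdsWithin_le_nhds
  have h2 : ∀ᶠ s : ℝ in 𝓝[>] 0, |(c * w ^ k).re| ≤ C * ‖w‖ ^ (k + 1) * s := by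
    filter_upwards [h1.eventually hC, self_mem_nhdsWithin] with s hs hs0
    have hs0' : (0 : ℝ) < s := hs0
    rw [add_sub_cancel_left, norm_pow, norm_norm, norm_mul, Complex.norm_real, Real.norm_eq_abs,
      Real.norm_eq_abs, abs_of_pos hs0', mul_pow, mul_pow] at hs
    have e : (c * ((s : ℂ) ^ k * w ^ k)).re = s ^ k * (c * w ^ k).re := by
      have : c * ((s : ℂ) ^ k * w ^ k) = ((s ^ k : ℝ) : ℂ) * (c * w ^ k) := by
        push_cast
        ring
      rw [this, Complex.re_ofReal_mul]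
    rw [e, abs_mul, abs_of_pos (pow_pos hs0' k)] at hs
    have hp := pow_pos hs0' k
    have h3 : s ^ k * |(c * w ^ k).re| ≤ s ^ k * (C * ‖w‖ ^ (k + 1) * s) := by
      refine hs.trans (le_of_eq ?_)
      rw [pow_succ]
      ring
    exact le_of_mul_le_mul_left h3 hp
  have h3 : Tendsto (fun s : ℝ => C * ‖w‖ ^ (k + 1) * s) (𝓝[>] 0) (𝓝 0) := by
    have : Tendsto (fun s : ℝ => C * ‖w‖ ^ (k + 1) * s) (𝓝 0) (𝓝 (C * ‖w‖ ^ (k + 1) * 0)) :=
      (continuous_const.mul continuous_id).tendsto 0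
    rw [mul_zero] at this
    exact this.mono_left nhdsWithin_le_nhds
  have h4 := ge_of_tendsto' (x := 𝓝[>] (0 : ℝ)) (tendsto_const_nhds (x := (0 : ℝ))) (fun _ => le_rfl)
  have h5 : |(c * w ^ k).re| ≤ 0 := ge_of_tendsto h3 h2
  exact abs_nonpos_iff.1 h5

lemma c_zero {c : ℂ} {k : ℕ} (hk : 1 ≤ k) (h : ∀ w : ℂ, (c * w ^ k).re = 0) : c = 0 := by
  obtain ⟨w, hw⟩ := IsAlgClosed.exists_pow_nat_eq (conj c) (by omega : 0 < k)
  have h1 := h w
  rw [hw, Complex.mul_conj, Complex.ofReal_re] at h1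
  exact Complex.normSq_eq_zero.1 h1

lemma Co.uniq {k : ℕ} (hk : 1 ≤ k) {t : Fin m → ℝ} {c d : ℂ} (h : Co u z₀ k t c)
    (h' : Co u z₀ k t d) : c = d := by
  have h1 : (fun z : ℂ => ((d - c) * (z - z₀) ^ k).re) =O[𝓝 z₀] fun z => ‖z - z₀‖ ^ (k + 1) := by
    refine (IsBigO.sub h h').congr (fun z => ?_) fun z => rfl
    rw [sub_mul, Complex.sub_re]
    ring
  have h2 := c_zero hk (form_zero h1)
  exact (sub_eq_zero.1 h2).symm

lemma co_zero (k : ℕ) : Co u z₀ k 0 0 := by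
  unfold Co
  rw [cb_zero]
  simp only [zero_mul, Complex.zero_re, sub_zero]
  exact isBigO_zero _ _

lemma mem_of_co {k : ℕ} {t : Fin m → ℝ} (h : Co u z₀ k t 0) : t ∈ XX u z₀ (k + 1) := by
  refine h.congr (fun z => ?_) fun z => rfl
  simp

/-- two real-linearly dependent numbers -/
lemma im_ne {x y : ℂ} (hx : x ≠ 0) (h : ∀ s : ℝ, y ≠ (s : ℂ) * x) : (conj x * y).im ≠ 0 := by
  intro h0
  have h1 : conj x * y = (((conj x * y).re : ℝ) : ℂ) := by
    apply Complex.ext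
    · simp
    · rw [h0, Complex.ofReal_im]
  refine h ((conj x * y).re / Complex.normSq x) ?_
  have h2 : (Complex.normSq x : ℂ) ≠ 0 := by
    exact_mod_cast (Complex.normSq_pos.2 hx).ne'
  rw [Complex.ofReal_div, ← h1]
  have h3 : x * conj x = (Complex.normSq x : ℂ) := Complex.mul_conj x
  rw [div_mul_eq_mul_div, eq_div_iff h2, ← h3]
  ring

variable (u z₀)

/-- a sequence of combinations adapted to the orders -/
structure Ad (X : Submodule ℝ (Fin m → ℝ)) (n : ℕ) (N : ℕ → ℕ) (c : ℕ → ℂ)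
    (τ : ℕ → Fin m → ℝ) : Prop where
  mem : ∀ a, 1 ≤ a → a ≤ n → τ a ∈ X
  co : ∀ a, 1 ≤ a → a ≤ n → Co u z₀ (N a) (τ a) (c a)
  pos : ∀ a, 1 ≤ a → a ≤ n → 1 ≤ N a ∧ c a ≠ 0
  mono : ∀ a b, 1 ≤ a → a ≤ b → b ≤ n → N a ≤ N b
  two : ∀ a, 1 ≤ a → a + 2 ≤ n → N a < N (a + 2)
  ind : ∀ a, 1 ≤ a → a + 1 ≤ n → N a = N (a + 1) → (conj (c a) * c (a + 1)).im ≠ 0

variable {u z₀}

theorem exists_ad (h1 : ∀ k t, t ∈ XX u z₀ k → ∃ c, Co u z₀ k t c)
    (h2 : ∀ t : Fin m → ℝ, t ≠ 0 → ∃ k, t ∉ XX u z₀ k) :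
    ∀ (n : ℕ) (X : Submodule ℝ (Fin m → ℝ)), Module.finrank ℝ X = n → X ≤ XX u z₀ 1 →
      ∃ N c τ, Ad u z₀ X n N c τ := by
  intro n
  induction n using Nat.strong_induction_on with
  | _ n ih =>
  intro X hX hX1
  rcases Nat.eq_zero_or_pos n with hn | hn
  · subst hn
    exact ⟨fun _ => 0, fun _ => 0, fun _ => 0, ⟨fun a h h' => absurd h' (by omega),
      fun a h h' => absurd h' (by omega), fun a h h' => absurd h' (by omega),
      fun a b h h' h'' => absurd h'' (by omega), fun a h h' => absurd h' (by omega),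
      fun a h h' => absurd h' (by omega)⟩⟩
  have hXne : X ≠ ⊥ := by
    rintro rfl
    rw [finrank_bot] at hX
    omega
  -- the largest order
  have hex : ∃ k, X ⊓ XX u z₀ (k + 1) = ⊥ := by
    let f : ℕ →o (Submodule ℝ (Fin m → ℝ))ᵒᵈ :=
      ⟨fun k => OrderDual.toDual (X ⊓ XX u z₀ k), fun j k hjk => inf_le_inf_left _ (XX_anti hjk)⟩
    obtain ⟨K, hK⟩ := IsArtinian.monotone_stabilizes f
    refine ⟨K, ?_⟩
    by_contra hne
    obtain ⟨t, ht, ht0⟩ := Submodule.exists_mem_ne_zero_of_ne_bot hne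
    obtain ⟨k, hk⟩ := h2 t ht0
    have h3 : X ⊓ XX u z₀ K = X ⊓ XX u z₀ (max K k) := hK (max K k) (le_max_left _ _)
    have h4 : t ∈ X ⊓ XX u z₀ K := ⟨ht.1, XX_anti (Nat.le_succ K) ht.2⟩
    rw [h3] at h4
    exact hk (XX_anti (le_max_right _ _) h4.2)
  classical
  set k := Nat.find hex with hk
  have hkb : X ⊓ XX u z₀ (k + 1) = ⊥ := Nat.find_spec hex
  have hk1 : 1 ≤ k := by
    by_contra hcon
    have hk0 : k = 0 := by omega
    rw [hk0, zero_add, inf_eq_left.2 hX1] at hkb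
    exact hXne hkb
  have hYne : X ⊓ XX u z₀ k ≠ ⊥ := by
    have h3 := Nat.find_min hex (m := k - 1) (by omega)
    rwa [show k - 1 + 1 = k by omega] at h3
  set Y := X ⊓ XX u z₀ k with hY
  have hYk : ∀ t : Y, t.1 ∈ XX u z₀ k := fun t => t.2.2
  choose cc hcc using fun t : Y => h1 k t.1 (hYk t)
  let L : Y →ₗ[ℝ] ℂ :=
    { toFun := cc
      map_add' := fun s t => Co.uniq hk1 (hcc (s + t)) ((hcc s).add (hcc t))
      map_smul' := fun r t => Co.uniq hk1 (hcc (r • t)) ((hcc t).smul r) }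
  have hL : ∀ t : Y, Co u z₀ k t.1 (L t) := hcc
  have hLi : Function.Injective L := by
    rw [injective_iff_map_eq_zero]
    intro t ht
    have h3 := hL t
    rw [ht] at h3
    have h4 : t.1 ∈ X ⊓ XX u z₀ (k + 1) := ⟨t.2.1, mem_of_co h3⟩
    rw [hkb] at h4
    exact Subtype.ext h4
  have hd2 : Module.finrank ℝ Y ≤ 2 := by
    have := LinearMap.finrank_le_finrank_of_injective hLi
    rwa [Complex.finrank_real_complex] at this
  have hd1 : 1 ≤ Module.finrank ℝ Y := by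
    by_contra hcon
    have h3 : Module.finrank ℝ Y = 0 := by omega
    exact hYne (Submodule.finrank_eq_zero.1 h3)
  -- a complement
  obtain ⟨Z, hZ⟩ := Submodule.exists_isCompl Y
  have hsup : Y ⊔ X ⊓ Z = X := by
    have h3 : Y ≤ X := inf_le_left
    rw [inf_comm X Z, ← sup_inf_assoc_of_le Z h3, hZ.sup_eq_top, top_inf_eq]
  have hinf : Y ⊓ (X ⊓ Z) = ⊥ := by
    rw [eq_bot_iff, ← hZ.inf_eq_bot]
    exact inf_le_inf_left _ inf_le_right
  have hdim := Submodule.finrank_sup_add_finrank_inf_eq Y (X ⊓ Z)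
  rw [hsup, hinf, finrank_bot, hX] at hdim
  set n' := Module.finrank ℝ (X ⊓ Z : Submodule ℝ (Fin m → ℝ)) with hn'
  obtain ⟨N', c', τ', hA⟩ := ih n' (by omega) (X ⊓ Z) rfl (inf_le_left.trans hX1)
  have hlow : ∀ a, 1 ≤ a → a ≤ n' → N' a < k := by
    intro a ha ha'
    by_contra hcon
    have h3 : τ' a ∈ Y ⊓ (X ⊓ Z) :=
      ⟨⟨(hA.mem a ha ha').1, XX_anti (not_lt.1 hcon) (hA.co a ha ha').mem⟩, hA.mem a ha ha'⟩
    rw [hinf, Submodule.mem_bot] at h3
    have h4 := hA.co a ha ha'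
    rw [h3] at h4
    exact (hA.pos a ha ha').2 (Co.uniq (hA.pos a ha ha').1 h4 (co_zero _))
  obtain ⟨y₁, y₂, hy₁, hy₂⟩ : ∃ y₁ y₂ : Y, y₁ ≠ 0 ∧
      (Module.finrank ℝ Y = 2 → ∀ s : ℝ, y₂ ≠ s • y₁) := by
    obtain ⟨y₁, hy₁⟩ := Submodule.exists_mem_ne_zero_of_ne_bot hYne
    have hy₁' : (⟨y₁, hy₁.1⟩ : Y) ≠ 0 := fun h => hy₁.2 (congrArg Subtype.val h)
    by_cases h2 : Module.finrank ℝ Y = 2
    · have h3 : Submodule.span ℝ {(⟨y₁, hy₁.1⟩ : Y)} ≠ ⊤ := by
        intro h4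
        have h5 := finrank_span_singleton (K := ℝ) hy₁'
        rw [h4, finrank_top, h2] at h5
        omega
      obtain ⟨y₂, hy₂⟩ : ∃ y₂ : Y, y₂ ∉ Submodule.span ℝ {(⟨y₁, hy₁.1⟩ : Y)} := by
        by_contra hcon
        push Not at hcon
        exact h3 (eq_top_iff.2 fun y _ => hcon y)
      refine ⟨⟨y₁, hy₁.1⟩, y₂, hy₁', fun _ s hs => hy₂ ?_⟩
      rw [hs]
      exact Submodule.smul_mem _ _ (Submodule.mem_span_singleton_self _)
    · exact ⟨⟨y₁, hy₁.1⟩, 0, hy₁', fun h => absurd h h2⟩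
  have hLy₁ : L y₁ ≠ 0 := fun h => hy₁ (hLi (h.trans (map_zero L).symm))
  refine ⟨fun a => if a ≤ n' then N' a else k,
    fun a => if a ≤ n' then c' a else if a = n' + 1 then L y₁ else L y₂,
    fun a => if a ≤ n' then τ' a else if a = n' + 1 then y₁.1 else y₂.1, ?_⟩
  have hind : Module.finrank ℝ Y = 2 → (conj (L y₁) * L y₂).im ≠ 0 := fun h => by
    refine im_ne hLy₁ fun s hs => hy₂ h s (hLi ?_)
    rw [hs, map_smul, Complex.real_smul]
  have hLy₂ : Module.finrank ℝ Y = 2 → L y₂ ≠ 0 := by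
    intro h h0
    refine hind h ?_
    rw [h0, mul_zero, Complex.zero_im]
  have hX' : ∀ y : Y, y.1 ∈ X := fun y => y.2.1
  refine ⟨?_, ?_, ?_, ?_, ?_, ?_⟩
  · intro a ha ha'
    by_cases h3 : a ≤ n'
    · simp only [if_pos h3]
      exact (hA.mem a ha h3).1
    · by_cases h4 : a = n' + 1
      · simp only [if_neg h3, if_pos h4]
        exact hX' _
      · simp only [if_neg h3, if_neg h4]
        exact hX' _
  · intro a ha ha'
    by_cases h3 : a ≤ n'
    · simp only [if_pos h3]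
      exact hA.co a ha h3
    · by_cases h4 : a = n' + 1
      · simp only [if_neg h3, if_pos h4]
        exact hL _
      · simp only [if_neg h3, if_neg h4]
        exact hL _
  · intro a ha ha'
    by_cases h3 : a ≤ n'
    · simp only [if_pos h3]
      exact hA.pos a ha h3
    · by_cases h4 : a = n' + 1
      · simp only [if_neg h3, if_pos h4]
        exact ⟨hk1, hLy₁⟩
      · simp only [if_neg h3, if_neg h4]
        exact ⟨hk1, hLy₂ (by omega)⟩
  · intro a b ha hab hb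
    by_cases h3 : b ≤ n'
    · simp only [if_pos h3, if_pos (hab.trans h3)]
      exact hA.mono a b ha hab h3
    · simp only [if_neg h3]
      by_cases h4 : a ≤ n'
      · rw [if_pos h4]
        exact (hlow a ha h4).le
      · rw [if_neg h4]
  · intro a ha ha'
    by_cases h3 : a + 2 ≤ n'
    · simp only [if_pos h3, if_pos (show a ≤ n' by omega)]
      exact hA.two a ha h3
    · simp only [if_neg h3, if_pos (show a ≤ n' by omega)]
      exact hlow a ha (by omega)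
  · intro a ha ha' he
    by_cases h3 : a + 1 ≤ n'
    · simp only [if_pos h3, if_pos (show a ≤ n' by omega)] at he ⊢
      exact hA.ind a ha h3 he
    · by_cases h4 : a ≤ n'
      · simp only [if_neg h3, if_pos h4] at he
        exact absurd he (hlow a ha h4).ne
      · have h5 : a = n' + 1 := by omega
        have h6 : ¬ a + 1 = n' + 1 := by omega
        simp only [if_neg h3, if_neg h4, if_pos h5, if_neg h6]
        exact hind (by omega)

end Pool.Agent.H23.CL.FO
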