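import Pool.Agent.H23.CL.FormsA

/-!
# Leading terms: the dimension of the space of products
-/

set_option autoImplicit false

open Set Filter Topology MeasureTheory Asymptotics
open scoped ComplexConjugate

noncomputable section

namespace Pool.Agent.H23.CL.FO

open Pool.Agent.H23.UC (fm StCore)

variable {m : ℕ} {u : Fin m → ℂ → ℝ} {z₀ : ℂ}

/-- the limit on a ray -/
lemma ray {k : ℕ} {t : Fin m → ℝ} {c : ℂ} (h : Co u z₀ k t c) (w : ℂ) :
    Tendsto (fun s : ℝ => cb u t (z₀ + (s : ℂ) * w) / s ^ k) (𝓝[>] 0) (𝓝 (c * w ^ k).re) := by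
  obtain ⟨C, hC⟩ := h.bound
  have h1 : Tendsto (fun s : ℝ => z₀ + (s : ℂ) * w) (𝓝[>] 0) (𝓝 z₀) := by
    have : Tendsto (fun s : ℝ => z₀ + (s : ℂ) * w) (𝓝 0) (𝓝 (z₀ + ((0 : ℝ) : ℂ) * w)) := by
      have hc : Continuous fun s : ℝ => z₀ + (s : ℂ) * w :=
        continuous_const.add (Complex.continuous_ofReal.mul continuous_const)
      exact hc.tendsto 0
    rw [Complex.ofReal_zero, zero_mul, add_zero] at this
    exact this.mono_left nhdsWithin_le_nhds
  have h3 : Tendsto (fun s : ℝ => C * ‖w‖ ^ (k + 1) * s) (𝓝[>] 0) (𝓝 0) := by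
    have : Tendsto (fun s : ℝ => C * ‖w‖ ^ (k + 1) * s) (𝓝 0) (𝓝 (C * ‖w‖ ^ (k + 1) * 0)) :=
      (continuous_const.mul continuous_id).tendsto 0
    rw [mul_zero] at this
    exact this.mono_left nhdsWithin_le_nhds
  rw [tendsto_iff_norm_sub_tendsto_zero]
  refine squeeze_zero' (Eventually.of_forall fun s => norm_nonneg _) ?_ h3
  filter_upwards [h1.eventually hC, self_mem_nhdsWithin] with s hs hs0
  have hs0' : (0 : ℝ) < s := hs0
  rw [add_sub_cancel_left, norm_pow, norm_norm, norm_mul, Complex.norm_real, Real.norm_eq_abs,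
    Real.norm_eq_abs, abs_of_pos hs0', mul_pow, mul_pow] at hs
  have e : (c * ((s : ℂ) ^ k * w ^ k)).re = s ^ k * (c * w ^ k).re := by
    have : c * ((s : ℂ) ^ k * w ^ k) = ((s ^ k : ℝ) : ℂ) * (c * w ^ k) := by
      push_cast
      ring
    rw [this, Complex.re_ofReal_mul]
  rw [e] at hs
  have hp := pow_pos hs0' k
  have e2 : cb u t (z₀ + (s : ℂ) * w) / s ^ k - (c * w ^ k).re =
      (cb u t (z₀ + (s : ℂ) * w) - s ^ k * (c * w ^ k).re) / s ^ k := by
    rw [sub_div, mul_div_cancel_left₀ _ hp.ne']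
  rw [e2, Real.norm_eq_abs, abs_div, abs_of_pos hp, div_le_iff₀ hp]
  refine hs.trans (le_of_eq ?_)
  rw [pow_succ]
  ring

/-- a relation between products has a relation between the forms of the lowest degree -/
lemma lowest {n : ℕ} {N : ℕ → ℕ} {c : ℕ → ℂ} {τ : ℕ → Fin m → ℝ}
    (hco : ∀ a, a ≤ n → Co u z₀ (N a) (τ a) (c a)) {K : Finset (ℕ × ℕ)}
    (hK : ∀ p ∈ K, p.1 ≤ n ∧ p.2 ≤ n) {q : ℕ × ℕ → ℝ}
    (hq : ∀ᶠ z in 𝓝 z₀, ∑ p ∈ K, q p * (cb u (τ p.1) z * cb u (τ p.2) z) = 0) {k : ℕ}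
    (hk : ∀ p ∈ K, N p.1 + N p.2 < k → q p = 0) (w : ℂ) :
    ∑ p ∈ K with N p.1 + N p.2 = k, q p * (fm N c p.1 w * fm N c p.2 w) = 0 := by
  have h1 : Tendsto (fun s : ℝ => z₀ + (s : ℂ) * w) (𝓝[>] 0) (𝓝 z₀) := by
    have : Tendsto (fun s : ℝ => z₀ + (s : ℂ) * w) (𝓝 0) (𝓝 (z₀ + ((0 : ℝ) : ℂ) * w)) := by
      have hc : Continuous fun s : ℝ => z₀ + (s : ℂ) * w :=
        continuous_const.add (Complex.continuous_ofReal.mul continuous_const)
      exact hc.tendsto 0
    rw [Complex.ofReal_zero, zero_mul, add_zero] at this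
    exact this.mono_left nhdsWithin_le_nhds
  -- the terms
  have h2 : ∀ p ∈ K, Tendsto (fun s : ℝ => q p * (cb u (τ p.1) (z₀ + (s : ℂ) * w) *
      cb u (τ p.2) (z₀ + (s : ℂ) * w)) / s ^ k) (𝓝[>] 0)
      (𝓝 (if N p.1 + N p.2 = k then q p * (fm N c p.1 w * fm N c p.2 w) else 0)) := by
    intro p hp
    have ha := ray (hco p.1 (hK p hp).1) w
    have hb := ray (hco p.2 (hK p hp).2) w
    rcases lt_trichotomy (N p.1 + N p.2) k with h3 | h3 | h3
    · rw [if_neg h3.ne, hk p hp h3]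
      simp only [zero_mul, zero_div]
      exact tendsto_const_nhds
    · rw [if_pos h3]
      have h4 := (ha.mul hb).const_mul (q p)
      refine h4.congr fun s => ?_
      rw [div_mul_div_comm, ← pow_add, h3, ← mul_div_assoc]
    · rw [if_neg h3.ne']
      obtain ⟨j, hj⟩ : ∃ j, N p.1 + N p.2 = k + (j + 1) := ⟨N p.1 + N p.2 - k - 1, by omega⟩
      have h5 : Tendsto (fun s : ℝ => s ^ (j + 1)) (𝓝[>] 0) (𝓝 0) := by
        have : Tendsto (fun s : ℝ => s ^ (j + 1)) (𝓝 0) (𝓝 ((0 : ℝ) ^ (j + 1))) :=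
          (continuous_pow (j + 1)).tendsto 0
        rw [zero_pow (Nat.succ_ne_zero j)] at this
        exact this.mono_left nhdsWithin_le_nhds
      have h4 := ((ha.mul hb).const_mul (q p)).mul h5
      rw [mul_zero] at h4
      refine h4.congr' ?_
      filter_upwards [self_mem_nhdsWithin] with s hs
      have hs0 : s ≠ 0 := ne_of_gt hs
      rw [div_mul_div_comm, ← pow_add, hj, pow_add s k]
      field_simp
  have h3 := tendsto_finsetSum K h2
  have h4 : Tendsto (fun _ : ℝ => (0 : ℝ)) (𝓝[>] (0 : ℝ)) (𝓝 (∑ p ∈ K,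
      if N p.1 + N p.2 = k then q p * (fm N c p.1 w * fm N c p.2 w) else 0)) := by
    refine h3.congr' ?_
    filter_upwards [h1.eventually hq] with s hs
    rw [← Finset.sum_div, hs, zero_div]
  have h5 := tendsto_nhds_unique h4 tendsto_const_nhds
  rw [Finset.sum_filter]
  exact h5

/-- the functional of a pair of combinations -/
def ell (s t : Fin m → ℝ) : Module.Dual ℝ (Fin m × Fin m → ℝ) :=
  ∑ p : Fin m × Fin m, (s p.1 * t p.2) • LinearMap.proj p

lemma ell_apply (s t : Fin m → ℝ) (z : ℂ) :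
    ell s t (fun p => u p.1 z * u p.2 z) = cb u s z * cb u t z := by
  unfold ell cb
  rw [LinearMap.sum_apply, Fintype.sum_prod_type, Finset.sum_mul_sum]
  refine Finset.sum_congr rfl fun i _ => Finset.sum_congr rfl fun j _ => ?_
  rw [LinearMap.smul_apply, LinearMap.proj_apply, smul_eq_mul]
  ring

theorem forms_bound (hcore : StCore) {O : Set ℂ} (hO : IsOpen O) (hz : z₀ ∈ O)
    (hc : ∀ i, ContinuousOn (u i) O)
    (h1 : ∀ k t, t ∈ XX u z₀ k → ∃ c, Co u z₀ k t c)
    (h2 : ∀ t : Fin m → ℝ, t ≠ 0 → ∃ k, t ∉ XX u z₀ k) (h3 : ∃ i, u i z₀ ≠ 0)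
    (A : Submodule ℝ (Module.Dual ℝ (Fin m × Fin m → ℝ)))
    (hA : ∀ f ∈ A, ∀ᵐ z ∂(volume.restrict O), f (fun p => u p.1 z * u p.2 z) = 0) :
    Module.finrank ℝ A + (2 * (m - 1) + (m - 1) ^ 2 / 4 + 1) ≤ m ^ 2 := by
  classical
  have hcb : ∀ t : Fin m → ℝ, ContinuousOn (cb u t) O := fun t =>
    continuousOn_finsetSum _ fun k _ => continuousOn_const.mul (hc k)
  obtain ⟨i₀, hi₀⟩ := h3
  have hX0 : ∀ t, t ∈ XX u z₀ 0 := by
    intro t
    rw [mem_XX]
    simp only [pow_zero]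
    exact ((hcb t).continuousAt (hO.mem_nhds hz)).isBigO_one ℝ
  -- the values at `z₀`
  let ev : (Fin m → ℝ) →ₗ[ℝ] ℝ :=
    { toFun := fun t => cb u t z₀
      map_add' := fun s t => by rw [cb_add]
      map_smul' := fun r t => by rw [cb_smul]; rfl }
  have hev : ∀ t, ev t = cb u t z₀ := fun _ => rfl
  have hcoev : ∀ t, Co u z₀ 0 t (((ev t : ℝ) : ℂ)) := by
    intro t
    obtain ⟨c, hcc⟩ := h1 0 t (hX0 t)
    have h4 : cb u t z₀ - c.re = 0 := by
      obtain ⟨C, hC⟩ := hcc.bound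
      have h5 := hC.self_of_nhds
      simp only [pow_zero, mul_one, zero_add, pow_one, sub_self, norm_zero, mul_zero] at h5
      exact norm_le_zero_iff.1 h5
    refine hcc.congr (fun z => ?_) fun z => rfl
    rw [hev, pow_zero, mul_one, mul_one, Complex.ofReal_re]
    linarith
  have hevs : ev (Pi.single i₀ 1) = u i₀ z₀ := by
    rw [hev]
    unfold cb
    rw [Finset.sum_eq_single i₀]
    · simp
    · intro b _ hb
      rw [Pi.single_eq_of_ne hb, zero_mul]
    · exact fun h => absurd (Finset.mem_univ _) h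
  have hsurj : Function.Surjective ev := by
    intro r
    refine ⟨(r / u i₀ z₀) • Pi.single i₀ 1, ?_⟩
    rw [map_smul, hevs, smul_eq_mul, div_mul_cancel₀ _ hi₀]
  have hker : Module.finrank ℝ (LinearMap.ker ev) = m - 1 := by
    have h4 := LinearMap.finrank_range_add_finrank_ker ev
    rw [LinearMap.range_eq_top.2 hsurj, finrank_top, Module.finrank_self, Module.finrank_fintype_fun_eq_card,
      Fintype.card_fin] at h4
    omega
  have hkX : LinearMap.ker ev ≤ XX u z₀ 1 := by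
    intro t ht
    have h4 := hcoev t
    rw [LinearMap.mem_ker.1 ht, Complex.ofReal_zero] at h4
    exact mem_of_co h4
  obtain ⟨N', c', τ', hAd⟩ := exists_ad h1 h2 (m - 1) (LinearMap.ker ev) hker hkX
  obtain ⟨τ₀, hτ₀⟩ := hsurj 1
  set n := m - 1 with hn
  set N : ℕ → ℕ := fun a => if a = 0 then 0 else N' a with hN
  set c : ℕ → ℂ := fun a => if a = 0 then 1 else c' a with hcd
  set τ : ℕ → Fin m → ℝ := fun a => if a = 0 then τ₀ else τ' a with hτ
  have N1 : ∀ a, 1 ≤ a → N a = N' a := fun a ha => if_neg (by omega)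
  have c1 : ∀ a, 1 ≤ a → c a = c' a := fun a ha => if_neg (by omega)
  have τ1 : ∀ a, 1 ≤ a → τ a = τ' a := fun a ha => if_neg (by omega)
  have hco : ∀ a, a ≤ n → Co u z₀ (N a) (τ a) (c a) := by
    intro a ha
    rcases Nat.eq_zero_or_pos a with h | h
    · subst h
      have h4 := hcoev τ₀
      rw [hτ₀, Complex.ofReal_one] at h4
      exact h4
    · rw [N1 a h, c1 a h, τ1 a h]
      exact hAd.co a h ha
  obtain ⟨K, hK, hcard, hind⟩ := hcore n N c rfl rfl
    (fun a ha ha' => by rw [N1 a ha, c1 a ha]; exact hAd.pos a ha ha')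
    (fun a b ha hab hb => by rw [N1 a ha, N1 b (ha.trans hab)]; exact hAd.mono a b ha hab hb)
    (fun a ha ha' => by rw [N1 a ha, N1 (a + 2) (by omega)]; exact hAd.two a ha ha')
    (fun a ha ha' he => by
      rw [N1 a ha, N1 (a + 1) (by omega)] at he
      rw [c1 a ha, c1 (a + 1) (by omega)]
      exact hAd.ind a ha ha' he)
  -- the functionals are independent modulo `A`
  have key : ∀ q : ℕ × ℕ → ℝ, (∑ p ∈ K, q p • ell (τ p.1) (τ p.2)) ∈ A → ∀ p ∈ K, q p = 0 := by
    intro q hq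
    have h4 : ∀ z ∈ O, ∑ p ∈ K, q p * (cb u (τ p.1) z * cb u (τ p.2) z) = 0 := by
      have h5 : (fun z => ∑ p ∈ K, q p * (cb u (τ p.1) z * cb u (τ p.2) z)) =ᵐ[volume.restrict O]
          fun _ => (0 : ℝ) := by
        filter_upwards [hA _ hq] with z hz
        rw [LinearMap.sum_apply] at hz
        rw [← hz]
        refine Finset.sum_congr rfl fun p _ => ?_
        rw [LinearMap.smul_apply, ell_apply, smul_eq_mul]
      exact fun z hz => Measure.eqOn_open_of_ae_eq h5 hO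
        (continuousOn_finsetSum _ fun p _ => continuousOn_const.mul
          ((hcb _).mul (hcb _))) continuousOn_const hz
    have h5 : ∀ᶠ z in 𝓝 z₀, ∑ p ∈ K, q p * (cb u (τ p.1) z * cb u (τ p.2) z) = 0 := by
      filter_upwards [hO.mem_nhds hz] with z hz
      exact h4 z hz
    have h6 : ∀ k, ∀ p ∈ K, N p.1 + N p.2 = k → q p = 0 := by
      intro k
      induction k using Nat.strong_induction_on with
      | _ k ih =>
      exact hind k q fun w => lowest hco (fun p hp => ⟨(hK p hp).1.trans (hK p hp).2, (hK p hp).2⟩) h5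
        (fun p hp hlt => ih _ hlt p hp rfl) w
    exact fun p hp => h6 _ p hp rfl
  -- the dimension
  let Φ : (K → ℝ) →ₗ[ℝ] (Module.Dual ℝ (Fin m × Fin m → ℝ)) ⧸ A :=
    A.mkQ ∘ₗ (∑ p : K, (LinearMap.proj p).smulRight (ell (τ p.1.1) (τ p.1.2)))
  have hΦ : Function.Injective Φ := by
    rw [injective_iff_map_eq_zero]
    intro q hq
    have h4 : (∑ p : K, q p • ell (τ p.1.1) (τ p.1.2)) ∈ A := by
      rw [← Submodule.Quotient.mk_eq_zero, ← Submodule.mkQ_apply, ← hq]
      simp [Φ]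
    have h5 := key (fun p => if h : p ∈ K then q ⟨p, h⟩ else 0) (by
      rw [← Finset.sum_coe_sort]
      simpa using h4)
    funext p
    have h6 := h5 p.1 p.2
    rw [dif_pos p.2] at h6
    exact h6
  have h7 := LinearMap.finrank_le_finrank_of_injective hΦ
  have h8 := Submodule.finrank_quotient_add_finrank A
  have h9 : Module.finrank ℝ (Module.Dual ℝ (Fin m × Fin m → ℝ)) = m ^ 2 := by
    rw [Subspace.dual_finrank_eq, Module.finrank_fintype_fun_eq_card, Fintype.card_prod,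
      Fintype.card_fin]
    ring
  rw [Module.finrank_fintype_fun_eq_card, Fintype.card_coe] at h7
  rw [h9] at h8
  omega

end Pool.Agent.H23.CL.FO
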