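import Pool.Agent.H23.CL.FormsB
import Pool.Agent.H23.CL.Pts

/-!
# Clusters of levels: the products of eigenfunctions on a surface, by leading terms
-/

set_option autoImplicit false
set_option linter.unusedSectionVars false

open Set Filter Topology MeasureTheory Asymptotics
open scoped ContDiff ENNReal
open Pool.Agent.Y262.QE Pool.Agent.Y264.QR Q101.QG
open Pool.Agent.Q233 Pool.Agent.Q233.GLV

noncomputable section

namespace Pool.Agent.H23.CL

open Pool.Agent.H23.LR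

/-- leading terms of solutions -/
def StLeadO : Prop :=
  ∀ (O : Set ℂ) (U : ℂ → ℝ) (g : ℂ → ℂ) (ρ : ℂ → ℝ) (z₀ : ℂ), IsOpen O → z₀ ∈ O →
    ContinuousOn U O → ContinuousOn ρ O → UC.Weak O U g (fun z => ρ z * U z) →
    (∀ k : ℕ, U =O[𝓝 z₀] (fun z => ‖z - z₀‖ ^ k) →
      ∃ c : ℂ, (fun z => U z - (c * (z - z₀) ^ k).re) =O[𝓝 z₀] fun z => ‖z - z₀‖ ^ (k + 1)) ∧
    ((∀ k : ℕ, U =O[𝓝 z₀] fun z => ‖z - z₀‖ ^ k) → ∀ᶠ z in 𝓝 z₀, U z = 0)

variable {M : Type} [MetricSpace M] [CompactSpace M] [MeasurableSpace M] [BorelSpace M]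
  {μ : Measure M} {D : Data M} [IsFiniteMeasure μ]

/-- **the products of `r + 2` eigenvectors span a space of dimension at least
`2 (r + 1) + (r + 1) ^ 2 / 4 + 1`** -/
theorem rich_lead (hcont : UC.StCont) (hucp : UC.StUCP) (hlead : StLeadO) (hcore : UC.StCore)
    [ConnectedSpace M]
    (S : D.IsSurf μ) (hiso : ∀ p, ∀ z ∈ D.T p, ∃ c : ℝ, ∀ v, ‖D.A p z v‖ = c * ‖v‖)
    {i : HF D μ →L[ℝ] Lp ℝ 2 μ} {a : HF D μ →L[ℝ] HF D μ →L[ℝ] ℝ}
    {b : C(M, ℝ) → HF D μ →L[ℝ] HF D μ →L[ℝ] ℝ} (hS : Sf μ i a)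
    (hi : ∀ v, i v = v.1.fst) (ha : ∀ u v, a u v = inner ℝ u.1.snd v.1.snd) (hB : IsB μ i b)
    (r : ℕ) : Rich μ i a b r (2 * (r + 1) + (r + 1) ^ 2 / 4) := by
  intro φ E v hE0 hvlin hveig A hA
  obtain ⟨x₀⟩ : Nonempty M := inferInstance
  obtain ⟨p, hp⟩ := S.cover x₀
  have hTne : (D.T p).Nonempty := ⟨D.φ p x₀, mem_image_of_mem _ hp⟩
  obtain ⟨ρ, hρ⟩ : ∃ ρ : ℂ → ℝ, ρ = fun z => E * (Real.exp (φ (D.ψ p z)) * |(D.A p z).det|) :=
    ⟨_, rfl⟩
  have hρc : ContinuousOn ρ (D.T p) := by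
    rw [hρ]
    exact continuousOn_const.mul ((Real.continuous_exp.comp_continuousOn
      (φ.continuous.comp_continuousOn (S.contψ p))).mul (Pool.Agent.Y960.QE.contDet S p))
  have hrep : ∀ {w : HF D μ}, (∀ w', a w w' = E * b φ w w') → ∃ (U' : ℂ → ℝ) (g : ℂ → ℂ),
      ContinuousOn U' (D.T p) ∧
      (∀ᵐ z ∂(volume.restrict (D.T p)), (i w : M → ℝ) (D.ψ p z) = U' z) ∧
      UC.Weak (D.T p) U' g (fun z => ρ z * U' z) := by
    intro w hw
    obtain ⟨g, hg⟩ := weak_of_ev S hi ha hB (hiso p) hw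
    obtain ⟨U', hU'c, hU'⟩ := hcont _ _ _ _ (S.openT p) hg
    refine ⟨U', g, hU'c, hU', weak_congr' (S.openT p) hg hU' ?_⟩
    filter_upwards [hU'] with z hz
    rw [hρ, ← hz]
  choose U g hUc hUe hUw using fun j => hrep (hveig j)
  -- the combinations
  have hev : ∀ (t : Fin (r + 2) → ℝ), ∀ w', a (∑ k, t k • v k) w' = E * b φ (∑ k, t k • v k) w' := by
    intro t w'
    rw [sum_form, sum_form, Finset.mul_sum]
    refine Finset.sum_congr rfl fun k _ => ?_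
    rw [hveig]
    ring
  have hval : ∀ t : Fin (r + 2) → ℝ, ∀ᵐ z ∂(volume.restrict (D.T p)),
      (i (∑ k, t k • v k) : M → ℝ) (D.ψ p z) = ∑ k, t k * U k z := by
    intro t
    have h1 := ae_chart S p (i_sum (i := i) t v)
    filter_upwards [h1, ae_all_iff.2 hUe] with z h2 h3
    rw [h2]
    exact Finset.sum_congr rfl fun k _ => by rw [h3]
  have hopen : ∀ t : Fin (r + 2) → ℝ, ∀ B ⊆ D.T p, IsOpen B → B.Nonempty →
      (∀ z ∈ B, ∑ k, t k * U k z = 0) → t = 0 := by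
    intro t B hBT hBo hBne h0
    have h1 : ∑ k, t k • v k = 0 := by
      refine ev_chart hucp S hiso hS hi ha hB (hev t) hBo hBT hBne ?_
      filter_upwards [hval t] with z hz hzB
      rw [hz, h0 z hzB]
    funext k
    exact Fintype.linearIndependent_iff.1 hvlin t h1 k
  have hwt : ∀ t : Fin (r + 2) → ℝ, UC.Weak (D.T p) (fun z => ∑ k, t k * U k z)
      (fun z => ∑ k, ((t k : ℝ) : ℂ) * g k z) (fun z => ρ z * ∑ k, t k * U k z) := by
    intro t
    have h1 := weak_comb hUw t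
    have h2 : (fun z => ∑ k, t k * (ρ z * U k z)) = fun z => ρ z * ∑ k, t k * U k z := by
      funext z
      rw [Finset.mul_sum]
      exact Finset.sum_congr rfl fun k _ => by ring
    rw [h2] at h1
    exact h1
  have hct : ∀ t : Fin (r + 2) → ℝ, ContinuousOn (fun z => ∑ k, t k * U k z) (D.T p) := fun t =>
    continuousOn_finsetSum _ fun k _ => continuousOn_const.mul (hUc k)
  -- a point
  obtain ⟨z₀, hz₀, k₀, hk₀⟩ : ∃ z₀ ∈ D.T p, ∃ k, U k z₀ ≠ 0 := by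
    by_contra hcon
    push Not at hcon
    have h1 := hopen (Pi.single 0 1) (D.T p) le_rfl (S.openT p) hTne (fun z hz =>
      Finset.sum_eq_zero fun k _ => by rw [hcon z hz k, mul_zero])
    have h2 := congrFun h1 0
    rw [Pi.single_eq_same] at h2
    exact one_ne_zero h2
  have hmain := FO.forms_bound (m := r + 2) (u := U) (z₀ := z₀) hcore (S.openT p) hz₀ hUc ?_ ?_
    ⟨k₀, hk₀⟩ A ?_
  · have h1 : r + 2 - 1 = r + 1 := by omega
    rw [h1] at hmain
    exact hmain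
  · intro k t ht
    exact (hlead (D.T p) _ _ ρ z₀ (S.openT p) hz₀ (hct t) hρc (hwt t)).1 k ht
  · intro t ht
    by_contra hcon
    push Not at hcon
    have h1 := (hlead (D.T p) _ _ ρ z₀ (S.openT p) hz₀ (hct t) hρc (hwt t)).2 fun k => hcon k
    obtain ⟨B, hB1, hBo, hBz⟩ := eventually_nhds_iff.1 h1
    exact ht (hopen t (B ∩ D.T p) inter_subset_right (hBo.inter (S.openT p)) ⟨z₀, hBz, hz₀⟩
      fun z hz => hB1 z hz.1)
  · intro f hf
    filter_upwards [ae_chart S p (hA f hf), ae_all_iff.2 hUe] with z h2 h3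
    simp only [h3] at h2
    exact h2

end Pool.Agent.H23.CL
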