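import Pool.Agent.H23.CL.FormsC
import Pool.Agent.H15.UC.Stm10

/-!
# Leading terms of solutions: the two forms of the statement
-/

set_option autoImplicit false

open Set Filter Topology MeasureTheory Asymptotics

noncomputable section

namespace Pool.Agent.H23.CL

open Pool.Agent.H15.UC (Small StLead)

lemma small_of_O {f : ℂ → ℝ} {z₀ : ℂ} {k : ℕ} (h : f =O[𝓝 z₀] fun z => ‖z - z₀‖ ^ k) :
    Small (fun z => f (z₀ + z)) k := by
  obtain ⟨C, hC⟩ := h.bound
  obtain ⟨r, hr, hb⟩ := Metric.eventually_nhds_iff_ball.1 hC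
  refine ⟨C, r, hr, fun z hz => ?_⟩
  have h1 := hb (z₀ + z) (by rwa [Metric.mem_ball, dist_eq_norm, add_sub_cancel_left])
  rwa [add_sub_cancel_left, norm_pow, norm_norm, Real.norm_eq_abs] at h1

lemma O_of_small {f : ℂ → ℝ} {z₀ : ℂ} {k : ℕ} (h : Small (fun z => f (z₀ + z)) k) :
    f =O[𝓝 z₀] fun z => ‖z - z₀‖ ^ k := by
  obtain ⟨C, r, hr, hb⟩ := h
  refine IsBigO.of_bound C ?_
  filter_upwards [Metric.ball_mem_nhds z₀ hr] with z hz
  rw [Metric.mem_ball, dist_eq_norm] at hz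
  have h1 : |f (z₀ + (z - z₀))| ≤ C * ‖z - z₀‖ ^ k := hb (z - z₀) hz
  rw [add_sub_cancel] at h1
  rw [Real.norm_eq_abs, norm_pow, norm_norm]
  exact h1

theorem leadO_of (h : StLead) : StLeadO := by
  intro O U g ρ z₀ hO hz hU hρ W
  obtain ⟨h1, h2⟩ := h O U g ρ z₀ hO hz hU hρ W
  refine ⟨fun k hk => ?_, fun hk => ?_⟩
  · obtain ⟨c, hc⟩ := h1 k (small_of_O hk)
    refine ⟨c, O_of_small ?_⟩
    simpa only [add_sub_cancel_left] using hc
  · obtain ⟨r, hr, h0⟩ := h2 fun k => small_of_O (hk k)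
    filter_upwards [Metric.ball_mem_nhds z₀ hr] with z hz
    rw [Metric.mem_ball, dist_eq_norm] at hz
    have h3 := h0 (z - z₀) hz
    rw [add_sub_cancel] at h3
    exact h3

end Pool.Agent.H23.CL
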