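import Pool.Agent.H15.UC.Cut
import Pool.Agent.H15.UC.Prod
import Pool.Agent.H15.UC.Cont
import Pool.Agent.H23.UC.Stm9
import Pool.Graph.R_seed8.Helper523.LL.Pompeiu

/-!
# The weak gradient of a weak solution is continuous
-/

set_option autoImplicit false

open Set Filter Topology MeasureTheory
open scoped ContDiff ComplexConjugate ENNReal

noncomputable section

namespace Pool.Agent.H23.CL.GC

open Pool.Agent.H15.UC

/-- the integrability of `1 / |w|` on discs -/
lemma inv_norm_int (R : ℝ) : Integrable fun w : ℂ =>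
    (Metric.closedBall (0 : ℂ) R).indicator (fun w => ‖w‖⁻¹) w := by
  have e : (fun w : ℂ => (Metric.closedBall (0 : ℂ) R).indicator (fun w => ‖w‖⁻¹) w) =
      fun w : ℂ => (Set.Ioc 0 R).indicator (fun y : ℝ => y⁻¹) ‖w‖ := by
    funext w
    by_cases h : w ∈ Metric.closedBall (0 : ℂ) R
    · rw [indicator_of_mem h]
      by_cases h0 : w = 0
      · subst h0
        rw [norm_zero, indicator_of_notMem, inv_zero]
        exact fun h => lt_irrefl _ h.1
      · rw [indicator_of_mem]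
        exact ⟨norm_pos_iff.2 h0, mem_closedBall_zero_iff.1 h⟩
    · rw [indicator_of_notMem h, indicator_of_notMem]
      exact fun h' => h (mem_closedBall_zero_iff.2 h'.2)
  rw [e, integrable_fun_norm_addHaar (μ := (volume : Measure ℂ))
    (f := (Set.Ioc 0 R).indicator (fun y : ℝ => y⁻¹))]
  have hE : Module.finrank ℝ ℂ - 1 = 1 := by simp [Complex.finrank_real_complex]
  rw [hE]
  have h0 : IntegrableOn ((Set.Ioc 0 R).indicator (fun _ : ℝ => (1 : ℝ))) (Ioi 0) := by
    refine Integrable.integrableOn ?_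
    rw [integrable_indicator_iff measurableSet_Ioc]
    exact integrableOn_const (by simp)
  refine h0.congr_fun ?_ measurableSet_Ioi
  intro y hy
  simp only [Set.indicator, smul_eq_mul, pow_one]
  split_ifs with h
  · have : y ≠ 0 := ne_of_gt hy
    field_simp
  · simp

/-- the Cauchy transform -/
def ct (h : ℂ → ℝ) (z : ℂ) : ℂ := ∫ ζ, ((h ζ : ℝ) : ℂ) * (z - ζ)⁻¹

lemma ct_shift (h : ℂ → ℝ) (z : ℂ) : ct h z = ∫ w, ((h (z - w) : ℝ) : ℂ) * w⁻¹ := by
  unfold ct
  rw [← integral_sub_left_eq_self (fun ζ => ((h ζ : ℝ) : ℂ) * (z - ζ)⁻¹) volume z]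
  congr 1
  funext w
  rw [sub_sub_cancel]

lemma ct_int {h : ℂ → ℝ} (hc : Continuous h) {R : ℝ} (hR : ∀ z, R < ‖z‖ → h z = 0) (z : ℂ)
    {R' : ℝ} (hz : R + ‖z‖ ≤ R') : Integrable fun w => ((h (z - w) : ℝ) : ℂ) * w⁻¹ := by
  have hs : HasCompactSupport h := HasCompactSupport.intro (isCompact_closedBall (0 : ℂ) R)
    fun w hw => hR w (by
      by_contra hcon
      exact hw (mem_closedBall_zero_iff.2 (not_lt.1 hcon)))
  obtain ⟨C, hC⟩ := hc.bounded_above_of_compact_support hs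
  refine Integrable.mono' ((inv_norm_int R').const_mul C) ?_ (Eventually.of_forall fun w => ?_)
  · refine AEStronglyMeasurable.mul ?_ ?_
    · exact (Complex.continuous_ofReal.comp (hc.comp (continuous_const.sub
        continuous_id))).aestronglyMeasurable
    · exact (measurable_inv.comp measurable_id).aestronglyMeasurable
  · rw [norm_mul, norm_inv, Complex.norm_real]
    by_cases hw : w ∈ Metric.closedBall (0 : ℂ) R'
    · rw [indicator_of_mem hw]
      exact mul_le_mul_of_nonneg_right (hC _) (by positivity)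
    · rw [indicator_of_notMem hw, mul_zero]
      have h1 : h (z - w) = 0 := by
        refine hR _ ?_
        have h2 : R' < ‖w‖ := by
          by_contra hcon
          exact hw (mem_closedBall_zero_iff.2 (not_lt.1 hcon))
        have h3 : ‖w‖ ≤ ‖z - w‖ + ‖z‖ := by
          have e : w = -(z - w) + z := by ring
          calc ‖w‖ = ‖-(z - w) + z‖ := by rw [← e]
            _ ≤ ‖-(z - w)‖ + ‖z‖ := norm_add_le _ _
            _ = _ := by rw [norm_neg]
        linarith
      rw [h1, norm_zero, zero_mul]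

/-- the near part: a modulus of continuity -/
lemma ct_near {R : ℝ} {R' : ℝ} : ∃ C : ℝ, 0 ≤ C ∧ ∀ (h : ℂ → ℝ) (η : ℝ) (z z' : ℂ), Continuous h →
    (∀ z, R < ‖z‖ → h z = 0) → 0 ≤ η → R + ‖z‖ ≤ R' → R + ‖z'‖ ≤ R' →
    (∀ w, |h (z - w) - h (z' - w)| ≤ η) → ‖ct h z - ct h z'‖ ≤ η * C := by
  refine ⟨∫ w : ℂ, (Metric.closedBall (0 : ℂ) R').indicator (fun w => ‖w‖⁻¹) w,
    integral_nonneg fun w => ?_, ?_⟩
  · by_cases hw : w ∈ Metric.closedBall (0 : ℂ) R'
    · rw [indicator_of_mem hw]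
      exact inv_nonneg.2 (norm_nonneg w)
    · rw [indicator_of_notMem hw]
      exact le_rfl
  intro h η z z' hc hR hη hz hz' hd
  rw [ct_shift, ct_shift, ← integral_sub (ct_int hc hR z hz) (ct_int hc hR z' hz'),
    ← integral_const_mul]
  refine norm_integral_le_of_norm_le ((inv_norm_int R').const_mul η) (Eventually.of_forall fun w => ?_)
  rw [← sub_mul, ← Complex.ofReal_sub, norm_mul, norm_inv, Complex.norm_real]
  by_cases hw : w ∈ Metric.closedBall (0 : ℂ) R'
  · rw [indicator_of_mem hw]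
    exact mul_le_mul_of_nonneg_right (hd w) (by positivity)
  · rw [indicator_of_notMem hw, mul_zero]
    have h2 : R' < ‖w‖ := by
      by_contra hcon
      exact hw (mem_closedBall_zero_iff.2 (not_lt.1 hcon))
    have h3 : ∀ y : ℂ, R + ‖y‖ ≤ R' → h (y - w) = 0 := by
      intro y hy
      refine hR _ ?_
      have h3 : ‖w‖ ≤ ‖y - w‖ + ‖y‖ := by
        have e : w = -(y - w) + y := by ring
        calc ‖w‖ = ‖-(y - w) + y‖ := by rw [← e]
          _ ≤ ‖-(y - w)‖ + ‖y‖ := norm_add_le _ _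
          _ = _ := by rw [norm_neg]
      linarith
    rw [h3 z hz, h3 z' hz', sub_self, norm_zero, zero_mul]

/-- the far part -/
lemma ct_far {h : ℂ → ℝ} (hc : Continuous h) (hs : HasCompactSupport h) {z₀ : ℂ} {s : ℝ}
    (hs0 : 0 < s) (h0 : ∀ ζ, ‖ζ - z₀‖ < s → h ζ = 0) {z z' : ℂ} (hz : ‖z - z₀‖ < s / 2)
    (hz' : ‖z' - z₀‖ < s / 2) : ‖ct h z - ct h z'‖ ≤ 4 / s ^ 2 * ‖z - z'‖ * ∫ ζ, |h ζ| := by
  have hi : Integrable h := hc.integrable_of_hasCompactSupport hs
  have hdist : ∀ y : ℂ, ‖y - z₀‖ < s / 2 → ∀ ζ, h ζ ≠ 0 → s / 2 ≤ ‖y - ζ‖ := by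
    intro y hy ζ hζ
    have h1 : s ≤ ‖ζ - z₀‖ := by
      by_contra hcon
      exact hζ (h0 ζ (not_le.1 hcon))
    have h2 : ‖ζ - z₀‖ ≤ ‖y - ζ‖ + ‖y - z₀‖ := by
      have e : ζ - z₀ = -(y - ζ) + (y - z₀) := by ring
      calc ‖ζ - z₀‖ = ‖-(y - ζ) + (y - z₀)‖ := by rw [← e]
        _ ≤ ‖-(y - ζ)‖ + ‖y - z₀‖ := norm_add_le _ _
        _ = _ := by rw [norm_neg]
    linarith
  have hint : ∀ y : ℂ, ‖y - z₀‖ < s / 2 → Integrable fun ζ => ((h ζ : ℝ) : ℂ) * (y - ζ)⁻¹ := by
    intro y hy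
    refine Integrable.mono' (hi.norm.const_mul (2 / s)) ?_ (Eventually.of_forall fun ζ => ?_)
    · refine AEStronglyMeasurable.mul ?_ ?_
      · exact (Complex.continuous_ofReal.comp hc).aestronglyMeasurable
      · exact (measurable_inv.comp (measurable_const.sub measurable_id)).aestronglyMeasurable
    · rw [norm_mul, norm_inv, Complex.norm_real]
      by_cases hζ : h ζ = 0
      · rw [hζ, norm_zero, zero_mul, mul_zero]
      · rw [mul_comm]
        refine mul_le_mul_of_nonneg_right ?_ (norm_nonneg _)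
        have h1 := hdist y hy ζ hζ
        rw [inv_le_comm₀ (by linarith [hdist y hy ζ hζ]) (by positivity)]
        calc (2 / s)⁻¹ = s / 2 := by rw [inv_div]
          _ ≤ _ := h1
  unfold ct
  rw [← integral_sub (hint z hz) (hint z' hz'), ← integral_const_mul]
  refine norm_integral_le_of_norm_le (hi.abs.const_mul _) (Eventually.of_forall fun ζ => ?_)
  by_cases hζ : h ζ = 0
  · rw [hζ]
    simp
  · have h1 := hdist z hz ζ hζ
    have h2 := hdist z' hz' ζ hζ
    have n1 : z - ζ ≠ 0 := by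
      intro h
      rw [h, norm_zero] at h1
      linarith
    have n2 : z' - ζ ≠ 0 := by
      intro h
      rw [h, norm_zero] at h2
      linarith
    have e : ((h ζ : ℝ) : ℂ) * (z - ζ)⁻¹ - ((h ζ : ℝ) : ℂ) * (z' - ζ)⁻¹ =
        ((h ζ : ℝ) : ℂ) * ((z' - z) * ((z - ζ)⁻¹ * (z' - ζ)⁻¹)) := by
      field_simp
      ring
    rw [e, norm_mul, norm_mul, norm_mul, norm_inv, norm_inv, Complex.norm_real, norm_sub_rev z' z,
      Real.norm_eq_abs]
    have h3 : ‖z - ζ‖⁻¹ ≤ 2 / s := by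
      rw [inv_le_comm₀ (by linarith) (by positivity), inv_div]
      exact h1
    have h4 : ‖z' - ζ‖⁻¹ ≤ 2 / s := by
      rw [inv_le_comm₀ (by linarith) (by positivity), inv_div]
      exact h2
    have h5 : ‖z - ζ‖⁻¹ * ‖z' - ζ‖⁻¹ ≤ 2 / s * (2 / s) :=
      mul_le_mul h3 h4 (by positivity) (by positivity)
    calc |h ζ| * (‖z - z'‖ * (‖z - ζ‖⁻¹ * ‖z' - ζ‖⁻¹))
        ≤ |h ζ| * (‖z - z'‖ * (2 / s * (2 / s))) := by gcongr
      _ = 4 / s ^ 2 * ‖z - z'‖ * |h ζ| := by
        field_simp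
        ring

/-- the formula of Cauchy and Pompeiu for `dz P` -/
lemma dz_ct {P : ℂ → ℝ} (hP : ContDiff ℝ ∞ P) (hc : HasCompactSupport P) (z : ℂ) :
    (2 * Real.pi : ℂ) * dz P z = ct (Lap P) z := by
  have h1 := Pool.Agent.Helper523.LL.pompeiu (ψ := dz P)
    ((smooth_dz hP).of_le (by exact_mod_cast le_top)) (supp_dz hc) z
  have h2 : ∀ ζ, Pool.Agent.Helper523.LL.dbar (dz P) ζ = (1 / 2) * ((Lap P ζ : ℝ) : ℂ) := by
    intro ζ
    rw [← dz_lap hP ζ]
    rfl
  simp only [h2] at h1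
  unfold ct
  have e : (fun ζ => ((Lap P ζ : ℝ) : ℂ) * (z - ζ)⁻¹) =
      fun ζ => (-2 : ℂ) * (1 / 2 * ((Lap P ζ : ℝ) : ℂ) * (ζ - z)⁻¹) := by
    funext ζ
    rw [← neg_sub ζ z, inv_neg]
    ring
  rw [e, integral_const_mul, h1]
  ring

end Pool.Agent.H23.CL.GC
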