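import Pool.Agent.H23.CL.Chart
import Pool.Agent.H23.LR.Fin

/-!
# Clusters of levels: the bound
-/

set_option autoImplicit false
set_option linter.unusedSectionVars false

open Set Filter Topology MeasureTheory
open scoped ENNReal
open Pool.Agent.Y262.QE Pool.Agent.Y264.QR Pool.Agent.Y319.QR Q101.QG
open Pool.Agent.Q233 Pool.Agent.Q233.GLV

noncomputable section

namespace Pool.Agent.H23.CL

open Pool.Agent.H23.LR

section abs

variable {M : Type} [MetricSpace M] [CompactSpace M] [MeasurableSpace M] [BorelSpace M]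
  {μ : Measure M} [IsFiniteMeasure μ] {H : Type} [NormedAddCommGroup H] [InnerProductSpace ℝ H]
  {i : H →L[ℝ] Lp ℝ 2 μ} {a : H →L[ℝ] H →L[ℝ] ℝ} {b : C(M, ℝ) → H →L[ℝ] H →L[ℝ] ℝ}
  {m q r d : ℕ}

/-- dependent directions have no excess -/
lemma fd_dep (hB : IsB μ i b) {h : Fin d → C(M, ℝ)} (hdep : ¬ LinearIndependent ℝ h) {c : ℝ}
    (hc : 0 < c) : Fd a b q r h c = ∅ := by
  rw [eq_empty_iff_forall_notMem]
  rintro φ ⟨u, -, hu⟩
  obtain ⟨g, hg, j, hj⟩ := Fintype.not_linearIndependent_iff.1 hdep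
  obtain ⟨z, hz⟩ : ∃ z : EuclideanSpace ℝ (Fin d), z = vc g := ⟨_, rfl⟩
  have hz0 : z ≠ 0 := by
    intro h0
    refine hj ?_
    have h1 : z j = g j := by rw [hz]; rfl
    rw [← h1, h0]
    rfl
  have hzn : 0 < ‖z‖ := norm_pos_iff.2 hz0
  obtain ⟨x, -, hx⟩ := fd_cone hB hu z
  have h1 : sp h z = (0 : ℝ) • (0 : C(M, ℝ)) := by
    rw [zero_smul, ← hg, hz]
    rfl
  rw [h1, xs_smul hB, zero_mul] at hx
  have : 0 < c * ‖z‖ := mul_pos hc hzn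
  linarith

/-- the estimate for a family of directions -/
theorem dirs_bd [CompleteSpace H] (hpl : UC.StPlaneD) (hcell : UC.StCellD) (hS : Sf μ i a)
    (hB : IsB μ i b)
    (hm0 : ∀ j, j < m → ∀ φ, Ev a (b φ) j = 0) (hmp : ∀ j, m ≤ j → ∀ φ, 0 < Ev a (b φ) j)
    (hmq : m ≤ q) (hd : 0 < d) [MeasurableSpace C(M, ℝ)] [BorelSpace C(M, ℝ)]
    {P : Measure C(M, ℝ)} {h : Fin d → C(M, ℝ)} (hP : LinearIndependent ℝ h → UC.BdDirD P h)
    {K : Set C(M, ℝ)} (hK : IsClosed K) {R c : ℝ} (hKR : ∀ φ ∈ K, ‖φ‖ ≤ R) (hc : 0 < c) :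
    ∃ X : ENNReal, X ≠ ⊤ ∧ ∀ ε > 0, P (K ∩ ({φ | iv a b q φ - iv a b (q + r + 1) φ ≤ ε} ∩
      Fd a b q r h c)) ≤ X * ENNReal.ofReal (ε ^ d) := by
  obtain ⟨hF, hcmp, -⟩ := forms μ i a b hS hB
  by_cases hind : LinearIndependent ℝ h
  · obtain ⟨ρ, hρ, X, hX0, hX⟩ := space (r := r) hpl hS hB hm0 hmp hmq hd h R hc
    obtain ⟨C, hC, hle⟩ := hcell C(M, ℝ) P d h (hP hind) hind R ρ hρ
    refine ⟨C * ENNReal.ofReal X, ENNReal.mul_ne_top hC ENNReal.ofReal_ne_top, fun ε hε => ?_⟩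
    have hcl : IsClosed {φ : C(M, ℝ) | iv a b q φ - iv a b (q + r + 1) φ ≤ ε} :=
      isClosed_le ((iv_cont hF μ hcmp hmp hmq).sub
        (iv_cont hF μ hcmp hmp (by omega : m ≤ q + r + 1))) continuous_const
    have h1 := hle _ (hK.inter (hcl.inter (fd_closed hS hB hmp hmq h c))).measurableSet
      (fun φ hφ => hKR φ hφ.1) (ENNReal.ofReal (X * ε ^ d)) (fun ψ => by
        refine (measure_mono ?_).trans (hX ψ ε hε)
        rintro z ⟨hz1, hz2, hz3, hz4⟩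
        exact ⟨hz1, ⟨hKR _ hz2, hz3⟩, hz4⟩)
    refine h1.trans (le_of_eq ?_)
    rw [ENNReal.ofReal_mul hX0.le, mul_assoc]
  · refine ⟨0, ENNReal.zero_ne_top, fun ε hε => ?_⟩
    rw [fd_dep hB hind hc, inter_empty, inter_empty, measure_empty]
    exact zero_le

/-- **the bound, abstract form** -/
theorem gap_cl [CompleteSpace H] [Nonempty M] (hpl : UC.StPlaneD) (hcell : UC.StCellD)
    (hS : Sf μ i a) (hB : IsB μ i b)
    (hm0 : ∀ j, j < m → ∀ φ, Ev a (b φ) j = 0) (hmp : ∀ j, m ≤ j → ∀ φ, 0 < Ev a (b φ) j)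
    (hmq : m ≤ q) (hd : 0 < d) (hrich : Rich μ i a b r d)
    [MeasurableSpace C(M, ℝ)] [BorelSpace C(M, ℝ)]
    {P : Measure C(M, ℝ)} [IsProbabilityMeasure P] {S : Set C(M, ℝ)}
    (hSd : Dense (Submodule.span ℝ S : Set C(M, ℝ)))
    (hP : ∀ h : Fin d → C(M, ℝ), (∀ j, h j ∈ S) → LinearIndependent ℝ h → UC.BdDirD P h)
    {K : Set C(M, ℝ)} (hK : IsCompact K) :
    ∃ C : ENNReal, C ≠ ⊤ ∧ ∀ ε > 0, P (K ∩ {φ | iv a b q φ - iv a b (q + r + 1) φ ≤ ε}) ≤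
      C * ENNReal.ofReal (ε ^ d) := by
  obtain ⟨hs, hsS, hsd⟩ := ctb_total hSd
  obtain ⟨N, c, hc, hcov⟩ := cover (d := d) hS hB hmp hmq hs
    (fun φ u hu heq => dir_ne hS hB hmp hmq hrich hsd φ u hu heq) hK
  obtain ⟨R, hR⟩ := hK.isBounded.exists_norm_le
  choose X hX hXle using fun n : Fin d → Fin N => dirs_bd (r := r) (c := c) (R := R)
    (h := fun j => hs (n j)) hpl hcell hS hB hm0 hmp hmq hd (hP _ fun j => hsS (n j)) hK.isClosed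
    hR hc
  refine ⟨ENNReal.ofReal (1 / c ^ d) + ∑ n : Fin d → Fin N, X n, ?_, ?_⟩
  · refine ENNReal.add_ne_top.2 ⟨ENNReal.ofReal_ne_top, ?_⟩
    exact (ENNReal.sum_lt_top.2 fun n _ => (hX n).lt_top).ne
  · intro ε hε
    rw [add_mul]
    rcases le_or_gt ε c with hεc | hεc
    · refine le_add_left ?_
      have h1 : K ∩ {φ | iv a b q φ - iv a b (q + r + 1) φ ≤ ε} ⊆
          ⋃ n ∈ (Finset.univ : Finset (Fin d → Fin N)),
          K ∩ ({φ | iv a b q φ - iv a b (q + r + 1) φ ≤ ε} ∩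
            Fd a b q r (fun j => hs (n j)) c) := by
        rintro φ ⟨hφK, hφε⟩
        obtain ⟨n, hmem⟩ := hcov φ hφK (le_trans hφε hεc)
        simp only [mem_iUnion]
        exact ⟨n, Finset.mem_univ n, hφK, hφε, hmem⟩
      refine (measure_mono h1).trans ?_
      refine (measure_biUnion_finset_le _ _).trans ?_
      rw [Finset.sum_mul]
      exact Finset.sum_le_sum fun n _ => hXle n ε hε
    · refine le_add_right ?_
      rw [← ENNReal.ofReal_mul (by positivity)]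
      refine prob_le_one.trans ?_
      rw [← ENNReal.ofReal_one]
      refine ENNReal.ofReal_le_ofReal ?_
      rw [div_mul_eq_mul_div, one_mul, le_div_iff₀ (by positivity), one_mul]
      exact pow_le_pow_left₀ hc.le hεc.le d

/-- the length of the cluster and the difference of the inverses -/
lemma gap_conv (hS : Sf μ i a) (hB : IsB μ i b) (hmp : ∀ j, m ≤ j → ∀ φ, 0 < Ev a (b φ) j)
    (hmq : m ≤ q) (hpos : ∀ φ : C(M, ℝ), 0 < ∫ x, Real.exp (φ x) ∂μ) {K : Set C(M, ℝ)}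
    (hK : IsCompact K) : ∃ Z : ℝ, 0 < Z ∧ ∀ φ ∈ K,
      iv a b q φ - iv a b (q + r + 1) φ ≤ Z * (((∫ x, Real.exp (φ x) ∂μ) *
        Ev a (b φ) (q + r + 1) - (∫ x, Real.exp (φ x) ∂μ) * Ev a (b φ) q) / (4 * Real.pi)) := by
  obtain ⟨hF, hcmp, -⟩ := forms μ i a b hS hB
  obtain ⟨hnn, hmono, -, -, -⟩ := tLip M μ H a b hF hcmp
  obtain ⟨R, hR⟩ := hK.isBounded.exists_norm_le
  obtain ⟨B, hB0, Z, hZ0, hBZ⟩ := ev_bds μ hF hcmp hmp (q + r) R
  have hA : Continuous fun φ : C(M, ℝ) => (∫ x, Real.exp (φ x) ∂μ)⁻¹ :=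
    ((Pool.Agent.Y689.QR.int_cont μ).comp Pool.Agent.Y689.QR.exp_cont).inv₀
      fun φ => (hpos φ).ne'
  obtain ⟨Y, hY⟩ := hK.exists_bound_of_continuousOn hA.continuousOn
  refine ⟨(|Y| + 1) * B ^ 2 * (4 * Real.pi), by positivity, fun φ hφ => ?_⟩
  obtain ⟨hB1, -⟩ := hBZ φ (hR φ hφ)
  have h1 := hmp q hmq φ
  have h2 := hmp (q + r + 1) (by omega) φ
  have h3 := hmono φ q (q + r + 1) (by omega)
  have h4 := hB1 q hmq
  have h5 := hB1 (q + r + 1) (by omega)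
  have h6 := hY φ hφ
  have h7 := hpos φ
  obtain ⟨A, hAd⟩ : ∃ A, A = ∫ x, Real.exp (φ x) ∂μ := ⟨_, rfl⟩
  rw [← hAd] at h6 h7 ⊢
  rw [Real.norm_eq_abs, abs_of_pos (inv_pos.2 h7)] at h6
  have h8 : iv a b q φ - iv a b (q + r + 1) φ =
      (Ev a (b φ) (q + r + 1) - Ev a (b φ) q) * (iv a b q φ * iv a b (q + r + 1) φ) := by
    unfold iv
    field_simp
  have h9 : iv a b q φ * iv a b (q + r + 1) φ ≤ B * B :=
    mul_le_mul h4 h5 (inv_pos.2 h2).le hB0.le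
  have h10 : 1 ≤ (|Y| + 1) * A := by
    have h11 : A⁻¹ ≤ |Y| + 1 := by linarith [le_abs_self Y]
    have h12 : A⁻¹ * A ≤ (|Y| + 1) * A := mul_le_mul_of_nonneg_right h11 h7.le
    rwa [inv_mul_cancel₀ h7.ne'] at h12
  rw [h8]
  have h13 : (|Y| + 1) * B ^ 2 * (4 * Real.pi) *
      ((A * Ev a (b φ) (q + r + 1) - A * Ev a (b φ) q) / (4 * Real.pi)) =
      ((|Y| + 1) * A) * ((Ev a (b φ) (q + r + 1) - Ev a (b φ) q) * (B * B)) := by
    have : (4 * Real.pi) ≠ 0 := by positivity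
    field_simp
  rw [h13]
  have h14 : 0 ≤ Ev a (b φ) (q + r + 1) - Ev a (b φ) q := by linarith
  calc (Ev a (b φ) (q + r + 1) - Ev a (b φ) q) * (iv a b q φ * iv a b (q + r + 1) φ) ≤
      (Ev a (b φ) (q + r + 1) - Ev a (b φ) q) * (B * B) := mul_le_mul_of_nonneg_left h9 h14
    _ = 1 * ((Ev a (b φ) (q + r + 1) - Ev a (b φ) q) * (B * B)) := (one_mul _).symm
    _ ≤ _ := mul_le_mul_of_nonneg_right h10 (by positivity)

end abs

variable {M : Type} [MetricSpace M] [CompactSpace M] [MeasurableSpace M] [BorelSpace M]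
  {μ : Measure M} {D : Data M} [Nonempty M]

/-- the products of the eigenfunctions of a surface -/
def RichS (μ : Measure M) (D : Data M) (r d : ℕ) : Prop :=
  ∀ (_ : IsFiniteMeasure μ) (i : HF D μ →L[ℝ] Lp ℝ 2 μ) (a : HF D μ →L[ℝ] HF D μ →L[ℝ] ℝ)
    (b : C(M, ℝ) → HF D μ →L[ℝ] HF D μ →L[ℝ] ℝ), Sf μ i a → (∀ v, i v = v.1.fst) →
    (∀ u v, a u v = inner ℝ u.1.snd v.1.snd) → IsB μ i b → Rich μ i a b r d

/-- **the bound on compact sets** -/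
theorem cl_cpt (hpl : UC.StPlaneD) (hcell : UC.StCellD) (hD : D.IsSurf μ) {r d : ℕ} (hd : 0 < d)
    (hrich : RichS μ D r d)
    [MeasurableSpace C(M, ℝ)] [BorelSpace C(M, ℝ)] {P : Measure C(M, ℝ)} [IsProbabilityMeasure P]
    {S : Set C(M, ℝ)} (hS : Dense (Submodule.span ℝ S : Set C(M, ℝ)))
    (hP : ∀ h : Fin d → C(M, ℝ), (∀ j, h j ∈ S) → LinearIndependent ℝ h → UC.BdDirD P h)
    {K : Set C(M, ℝ)} (hK : IsCompact K) (x : C(M, ℝ) → ℕ → ℝ)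
    (hx : ∀ φ, ∃ (u : ℕ → M → ℝ) (lam : ℕ → ℝ),
      EigBasis (D.conf fun x => Real.exp (φ x)) (wm μ fun x => Real.exp (φ x)) u lam ∧
        ∀ j, x φ j = (wm μ fun y => Real.exp (φ y)).real univ * lam j / (4 * Real.pi))
    {q : ℕ} (hq : ∃ φ, 0 < x φ q) :
    ∃ C : ℝ, ∀ ε > 0, P (K ∩ {φ | x φ (q + r + 1) - x φ q ≤ ε}) ≤ ENNReal.ofReal (C * ε ^ d) := by
  obtain ⟨hf, hcs, i, a, b, hSf, hi, ha, hB, hpos, hEv⟩ := setup μ D hD
  have hxE : ∀ φ j, x φ j = (∫ x, Real.exp (φ x) ∂μ) * Ev a (b φ) j / (4 * Real.pi) := by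
    intro φ j
    obtain ⟨u, lam, hu, hl⟩ := hx φ
    rw [hl, hEv φ u lam hu]
  have hpi : 0 < 4 * Real.pi := by positivity
  have hq' : ∃ φ, 0 < Ev a (b φ) q := by
    obtain ⟨φ, hφ⟩ := hq
    refine ⟨φ, ?_⟩
    rw [hxE, div_pos_iff_of_pos_right hpi] at hφ
    exact (pos_iff_pos_of_mul_pos hφ).1 (hpos φ)
  obtain ⟨m, hmq, hm0, hmp⟩ := first_pos hSf hB hq'
  obtain ⟨C, hC, hCle⟩ := gap_cl (r := r) hpl hcell hSf hB hm0 hmp hmq hd
    (hrich hf i a b hSf hi ha hB) hS hP hK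
  obtain ⟨Z, hZ0, hZ⟩ := gap_conv (r := r) hSf hB hmp hmq hpos hK
  refine ⟨C.toReal * Z ^ d, fun ε hε => ?_⟩
  have h1 : K ∩ {φ | x φ (q + r + 1) - x φ q ≤ ε} ⊆
      K ∩ {φ | iv a b q φ - iv a b (q + r + 1) φ ≤ Z * ε} := by
    rintro φ ⟨hφK, hφε⟩
    refine ⟨hφK, ?_⟩
    have h2 := hZ φ hφK
    rw [sub_div, ← hxE, ← hxE] at h2
    exact h2.trans (mul_le_mul_of_nonneg_left hφε hZ0.le)
  refine (measure_mono h1).trans ((hCle (Z * ε) (by positivity)).trans (le_of_eq ?_))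
  rw [← ENNReal.ofReal_toReal hC, ← ENNReal.ofReal_mul ENNReal.toReal_nonneg,
    ENNReal.toReal_ofReal ENNReal.toReal_nonneg]
  congr 1
  rw [mul_pow]
  ring

end Pool.Agent.H23.CL
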