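import Pool.Agent.H23.CL.Corr
import Pool.Graph.R_seed8.Y264.QR.EigF

/-!
# Clusters of levels: local versions
-/

set_option autoImplicit false
set_option linter.unusedSectionVars false

open Set Filter Topology MeasureTheory
open scoped ENNReal
open Pool.Agent.Y262.QE Pool.Agent.Y264.QR Q101.QG
open Pool.Agent.Q233 Pool.Agent.Q233.GLV

noncomputable section

namespace Pool.Agent.H23.CL

open Pool.Agent.H23.LR

section abs

variable {M : Type} [MetricSpace M] [CompactSpace M] [MeasurableSpace M] [BorelSpace M]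
  {μ : Measure M} [IsFiniteMeasure μ] {H : Type} [NormedAddCommGroup H] [InnerProductSpace ℝ H]
  {i : H →L[ℝ] Lp ℝ 2 μ} {a : H →L[ℝ] H →L[ℝ] ℝ} {b : C(M, ℝ) → H →L[ℝ] H →L[ℝ] ℝ}
  {m q r d : ℕ}

/-- the products of `r + 2` independent eigenvectors of an eigenvalue at `φ` span a space of dimension
greater than `d` -/
def RichAt (μ : Measure M) (i : H →L[ℝ] Lp ℝ 2 μ) (a : H →L[ℝ] H →L[ℝ] ℝ)
    (b : C(M, ℝ) → H →L[ℝ] H →L[ℝ] ℝ) (r d : ℕ) (φ : C(M, ℝ)) : Prop :=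
  ∀ (E : ℝ) (v : Fin (r + 2) → H), 0 < E → LinearIndependent ℝ v →
    (∀ j w, a (v j) w = E * b φ (v j) w) → ∀ A : Submodule ℝ (Module.Dual ℝ (Ix r → ℝ)),
    (∀ f ∈ A, ∀ᵐ x ∂μ, f (fun p => (i (v p.1) : M → ℝ) x * (i (v p.2) : M → ℝ) x) = 0) →
      Module.finrank ℝ A + (d + 1) ≤ (r + 2) ^ 2

/-- **independent directions at a multiple eigenvalue** -/
theorem dir_on [CompleteSpace H] [Nonempty M] (hS : Sf μ i a) (hB : IsB μ i b)
    (hmp : ∀ j, m ≤ j → ∀ φ, 0 < Ev a (b φ) j) (hmq : m ≤ q)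
    {hs : ℕ → C(M, ℝ)} (hsd : Dense (Submodule.span ℝ (range hs) : Set C(M, ℝ))) (φ : C(M, ℝ))
    (hrich : RichAt μ i a b r d φ)
    (u : ℕ → H) (hu : Tp a b (q + r) φ u) (heq : Ev a (b φ) q = Ev a (b φ) (q + r + 1)) :
    ∃ n : Fin d → ℕ, ∀ z : EuclideanSpace ℝ (Fin d), ‖z‖ = 1 →
      ∃ x ∈ US r, 0 < xs (kf b (sp (fun j => hs (n j)) z * ex φ)) (fun j => Ev a (b φ) j) u q x := by
  obtain ⟨hF, hcmp, -⟩ := forms μ i a b hS hB
  obtain ⟨hnn, hmono, -, -, -⟩ := tLip M μ H a b hF hcmp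
  obtain ⟨E, hE⟩ : ∃ E, E = Ev a (b φ) q := ⟨_, rfl⟩
  have hE0 : 0 < E := by rw [hE]; exact hmp q hmq φ
  have hEj : ∀ j : Fin (r + 2), Ev a (b φ) (q + (j : ℕ)) = E := by
    intro j
    rw [hE]
    refine le_antisymm ?_ (hmono φ _ _ (by omega))
    rw [heq]
    exact hmono φ _ _ (by have := j.2; omega)
  obtain ⟨v, hv⟩ : ∃ v : Fin (r + 2) → H,
      v = fun j : Fin (r + 2) => nv (fun j => Ev a (b φ) j) u (q + (j : ℕ)) := ⟨_, rfl⟩
  have hvlin : LinearIndependent ℝ v := by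
    rw [hv]
    exact nv_lin hu hmp hmq
  have hveig : ∀ j w, a (v j) w = E * b φ (v j) w := by
    intro j w
    rw [hv]
    simp only [nv, map_smul, smul_apply, smul_eq_mul]
    rw [hu.eig _ (by have := j.2; omega), hEj]
    ring
  obtain ⟨T, hT⟩ : ∃ T : C(M, ℝ) → Ix r → ℝ, T = fun h p => kf b (h * ex φ) (v p.1) (v p.2) :=
    ⟨_, rfl⟩
  -- the annihilator
  have hann : ∀ f ∈ (Submodule.span ℝ (range fun k => T (hs k))).dualAnnihilator, ∀ᵐ x ∂μ,
      f (fun p => (i (v p.1) : M → ℝ) x * (i (v p.2) : M → ℝ) x) = 0 := by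
    intro f hf
    have hf1 : ∀ k, f (T (hs k)) = 0 := fun k =>
      (Submodule.mem_dualAnnihilator f).1 hf _ (Submodule.subset_span ⟨k, rfl⟩)
    have hfs : ∀ w : Ix r → ℝ, f w = ∑ p, w p * f (Pi.single p 1) := by
      intro w
      rw [LinearMap.pi_apply_eq_sum_univ]
      refine Finset.sum_congr rfl fun p _ => ?_
      rw [smul_eq_mul]
      congr 2
      funext l
      rw [Pi.single_apply]
      by_cases hpl : p = l
      · rw [if_pos hpl, if_pos hpl.symm]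
      · rw [if_neg hpl, if_neg (Ne.symm hpl)]
    have hint : Integrable (fun x => Real.exp (φ x) *
        f (fun p => (i (v p.1) : M → ℝ) x * (i (v p.2) : M → ℝ) x)) μ := by
      have h1 : (fun x => Real.exp (φ x) *
          f (fun p => (i (v p.1) : M → ℝ) x * (i (v p.2) : M → ℝ) x)) = fun x => ∑ p : Ix r,
          (Real.exp (φ x) * ((i (v p.1) : M → ℝ) x * (i (v p.2) : M → ℝ) x)) *
            f (Pi.single p 1) := by
        funext x
        rw [hfs, Finset.mul_sum]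
        refine Finset.sum_congr rfl fun p _ => ?_
        ring
      rw [h1]
      exact integrable_finsetSum _ fun p _ => (od_integrable φ (v p.1) (v p.2)).mul_const _
    have h1 := RSP.zero_of_total μ hint (range hs) hsd (by
      rintro _ ⟨k, rfl⟩
      rw [← hf1 k, hfs]
      have h2 : ∀ p : Ix r, T (hs k) p = ∫ x, hs k x * (Real.exp (φ x) *
          ((i (v p.1) : M → ℝ) x * (i (v p.2) : M → ℝ) x)) ∂μ := by
        intro p
        rw [hT]
        simp only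
        rw [kf_apply hB]
        refine integral_congr_ae (Eventually.of_forall fun x => ?_)
        simp only [Pool.Agent.Q233.GLV.ex, ContinuousMap.mul_apply, ContinuousMap.coe_mk]
        ring
      simp only [h2, ← integral_mul_const]
      rw [← integral_finsetSum _ fun p _ => ?_]
      · refine integral_congr_ae (Eventually.of_forall fun x => ?_)
        simp only
        rw [hfs, Finset.mul_sum, Finset.mul_sum]
        refine Finset.sum_congr rfl fun p _ => ?_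
        ring
      · refine Integrable.mul_const ?_ _
        have h3 := kf_int (i := i) (hs k * ex φ) (v p.1) (v p.2)
        refine h3.congr (Eventually.of_forall fun x => ?_)
        simp only [Pool.Agent.Q233.GLV.ex, ContinuousMap.mul_apply, ContinuousMap.coe_mk]
        ring)
    filter_upwards [h1] with x hx
    exact (mul_eq_zero.1 hx).resolve_left (Real.exp_pos _).ne'
  have hdim : d + 1 ≤ Module.finrank ℝ (Submodule.span ℝ (range fun k => T (hs k))) := by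
    have h1 := hrich E v hE0 hvlin hveig _ hann
    have h2 := Subspace.finrank_add_finrank_dualAnnihilator_eq
      (Submodule.span ℝ (range fun k => T (hs k)))
    rw [Module.finrank_pi, Fintype.card_prod, Fintype.card_fin] at h2
    rw [sq] at h1
    omega
  obtain ⟨n, hn⟩ := choose_dir (fun k => T (hs k)) (fun p : Ix r => if p.1 = p.2 then (1 : ℝ) else 0)
    hdim
  refine ⟨n, fun z hz => ?_⟩
  by_contra hcon
  push Not at hcon
  obtain ⟨t, ht⟩ := scal (fun j l => kf b (sp (fun j => hs (n j)) z * ex φ) (v j) (v l))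
    (fun j l => kf_symm hB _ _ _) (fun x hx => by
      have h1 := hcon x hx
      unfold xs at h1
      rw [cv_form] at h1
      rw [hv]
      linarith)
  refine hn (fun j => z j) (fun h0 => ?_) t ?_
  · have h1 : z = 0 := by
      ext j
      exact congrFun h0 j
    rw [h1, norm_zero] at hz
    exact zero_ne_one hz
  · funext p
    rw [Finset.sum_apply]
    have h1 := ht p.1 p.2
    rw [kf_sp hB] at h1
    simp only [Pi.smul_apply, smul_eq_mul]
    rw [hT]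
    simp only
    rw [h1]
    split_ifs <;> ring

/-- **the covering of a compact set** -/
theorem cover_on [CompleteSpace H] (hS : Sf μ i a) (hB : IsB μ i b)
    (hmp : ∀ j, m ≤ j → ∀ φ, 0 < Ev a (b φ) j) (hmq : m ≤ q) (hs : ℕ → C(M, ℝ))
    {K : Set C(M, ℝ)} (hne : ∀ φ ∈ K, ∀ u, Tp a b (q + r) φ u → Ev a (b φ) q = Ev a (b φ) (q + r + 1) →
      ∃ n : Fin d → ℕ, ∀ z : EuclideanSpace ℝ (Fin d), ‖z‖ = 1 →
        ∃ x ∈ US r, 0 < xs (kf b (sp (fun j => hs (n j)) z * ex φ)) (fun j => Ev a (b φ) j) u q x)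
    (hK : IsCompact K) :
    ∃ (N : ℕ) (c : ℝ), 0 < c ∧ ∀ φ ∈ K, iv a b q φ - iv a b (q + r + 1) φ ≤ c →
      ∃ n : Fin d → Fin N, φ ∈ Fd a b q r (fun j => hs (n j)) c := by
  obtain ⟨hF, hcmp, -⟩ := forms μ i a b hS hB
  by_contra hcon
  push Not at hcon
  have h1 : ∀ n : ℕ, ∃ φ ∈ K, iv a b q φ - iv a b (q + r + 1) φ ≤ 1 / ((n : ℝ) + 1) ∧
      ∀ l : Fin d → Fin n, φ ∉ Fd a b q r (fun j => hs (l j)) (1 / ((n : ℝ) + 1)) :=
    fun n => hcon n (1 / ((n : ℝ) + 1)) (by positivity)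
  choose φs hφK hφδ hφF using h1
  obtain ⟨φ, hφ, s, hs1, hs2⟩ := hK.tendsto_subseq hφK
  choose us hus using fun n => tp_ex hF (q + r) (φs (s n))
  obtain ⟨s', u, hs3, hu, hlim⟩ := cl hS hB hs2 hus
  have hφl : Tendsto (fun n => φs (s (s' n))) atTop (𝓝 φ) := hs2.comp hs3.tendsto_atTop
  have hmono' : StrictMono fun n => s (s' n) := hs1.comp hs3
  have hinf : Tendsto (fun n : ℕ => 1 / (((s (s' n) : ℕ) : ℝ) + 1)) atTop (𝓝 0) :=
    tendsto_one_div_add_atTop_nhds_zero_nat.comp (hs1.tendsto_atTop.comp hs3.tendsto_atTop)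
  have hiv : iv a b q φ - iv a b (q + r + 1) φ ≤ 0 := by
    have h2 : Tendsto (fun n => iv a b q (φs (s (s' n))) - iv a b (q + r + 1) (φs (s (s' n)))) atTop
        (𝓝 (iv a b q φ - iv a b (q + r + 1) φ)) :=
      (((iv_cont hF μ hcmp hmp hmq).tendsto φ).comp hφl).sub
        (((iv_cont hF μ hcmp hmp (by omega : m ≤ q + r + 1)).tendsto φ).comp hφl)
    exact le_of_tendsto_of_tendsto' h2 hinf fun n => hφδ _
  have heq : Ev a (b φ) q = Ev a (b φ) (q + r + 1) := by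
    obtain ⟨hnn, hmono, -, -, -⟩ := tLip M μ H a b hF hcmp
    refine le_antisymm (hmono φ q (q + r + 1) (by omega)) ?_
    have h3 : (Ev a (b φ) q)⁻¹ ≤ (Ev a (b φ) (q + r + 1))⁻¹ := by
      have : iv a b q φ ≤ iv a b (q + r + 1) φ := by linarith
      exact this
    exact (inv_le_inv₀ (hmp q hmq φ) (hmp (q + r + 1) (by omega) φ)).1 h3
  obtain ⟨l, hl⟩ := hne φ hφ u hu heq
  -- a bound for the indices
  obtain ⟨L, hL⟩ : ∃ L : ℕ, ∀ j, l j < L := by
    refine ⟨(∑ j, l j) + 1, fun j => Nat.lt_succ_of_le ?_⟩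
    exact Finset.single_le_sum (f := l) (fun _ _ => Nat.zero_le _) (Finset.mem_univ j)
  have hz : ∀ n, ∃ z : EuclideanSpace ℝ (Fin d), L ≤ s (s' n) → ‖z‖ = 1 ∧ ∀ x ∈ US r,
      xs (kf b (sp (fun j => hs (l j)) z * ex (φs (s (s' n)))))
        (fun j => Ev a (b (φs (s (s' n)))) j) (us (s' n)) q x ≤ 1 / (((s (s' n) : ℕ) : ℝ) + 1) := by
    intro n
    by_cases hn : L ≤ s (s' n)
    · have h2 := hφF (s (s' n)) (fun j => ⟨l j, (hL j).trans_le hn⟩)
      by_contra hcon2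
      push Not at hcon2
      refine h2 ⟨us (s' n), hus (s' n), fun z hz => ?_⟩
      obtain ⟨-, h3⟩ := hcon2 z
      obtain ⟨x, hx, h4⟩ := h3 hz
      exact ⟨x, hx, h4.le⟩
    · exact ⟨0, fun h => absurd h hn⟩
  choose zn hzn using hz
  have hev : ∀ᶠ n in atTop, L ≤ s (s' n) :=
    (hs1.tendsto_atTop.comp hs3.tendsto_atTop).eventually (eventually_ge_atTop L)
  obtain ⟨n₀, hn₀⟩ := eventually_atTop.1 hev
  obtain ⟨z, hz, t, ht, hzt⟩ := (isCompact_sphere (0 : EuclideanSpace ℝ (Fin d)) 1).tendsto_subseq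
    (x := fun n => zn (n + n₀)) (fun n => by
      rw [mem_sphere_zero_iff_norm]
      exact (hzn (n + n₀) (hn₀ _ (by omega))).1)
  rw [mem_sphere_zero_iff_norm] at hz
  obtain ⟨x, hx, hpos⟩ := hl z hz
  have ht' : Tendsto (fun n => t n + n₀) atTop atTop :=
    tendsto_atTop_mono (fun n => Nat.le_add_right _ _) ht.tendsto_atTop
  have h2 := xs_tend (r := r) (xn := fun _ => x) hS hB hmp hmq (hφl.comp ht')
    (us := fun n => us (s' (t n + n₀))) (fun j hj => (hlim j hj).comp ht') tendsto_const_nhds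
    (((sp_cont fun j => hs (l j)).tendsto z).comp hzt)
  have h3 := le_of_tendsto_of_tendsto' h2 (hinf.comp ht') fun n =>
    (hzn (t n + n₀) (hn₀ _ (by omega))).2 x hx
  linarith

/-- **the bound, abstract form** -/
theorem gap_on [CompleteSpace H] [Nonempty M] (hpl : UC.StPlaneD) (hcell : UC.StCellD)
    (hS : Sf μ i a) (hB : IsB μ i b)
    (hm0 : ∀ j, j < m → ∀ φ, Ev a (b φ) j = 0) (hmp : ∀ j, m ≤ j → ∀ φ, 0 < Ev a (b φ) j)
    (hmq : m ≤ q) (hd : 0 < d) {K : Set C(M, ℝ)}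
    (hrich : ∀ φ ∈ K, RichAt μ i a b r d φ)
    [MeasurableSpace C(M, ℝ)] [BorelSpace C(M, ℝ)]
    {P : Measure C(M, ℝ)} [IsProbabilityMeasure P] {S : Set C(M, ℝ)}
    (hSd : Dense (Submodule.span ℝ S : Set C(M, ℝ)))
    (hP : ∀ h : Fin d → C(M, ℝ), (∀ j, h j ∈ S) → LinearIndependent ℝ h → UC.BdDirD P h)
    (hK : IsCompact K) :
    ∃ C : ENNReal, C ≠ ⊤ ∧ ∀ ε > 0, P (K ∩ {φ | iv a b q φ - iv a b (q + r + 1) φ ≤ ε}) ≤
      C * ENNReal.ofReal (ε ^ d) := by
  obtain ⟨hs, hsS, hsd⟩ := ctb_total hSd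
  obtain ⟨N, c, hc, hcov⟩ := cover_on (d := d) hS hB hmp hmq hs
    (fun φ hφ u hu heq => dir_on hS hB hmp hmq hsd φ (hrich φ hφ) u hu heq) hK
  obtain ⟨R, hR⟩ := hK.isBounded.exists_norm_le
  choose X hX hXle using fun n : Fin d → Fin N => dirs_bd (r := r) (c := c) (R := R)
    (h := fun j => hs (n j)) hpl hcell hS hB hm0 hmp hmq hd (hP _ fun j => hsS (n j)) hK.isClosed
    hR hc
  refine ⟨ENNReal.ofReal (1 / c ^ d) + ∑ n : Fin d → Fin N, X n, ?_, ?_⟩
  · refine ENNReal.add_ne_top.2 ⟨ENNReal.ofReal_ne_top, ?_⟩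
    exact (ENNReal.sum_lt_top.2 fun n _ => (hX n).lt_top).ne
  · intro ε hε
    rw [add_mul]
    rcases le_or_gt ε c with hεc | hεc
    · refine le_add_left ?_
      have h1 : K ∩ {φ | iv a b q φ - iv a b (q + r + 1) φ ≤ ε} ⊆
          ⋃ n ∈ (Finset.univ : Finset (Fin d → Fin N)),
          K ∩ ({φ | iv a b q φ - iv a b (q + r + 1) φ ≤ ε} ∩
            Fd a b q r (fun j => hs (n j)) c) := by
        rintro φ ⟨hφK, hφε⟩
        obtain ⟨n, hmem⟩ := hcov φ hφK (le_trans hφε hεc)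
        simp only [mem_iUnion]
        exact ⟨n, Finset.mem_univ n, hφK, hφε, hmem⟩
      refine (measure_mono h1).trans ?_
      refine (measure_biUnion_finset_le _ _).trans ?_
      rw [Finset.sum_mul]
      exact Finset.sum_le_sum fun n _ => hXle n ε hε
    · refine le_add_right ?_
      rw [← ENNReal.ofReal_mul (by positivity)]
      refine prob_le_one.trans ?_
      rw [← ENNReal.ofReal_one]
      refine ENNReal.ofReal_le_ofReal ?_
      rw [div_mul_eq_mul_div, one_mul, le_div_iff₀ (by positivity), one_mul]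
      exact pow_le_pow_left₀ hc.le hεc.le d

end abs

variable {M : Type} [MetricSpace M] [CompactSpace M] [MeasurableSpace M] [BorelSpace M]
  {μ : Measure M} {D : Data M} [Nonempty M]

/-- the products of the eigenfunctions of a surface, on a set of metrics -/
def RichOn (μ : Measure M) (D : Data M) (r d : ℕ) (K : Set C(M, ℝ)) : Prop :=
  ∀ (_ : IsFiniteMeasure μ) (i : HF D μ →L[ℝ] Lp ℝ 2 μ) (a : HF D μ →L[ℝ] HF D μ →L[ℝ] ℝ)
    (b : C(M, ℝ) → HF D μ →L[ℝ] HF D μ →L[ℝ] ℝ), Sf μ i a → (∀ v, i v = v.1.fst) →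
    (∀ u v, a u v = inner ℝ u.1.snd v.1.snd) → IsB μ i b → ∀ φ ∈ K, RichAt μ i a b r d φ

/-- **the bound on compact sets** -/
theorem cpt_on (hpl : UC.StPlaneD) (hcell : UC.StCellD) (hD : D.IsSurf μ) {r d : ℕ} (hd : 0 < d)
    {K : Set C(M, ℝ)} (hrich : RichOn μ D r d K)
    [MeasurableSpace C(M, ℝ)] [BorelSpace C(M, ℝ)] {P : Measure C(M, ℝ)} [IsProbabilityMeasure P]
    {S : Set C(M, ℝ)} (hS : Dense (Submodule.span ℝ S : Set C(M, ℝ)))
    (hP : ∀ h : Fin d → C(M, ℝ), (∀ j, h j ∈ S) → LinearIndependent ℝ h → UC.BdDirD P h)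
    (hK : IsCompact K) (x : C(M, ℝ) → ℕ → ℝ)
    (hx : ∀ φ, ∃ (u : ℕ → M → ℝ) (lam : ℕ → ℝ),
      EigBasis (D.conf fun x => Real.exp (φ x)) (wm μ fun x => Real.exp (φ x)) u lam ∧
        ∀ j, x φ j = (wm μ fun y => Real.exp (φ y)).real univ * lam j / (4 * Real.pi))
    {q : ℕ} (hq : ∃ φ, 0 < x φ q) :
    ∃ C : ℝ, ∀ ε > 0, P (K ∩ {φ | x φ (q + r + 1) - x φ q ≤ ε}) ≤ ENNReal.ofReal (C * ε ^ d) := by
  obtain ⟨hf, hcs, i, a, b, hSf, hi, ha, hB, hpos, hEv⟩ := setup μ D hD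
  have hxE : ∀ φ j, x φ j = (∫ x, Real.exp (φ x) ∂μ) * Ev a (b φ) j / (4 * Real.pi) := by
    intro φ j
    obtain ⟨u, lam, hu, hl⟩ := hx φ
    rw [hl, hEv φ u lam hu]
  have hpi : 0 < 4 * Real.pi := by positivity
  have hq' : ∃ φ, 0 < Ev a (b φ) q := by
    obtain ⟨φ, hφ⟩ := hq
    refine ⟨φ, ?_⟩
    rw [hxE, div_pos_iff_of_pos_right hpi] at hφ
    exact (pos_iff_pos_of_mul_pos hφ).1 (hpos φ)
  obtain ⟨m, hmq, hm0, hmp⟩ := first_pos hSf hB hq'
  obtain ⟨C, hC, hCle⟩ := gap_on (r := r) hpl hcell hSf hB hm0 hmp hmq hd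
    (hrich hf i a b hSf hi ha hB) hS hP hK
  obtain ⟨Z, hZ0, hZ⟩ := gap_conv (r := r) hSf hB hmp hmq hpos hK
  refine ⟨C.toReal * Z ^ d, fun ε hε => ?_⟩
  have h1 : K ∩ {φ | x φ (q + r + 1) - x φ q ≤ ε} ⊆
      K ∩ {φ | iv a b q φ - iv a b (q + r + 1) φ ≤ Z * ε} := by
    rintro φ ⟨hφK, hφε⟩
    refine ⟨hφK, ?_⟩
    have h2 := hZ φ hφK
    rw [sub_div, ← hxE, ← hxE] at h2
    exact h2.trans (mul_le_mul_of_nonneg_left hφε hZ0.le)
  refine (measure_mono h1).trans ((hCle (Z * ε) (by positivity)).trans (le_of_eq ?_))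
  rw [← ENNReal.ofReal_toReal hC, ← ENNReal.ofReal_mul ENNReal.toReal_nonneg,
    ENNReal.toReal_ofReal ENNReal.toReal_nonneg]
  congr 1
  rw [mul_pow]
  ring

/-- **clusters of levels** -/
theorem all_on (hpl : UC.StPlaneD) (hcell : UC.StCellD) [ConnectedSpace M] (hD : D.IsSurf μ)
    {r d : ℕ} (hd : 0 < d) {K : Set C(M, ℝ)} (hrich : RichOn μ D r d K)
    [MeasurableSpace C(M, ℝ)] [BorelSpace C(M, ℝ)] {P : Measure C(M, ℝ)} [IsProbabilityMeasure P]
    {S : Set C(M, ℝ)} (hS : Dense (Submodule.span ℝ S : Set C(M, ℝ)))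
    (hP : ∀ h : Fin d → C(M, ℝ), (∀ j, h j ∈ S) → LinearIndependent ℝ h → UC.BdDirD P h)
    (hK : IsCompact K) {x : C(M, ℝ) → ℕ → ℝ} (hx : Lev μ D x) :
    (∀ q, ∃ C : ℝ, ∀ ε > 0,
      P (K ∩ {φ | x φ (q + (r + 1)) - x φ q ≤ ε}) ≤ ENNReal.ofReal (C * ε ^ d)) ∧
    ∀ T : ℝ, ∃ C : ℝ, ∀ ε > 0,
      ∫⁻ φ in K, crm (r + 1) T (x φ) (cube (r + 1) ε) ∂P ≤ ENNReal.ofReal (C * ε ^ d) := by
  have h2 : ∀ q, ∃ C : ℝ, ∀ ε > 0,
      P (K ∩ {φ | x φ (q + (r + 1)) - x φ q ≤ ε}) ≤ ENNReal.ofReal (C * ε ^ d) := by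
    intro q
    by_cases hq : ∃ φ, 0 < x φ q
    · exact cpt_on hpl hcell hD hd hrich hS hP hK x hx hq
    · push Not at hq
      have hq0 : ∀ φ, x φ q = 0 := fun φ => le_antisymm (hq φ) ((lev_pos hD hx φ).1 q)
      have hc : Continuous fun φ => x φ (q + (r + 1)) := lev_c μ D hD x hx (q + (r + 1))
      rcases K.eq_empty_or_nonempty with h0 | h0
      · refine ⟨0, fun ε _ => ?_⟩
        rw [h0, empty_inter, measure_empty]
        exact zero_le
      · obtain ⟨φ₁, hφ₁, hmin⟩ := hK.exists_isMinOn h0 hc.continuousOn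
        have hpos := (lev_pos hD hx φ₁).2 (q + (r + 1)) (by omega)
        refine ⟨1 / (x φ₁ (q + (r + 1))) ^ d, fun ε hε => ?_⟩
        rcases lt_or_ge ε (x φ₁ (q + (r + 1))) with h | h
        · have hempty : K ∩ {φ | x φ (q + (r + 1)) - x φ q ≤ ε} = ∅ := by
            rw [eq_empty_iff_forall_notMem]
            rintro φ ⟨hφ, hle⟩
            have h3 : x φ (q + (r + 1)) - x φ q ≤ ε := hle
            rw [hq0, sub_zero] at h3
            have h4 : x φ₁ (q + (r + 1)) ≤ x φ (q + (r + 1)) := hmin hφ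
            linarith
          rw [hempty, measure_empty]
          exact zero_le
        · refine prob_le_one.trans ?_
          rw [← ENNReal.ofReal_one]
          refine ENNReal.ofReal_le_ofReal ?_
          rw [div_mul_eq_mul_div, one_mul, le_div_iff₀ (by positivity), one_mul]
          exact pow_le_pow_left₀ hpos.le h d
  exact ⟨h2, fun T => corr_zero hK.isClosed.measurableSet
    (fun j => (lev_c μ D hD x hx j).measurable) (lev_mono' hx) h2 (few hD x hx hK T)⟩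

/-- **clusters of levels, law carried by a compact set** -/
theorem univ_on (hpl : UC.StPlaneD) (hcell : UC.StCellD) [ConnectedSpace M] (hD : D.IsSurf μ)
    {r d : ℕ} (hd : 0 < d) {K : Set C(M, ℝ)} (hrich : RichOn μ D r d K)
    [MeasurableSpace C(M, ℝ)] [BorelSpace C(M, ℝ)] {P : Measure C(M, ℝ)} [IsProbabilityMeasure P]
    {S : Set C(M, ℝ)} (hS : Dense (Submodule.span ℝ S : Set C(M, ℝ)))
    (hP : ∀ h : Fin d → C(M, ℝ), (∀ j, h j ∈ S) → LinearIndependent ℝ h → UC.BdDirD P h)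
    (hK : IsCompact K) (hK0 : P Kᶜ = 0) {x : C(M, ℝ) → ℕ → ℝ}
    (hx : Lev μ D x) :
    (∀ q, ∃ C : ℝ, ∀ ε > 0,
      P {φ | x φ (q + (r + 1)) - x φ q ≤ ε} ≤ ENNReal.ofReal (C * ε ^ d)) ∧
    ∀ T : ℝ, ∃ C : ℝ, ∀ ε > 0,
      ∫⁻ φ, crm (r + 1) T (x φ) (cube (r + 1) ε) ∂P ≤ ENNReal.ofReal (C * ε ^ d) := by
  obtain ⟨g1, g2⟩ := all_on hpl hcell hD hd hrich hS hP hK hx
  have hres : P.restrict K = P := Measure.restrict_eq_self_of_ae_mem (by
    rw [ae_iff]
    exact hK0)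
  refine ⟨fun q => ?_, fun T => ?_⟩
  · obtain ⟨C, hC⟩ := g1 q
    refine ⟨C, fun ε hε => le_trans (le_of_eq ?_) (hC ε hε)⟩
    have h1 : MeasurableSet {φ | x φ (q + (r + 1)) - x φ q ≤ ε} :=
      measurableSet_le ((lev_c μ D hD x hx (q + (r + 1))).measurable.sub
        (lev_c μ D hD x hx q).measurable) measurable_const
    rw [inter_comm, ← Measure.restrict_apply h1, hres]
  · obtain ⟨C, hC⟩ := g2 T
    refine ⟨C, fun ε hε => ?_⟩
    have := hC ε hε
    rwa [hres] at this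

end Pool.Agent.H23.CL
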