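import Pool.Agent.H23.LR.Cone

/-!
# Clusters of levels: the trial vectors
-/

set_option autoImplicit false
set_option linter.unusedSectionVars false

open Set Filter Topology MeasureTheory
open Pool.Agent.Y262.QE Pool.Agent.Y264.QR Q101.QG
open Pool.Agent.Q233 Pool.Agent.Q233.GLV

noncomputable section

namespace Pool.Agent.H23.CL

open Pool.Agent.H23.LR

section forms

variable {H : Type} [NormedAddCommGroup H] [InnerProductSpace ℝ H]
  {a b : H →L[ℝ] H →L[ℝ] ℝ} {E : ℕ → ℝ} {q r : ℕ} {u : ℕ → H} {m : ℕ}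

/-- the combination of the normalised vectors of the cluster -/
def cv (E : ℕ → ℝ) (u : ℕ → H) (q : ℕ) {r : ℕ} (x : Fin (r + 2) → ℝ) : H :=
  ∑ i, x i • nv E u (q + (i : ℕ))

lemma cv_left (k : H →L[ℝ] H →L[ℝ] ℝ) (x : Fin (r + 2) → ℝ) (v : H) :
    k (cv E u q x) v = ∑ i, x i * k (nv E u (q + (i : ℕ))) v := sum_form k _ _ _ _

lemma cv_right (k : H →L[ℝ] H →L[ℝ] ℝ) (x : Fin (r + 2) → ℝ) (v : H) :
    k v (cv E u q x) = ∑ i, x i * k v (nv E u (q + (i : ℕ))) := by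
  unfold cv
  rw [map_sum]
  refine Finset.sum_congr rfl fun i _ => ?_
  rw [map_smul, smul_eq_mul]

lemma cv_form (k : H →L[ℝ] H →L[ℝ] ℝ) (x : Fin (r + 2) → ℝ) :
    k (cv E u q x) (cv E u q x) =
      ∑ i, ∑ j, x i * x j * k (nv E u (q + (i : ℕ))) (nv E u (q + (j : ℕ))) := by
  rw [cv_left]
  refine Finset.sum_congr rfl fun i _ => ?_
  rw [cv_right, Finset.mul_sum]
  refine Finset.sum_congr rfl fun j _ => ?_
  ring

/-- the trial vectors -/
def tc (E : ℕ → ℝ) (u : ℕ → H) (q : ℕ) {r : ℕ} (x : Fin (r + 2) → ℝ) (j : ℕ) : H :=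
  if j = q then cv E u q x else nv E u j

lemma cv_a (hu : Tup a b E (q + r) u) (hE : ∀ j, m ≤ j → j < q + r + 2 → 0 < E j) (hm : m ≤ q)
    {x : Fin (r + 2) → ℝ} (hx : ∑ i, x i ^ 2 = 1) : a (cv E u q x) (cv E u q x) = 1 := by
  rw [cv_form, ← hx]
  refine Finset.sum_congr rfl fun i _ => ?_
  rw [Finset.sum_eq_single i]
  · rw [nv_a hu hE (by omega) (by omega) (by omega), if_pos rfl]
    ring
  · intro j _ hji
    rw [nv_a hu hE (by omega) (by omega) (by omega), if_neg, mul_zero]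
    intro h
    exact hji (Fin.ext (by omega))
  · intro h
    exact absurd (Finset.mem_univ _) h

lemma cv_a0 (hu : Tup a b E (q + r) u) (hE : ∀ j, m ≤ j → j < q + r + 2 → 0 < E j)
    {x : Fin (r + 2) → ℝ} {j : ℕ} (hj : m ≤ j) (hj' : j < q) :
    a (nv E u j) (cv E u q x) = 0 := by
  rw [cv_right]
  refine Finset.sum_eq_zero fun i _ => ?_
  rw [nv_a hu hE hj (by omega) (by omega), if_neg (by omega), mul_zero]

lemma cv_a0' (hu : Tup a b E (q + r) u) (hE : ∀ j, m ≤ j → j < q + r + 2 → 0 < E j) (hm : m ≤ q)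
    {x : Fin (r + 2) → ℝ} {j : ℕ} (hj' : j < q) :
    a (cv E u q x) (nv E u j) = 0 := by
  rw [cv_left]
  refine Finset.sum_eq_zero fun i _ => ?_
  rw [nv_a hu hE (by omega) (by omega) (by omega), if_neg (by omega), mul_zero]

lemma tc_a (hu : Tup a b E (q + r) u) (hE : ∀ j, m ≤ j → j < q + r + 2 → 0 < E j) (hm : m ≤ q)
    {x : Fin (r + 2) → ℝ} (hx : ∑ i, x i ^ 2 = 1) {i j : ℕ} (hi : m ≤ i) (hi' : i < q + 1)
    (hj : m ≤ j) (hj' : j < q + 1) : a (tc E u q x i) (tc E u q x j) = if i = j then 1 else 0 := by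
  unfold tc
  by_cases h1 : i = q
  · by_cases h2 : j = q
    · rw [if_pos h1, if_pos h2, if_pos (h1.trans h2.symm)]
      exact cv_a hu hE hm hx
    · rw [if_pos h1, if_neg h2, if_neg (by omega)]
      exact cv_a0' hu hE hm (by omega)
  · by_cases h2 : j = q
    · rw [if_neg h1, if_pos h2, if_neg (by omega)]
      exact cv_a0 hu hE hi (by omega)
    · rw [if_neg h1, if_neg h2]
      exact nv_a hu hE hi (by omega) (by omega)

lemma cv_b (hu : Tup a b E (q + r) u) (hE : ∀ j, m ≤ j → j < q + r + 2 → 0 < E j) (hm : m ≤ q)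
    (x : Fin (r + 2) → ℝ) :
    b (cv E u q x) (cv E u q x) = ∑ i : Fin (r + 2), x i ^ 2 * (E (q + (i : ℕ)))⁻¹ := by
  rw [cv_form]
  refine Finset.sum_congr rfl fun i _ => ?_
  rw [Finset.sum_eq_single i]
  · rw [nv_b hu hE (by omega) (by omega) (by omega), if_pos rfl]
    ring
  · intro j _ hji
    rw [nv_b hu hE (by omega) (by omega) (by omega), if_neg, mul_zero]
    intro h
    exact hji (Fin.ext (by omega))
  · intro h
    exact absurd (Finset.mem_univ _) h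

lemma cv_b_ge (hu : Tup a b E (q + r) u) (hE : ∀ j, m ≤ j → j < q + r + 2 → 0 < E j) (hm : m ≤ q)
    (hmo : ∀ j l, j ≤ l → E j ≤ E l) {x : Fin (r + 2) → ℝ} (hx : ∑ i, x i ^ 2 = 1) :
    (E (q + r + 1))⁻¹ ≤ b (cv E u q x) (cv E u q x) := by
  rw [cv_b hu hE hm]
  calc (E (q + r + 1))⁻¹ = ∑ i : Fin (r + 2), x i ^ 2 * (E (q + r + 1))⁻¹ := by
        rw [← Finset.sum_mul, hx, one_mul]
    _ ≤ _ := by
        refine Finset.sum_le_sum fun i _ => mul_le_mul_of_nonneg_left ?_ (sq_nonneg _)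
        have hi := i.2
        exact inv_anti₀ (hE _ (by omega) (by omega)) (hmo _ _ (by omega))

lemma cv_b_le (hu : Tup a b E (q + r) u) (hE : ∀ j, m ≤ j → j < q + r + 2 → 0 < E j) (hm : m ≤ q)
    {B : ℝ} (hB : ∀ j, m ≤ j → j < q + r + 2 → (E j)⁻¹ ≤ B) {x : Fin (r + 2) → ℝ}
    (hx : ∑ i, x i ^ 2 = 1) : b (cv E u q x) (cv E u q x) ≤ B := by
  rw [cv_b hu hE hm]
  calc _ ≤ ∑ i : Fin (r + 2), x i ^ 2 * B := by
        refine Finset.sum_le_sum fun i _ => mul_le_mul_of_nonneg_left ?_ (sq_nonneg _)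
        have hi := i.2
        exact hB _ (by omega) (by omega)
    _ = B := by rw [← Finset.sum_mul, hx, one_mul]

lemma sum_tc {F : H → ℝ} {x : Fin (r + 2) → ℝ} (hm : m ≤ q) :
    ∑ i : Fin (q + 1 - m), F (tc E u q x (m + i)) =
      ∑ j ∈ Finset.Ico m q, F (nv E u j) + F (cv E u q x) := by
  rw [Fin.sum_univ_eq_sum_range (fun i => F (tc E u q x (m + i))) (q + 1 - m),
    ← Finset.sum_Ico_eq_sum_range (fun j => F (tc E u q x j)) m (q + 1),
    Finset.sum_Ico_succ_top hm]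
  congr 1
  · refine Finset.sum_congr rfl fun j hj => ?_
    rw [Finset.mem_Ico] at hj
    rw [tc, if_neg (by omega)]
  · rw [tc, if_pos rfl]

/-- the derivative of the trial sum -/
def dc (k : H →L[ℝ] H →L[ℝ] ℝ) (E : ℕ → ℝ) (u : ℕ → H) (m q : ℕ) {r : ℕ}
    (x : Fin (r + 2) → ℝ) : ℝ :=
  ∑ j ∈ Finset.Ico m q, k (nv E u j) (nv E u j) + k (cv E u q x) (cv E u q x)

/-- **the lower bound of the sum of the inverse eigenvalues of a nearby form** -/
theorem one_side (sa : ∀ u v, a u v = a v u) (na : ∀ v, 0 ≤ a v v)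
    (hu : Tup a b E (q + r) u) (hE : ∀ j, m ≤ j → j < q + r + 2 → 0 < E j) (hm : m ≤ q)
    (hmo : ∀ j l, j ≤ l → E j ≤ E l)
    {b' k : H →L[ℝ] H →L[ℝ] ℝ} (sb' : ∀ u v, b' u v = b' v u)
    {e' : ℕ → H} {E' : ℕ → ℝ} (hE' : Eg a b' e' E') (h0' : ∀ j, j < m → E' j = 0)
    (hp' : ∀ j, m ≤ j → 0 < E' j) {η B : ℝ} (hη : 0 ≤ η)
    (hk : ∀ v, b v v + k v v ≤ b' v v) (hd : ∀ x y, |b' x y - b x y| ≤ η * (b x x + b y y))
    (h2 : ∀ v, b v v ≤ 2 * b' v v) (hB : ∀ j, m ≤ j → j < q + r + 2 → (E j)⁻¹ ≤ B)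
    {x : Fin (r + 2) → ℝ} (hx : ∑ i, x i ^ 2 = 1) :
    ∑ j ∈ Finset.Ico m (q + 1), (E j)⁻¹ - ((E q)⁻¹ - (E (q + r + 1))⁻¹) +
      dc k E u m q x - (q + 1 : ℝ) * (m * (η * (B + 2)) ^ 2) ≤
      ∑ j ∈ Finset.Ico m (q + 1), (E' j)⁻¹ := by
  obtain ⟨f, hf⟩ : ∃ f : Fin (q + 1 - m) → H,
      f = fun i : Fin (q + 1 - m) => tc E u q x (m + (i : ℕ)) := ⟨_, rfl⟩
  have hmn : m + (q + 1 - m) = q + 1 := by omega
  have h3 := kyfan sa na hE' (m := m) hp' sb' (q + 1 - m) f (fun i j => by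
    rw [hf]
    simp only
    rw [tc_a hu hE hm hx (by omega) (by omega) (by omega) (by omega)]
    refine if_congr ?_ rfl rfl
    rw [Fin.ext_iff]
    omega)
  rw [hmn] at h3
  refine le_trans ?_ h3
  -- the error term
  have h4 : ∀ i : Fin (q + 1 - m), ∀ j ∈ Finset.range m, (b' (f i) (e' j)) ^ 2 ≤ (η * (B + 2)) ^ 2 := by
    intro i j hj
    rw [Finset.mem_range] at hj
    have h5 : b (f i) (e' j) = 0 := by
      have h6 : ∀ l, m ≤ l → l < q + r + 2 → b (nv E u l) (e' j) = 0 := by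
        intro l hl hl'
        have h7 : a (u l) (e' j) = 0 := by rw [sa, hE'.eig, h0' j hj, zero_mul]
        rw [hu.eig l hl'] at h7
        unfold nv
        rcases mul_eq_zero.1 h7 with h8 | h8
        · exact absurd h8 (hE l hl hl').ne'
        · simp only [map_smul, smul_apply, smul_eq_mul, h8, mul_zero]
      rw [hf]
      simp only [tc]
      split_ifs with h9
      · rw [cv_left]
        refine Finset.sum_eq_zero fun l _ => ?_
        rw [h6 _ (by omega) (by omega), mul_zero]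
      · exact h6 _ (by omega) (by omega)
    have h6 : b (f i) (f i) ≤ B := by
      rw [hf]
      simp only [tc]
      split_ifs with h9
      · exact cv_b_le hu hE hm hB hx
      · rw [nv_b hu hE (by omega) (by omega) (by omega), if_pos rfl]
        exact hB _ (by omega) (by omega)
    have h7 : b (e' j) (e' j) ≤ 2 := by
      have h8 := h2 (e' j)
      rw [hE'.orth, if_pos rfl] at h8
      linarith
    have h8 := hd (f i) (e' j)
    rw [h5, sub_zero] at h8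
    have h9 : |b' (f i) (e' j)| ≤ η * (B + 2) :=
      h8.trans (mul_le_mul_of_nonneg_left (by linarith) hη)
    rw [← sq_abs]
    exact pow_le_pow_left₀ (abs_nonneg _) h9 2
  have h5 : ∀ i : Fin (q + 1 - m), b (f i) (f i) + k (f i) (f i) - m * (η * (B + 2)) ^ 2 ≤
      b' (f i) (f i) - ∑ j ∈ Finset.range m, (b' (f i) (e' j)) ^ 2 := by
    intro i
    have h6 := Finset.sum_le_sum (h4 i)
    rw [Finset.sum_const, Finset.card_range, nsmul_eq_mul] at h6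
    have h7 := hk (f i)
    linarith
  refine le_trans ?_ (Finset.sum_le_sum fun i _ => h5 i)
  rw [Finset.sum_sub_distrib, Finset.sum_add_distrib, Finset.sum_const,
    Finset.card_univ, Fintype.card_fin, nsmul_eq_mul]
  have h6 : ∑ j ∈ Finset.Ico m (q + 1), (E j)⁻¹ - ((E q)⁻¹ - (E (q + r + 1))⁻¹) ≤
      ∑ i, b (f i) (f i) := by
    rw [hf]
    simp only
    rw [sum_tc (F := fun v => b v v) hm, Finset.sum_Ico_succ_top hm]
    have h7 := cv_b_ge hu hE hm hmo hx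
    have h8 : ∑ j ∈ Finset.Ico m q, b (nv E u j) (nv E u j) = ∑ j ∈ Finset.Ico m q, (E j)⁻¹ := by
      refine Finset.sum_congr rfl fun j hj => ?_
      rw [Finset.mem_Ico] at hj
      rw [nv_b hu hE hj.1 (by omega) (by omega), if_pos rfl]
    rw [h8]
    linarith
  have h7 : ∑ i, k (f i) (f i) = dc k E u m q x := by
    rw [hf]
    simp only
    rw [sum_tc (F := fun v => k v v) hm, dc]
  rw [h7]
  have h8 : ((q + 1 - m : ℕ) : ℝ) ≤ (q + 1 : ℝ) := by
    have : q + 1 - m ≤ q + 1 := Nat.sub_le _ _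
    exact_mod_cast this
  have h9 : ((q + 1 - m : ℕ) : ℝ) * (m * (η * (B + 2)) ^ 2) ≤ (q + 1 : ℝ) * (m * (η * (B + 2)) ^ 2) :=
    mul_le_mul_of_nonneg_right h8 (by positivity)
  linarith

end forms

variable {M : Type} [MetricSpace M] [CompactSpace M] [MeasurableSpace M] [BorelSpace M]
  {μ : Measure M} [IsFiniteMeasure μ] {H : Type} [NormedAddCommGroup H] [InnerProductSpace ℝ H]
  {i : H →L[ℝ] Lp ℝ 2 μ} {a : H →L[ℝ] H →L[ℝ] ℝ} {b : C(M, ℝ) → H →L[ℝ] H →L[ℝ] ℝ} {m q r : ℕ}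

/-- **the subgradient and the cone at a conformal factor** -/
theorem ptn [CompleteSpace H] (hS : Sf μ i a) (hB : IsB μ i b)
    (hm0 : ∀ j, j < m → ∀ φ, Ev a (b φ) j = 0) (hmp : ∀ j, m ≤ j → ∀ φ, 0 < Ev a (b φ) j)
    (hmq : m ≤ q) (R : ℝ) :
    ∃ C > 0, ∃ B > 0, ∀ φ : C(M, ℝ), ‖φ‖ ≤ R → ∀ u, Tp a b (q + r) φ u →
      (∀ h : C(M, ℝ), ∀ j l, m ≤ j → j < q + r + 2 → m ≤ l → l < q + r + 2 →
        |kf b (h * ex φ) (nv (fun j => Ev a (b φ) j) u j) (nv (fun j => Ev a (b φ) j) u l)| ≤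
          ‖h‖ * B) ∧
      ∀ h : C(M, ℝ), ‖h‖ ≤ 1 / 2 →
      Sm a b m q φ + l0 (kf b (h * ex φ)) (fun j => Ev a (b φ) j) u m q - C * ‖h‖ ^ 2 ≤
        Sm a b m q (φ + h) ∧
      ∀ x : Fin (r + 2) → ℝ, ∑ i, x i ^ 2 = 1 →
        Sm a b m q φ + dc (kf b (h * ex φ)) (fun j => Ev a (b φ) j) u m q x -
          (iv a b q φ - iv a b (q + r + 1) φ) - C * ‖h‖ ^ 2 ≤ Sm a b m q (φ + h) := by
  obtain ⟨hF, hcmp, hkap⟩ := forms μ i a b hS hB
  obtain ⟨hnn, hmono, -, -, -⟩ := tLip M μ H a b hF hcmp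
  obtain ⟨C, hC0, B, hB0, hpt⟩ := pt2 hS hB hm0 hmp hmq R
  obtain ⟨B', hB0', Z, hZ0, hBZ⟩ := ev_bds μ hF hcmp hmp (q + r) R
  obtain ⟨C', hC'⟩ : ∃ C', C' = (q + 1 : ℝ) * (m * (B' + 2) ^ 2) + 1 := ⟨_, rfl⟩
  refine ⟨C + C', by rw [hC']; positivity, B', hB0', ?_⟩
  intro φ hφ u hu
  obtain ⟨hB1, hZ1⟩ := hBZ φ hφ
  have hposE : ∀ j, m ≤ j → j < q + r + 2 → 0 < Ev a (b φ) j := fun j hj _ => hmp j hj φ
  have hC'0 : 0 < C' := by rw [hC']; positivity
  constructor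
  · intro h j l hj hj' hl hl'
    refine pol_bd (b := b φ) (fun u v => kf_symm hB _ u v) (norm_nonneg h) (fun v => ?_) ?_ ?_
    · obtain ⟨k, -, h2⟩ := hkap h
      rw [← kap_kf hB, ← (h2 φ v).1]
      exact (h2 φ v).2
    · rw [nv_b hu hposE hj hj' hj', if_pos rfl]
      exact hB1 j hj
    · rw [nv_b hu hposE hl hl' hl', if_pos rfl]
      exact hB1 l hl
  intro h hh
  constructor
  · have hu' : Tp a b q φ u := ⟨fun i j hi hj => hu.orth i j (by omega) (by omega),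
      fun j hj v => hu.eig j (by omega) v⟩
    have h1 := ((hpt φ hφ u hu').2 h hh).1
    have h2 : 0 ≤ C' * ‖h‖ ^ 2 := by positivity
    nlinarith
  have hτh : |(1 : ℝ)| * ‖h‖ ≤ 1 / 2 := by rwa [abs_one, one_mul]
  obtain ⟨n1, n2⟩ := form_near hS hB (φ := φ) hτh
  rw [one_smul, abs_one, one_mul] at n1
  rw [one_smul] at n2
  obtain ⟨e', E', hE'⟩ := tSp H a (b (φ + h)) (hF _)
  have hm' := Pool.Agent.Y592.QE.mm H a _ (hF (φ + h)) e' E' hE'
  have hlow : ∀ v, b φ v v + kf b (h * ex φ) v v ≤ b (φ + h) v v := by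
    intro v
    have := low hS hB φ h 1 v
    rwa [one_smul, one_mul] at this
  intro x hx
  have h1 := one_side (a := a) (b := b φ) (E := fun j => Ev a (b φ) j) (q := q) (r := r) (u := u)
    (m := m) (hF φ).sa (hF φ).na hu hposE hmq (fun j l hjl => hmono φ j l hjl) (b' := b (φ + h))
    (k := kf b (h * ex φ)) (hF _).sb hE'
    (fun j hj => by rw [← hm' j]; exact hm0 j hj _) (fun j hj => by rw [← hm' j]; exact hmp j hj _)
    (η := ‖h‖) (B := B') (norm_nonneg _) hlow n1 n2 (fun j hj _ => hB1 j hj) hx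
  have h3 : (∑ j ∈ Finset.Ico m (q + 1), (E' j)⁻¹) = Sm a b m q (φ + h) := by
    unfold Sm iv
    exact Finset.sum_congr rfl fun j _ => by rw [hm' j]
  rw [h3] at h1
  have h4 : (q + 1 : ℝ) * (m * (‖h‖ * (B' + 2)) ^ 2) ≤ C' * ‖h‖ ^ 2 := by
    rw [hC']
    nlinarith [sq_nonneg ‖h‖]
  have h5 : ∑ j ∈ Finset.Ico m (q + 1), (Ev a (b φ) j)⁻¹ = Sm a b m q φ := rfl
  rw [h5] at h1
  have h6 : iv a b q φ - iv a b (q + r + 1) φ = (Ev a (b φ) q)⁻¹ - (Ev a (b φ) (q + r + 1))⁻¹ := rfl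
  rw [h6]
  have h7 : 0 ≤ C * ‖h‖ ^ 2 := by positivity
  nlinarith

end Pool.Agent.H23.CL
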