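import Pool.Agent.H23.UC.Stm8

/-!
# Points at which the values and the gradients of the functions of a space are independent
-/

set_option autoImplicit false

open Set Filter Topology MeasureTheory

noncomputable section

namespace Pool.Agent.H23.CL.PT

/-- the value of the combination `∑ t i u i` at `z` -/
def ev {m : ℕ} (u : Fin m → ℂ → ℝ) (z : ℂ) : (Fin m → ℝ) →ₗ[ℝ] ℝ :=
  ∑ i, u i z • LinearMap.proj i

/-- the gradient of the combination `∑ t i u i` at `z` -/
def gr {m : ℕ} (g : Fin m → ℂ → ℂ) (z : ℂ) : (Fin m → ℝ) →ₗ[ℝ] ℂ :=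
  ∑ i, (LinearMap.toSpanSingleton ℝ ℂ (g i z)).comp (LinearMap.proj i)

lemma ev_apply {m : ℕ} (u : Fin m → ℂ → ℝ) (z : ℂ) (t : Fin m → ℝ) :
    ev u z t = ∑ i, t i * u i z := by
  unfold ev
  rw [LinearMap.sum_apply]
  refine Finset.sum_congr rfl fun i _ => ?_
  rw [LinearMap.smul_apply, LinearMap.proj_apply, smul_eq_mul, mul_comm]

lemma gr_apply {m : ℕ} (g : Fin m → ℂ → ℂ) (z : ℂ) (t : Fin m → ℝ) :
    gr g z t = ∑ i, ((t i : ℝ) : ℂ) * g i z := by
  unfold gr
  rw [LinearMap.sum_apply]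
  refine Finset.sum_congr rfl fun i _ => ?_
  rw [LinearMap.comp_apply, LinearMap.proj_apply, LinearMap.toSpanSingleton_apply,
    Complex.real_smul]

/-- value and gradient -/
def jt {m : ℕ} (u : Fin m → ℂ → ℝ) (g : Fin m → ℂ → ℂ) (z : ℂ) : (Fin m → ℝ) →ₗ[ℝ] ℝ × ℂ :=
  (ev u z).prod (gr g z)

section linear
variable {V : Type} [AddCommGroup V] [Module ℝ V] [FiniteDimensional ℝ V]

lemma drop_one (L : Submodule ℝ V) (φ : V →ₗ[ℝ] ℝ) {f : V} (hf : f ∈ L) (h : φ f ≠ 0) :
    Module.finrank ℝ (L ⊓ LinearMap.ker φ : Submodule ℝ V) + 1 = Module.finrank ℝ L := by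
  have h1 := LinearMap.finrank_range_add_finrank_ker (φ.domRestrict L)
  have h2 : LinearMap.range (φ.domRestrict L) = ⊤ := by
    rw [LinearMap.range_eq_top]
    intro c
    refine ⟨(c / φ f) • ⟨f, hf⟩, ?_⟩
    rw [map_smul]
    show (c / φ f) • φ f = c
    rw [smul_eq_mul, div_mul_cancel₀ _ h]
  rw [h2, finrank_top, Module.finrank_self] at h1
  have h3 : Module.finrank ℝ (LinearMap.ker (φ.domRestrict L)) =
      Module.finrank ℝ (L ⊓ LinearMap.ker φ : Submodule ℝ V) := by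
    have e : (L ⊓ LinearMap.ker φ : Submodule ℝ V) =
        Submodule.map L.subtype (LinearMap.ker (φ.domRestrict L)) := by
      rw [LinearMap.ker_domRestrict, Submodule.map_comap_subtype]
    rw [e, Submodule.finrank_map_subtype_eq]
  omega

lemma drop_le (L : Submodule ℝ V) (φ : V →ₗ[ℝ] ℝ) {k : ℕ} (hk : Module.finrank ℝ L ≤ k + 1)
    (h : L ≠ ⊥ → ∃ f ∈ L, φ f ≠ 0) : Module.finrank ℝ (L ⊓ LinearMap.ker φ : Submodule ℝ V) ≤ k := by
  by_cases hL : L = ⊥
  · rw [hL, bot_inf_eq, finrank_bot]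
    exact Nat.zero_le _
  · obtain ⟨f, hf, hne⟩ := h hL
    have := drop_one L φ hf hne
    omega

lemma drop_three (W : Submodule ℝ V) (J : V →ₗ[ℝ] ℝ × ℂ) (t : Fin 3 → V) (ht : ∀ i, t i ∈ W)
    (hli : LinearIndependent ℝ fun i => J (t i)) :
    Module.finrank ℝ (W ⊓ LinearMap.ker J : Submodule ℝ V) + 3 ≤ Module.finrank ℝ W := by
  have h1 := LinearMap.finrank_range_add_finrank_ker (J.domRestrict W)
  have h2 : 3 ≤ Module.finrank ℝ (LinearMap.range (J.domRestrict W)) := by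
    have h3 : LinearIndependent ℝ fun i : Fin 3 =>
        (⟨J (t i), ⟨⟨t i, ht i⟩, rfl⟩⟩ : LinearMap.range (J.domRestrict W)) := by
      refine LinearIndependent.of_comp (LinearMap.range (J.domRestrict W)).subtype ?_
      exact hli
    have := h3.fintype_card_le_finrank
    simpa using this
  have h3 : Module.finrank ℝ (LinearMap.ker (J.domRestrict W)) =
      Module.finrank ℝ (W ⊓ LinearMap.ker J : Submodule ℝ V) := by
    have e : (W ⊓ LinearMap.ker J : Submodule ℝ V) =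
        Submodule.map W.subtype (LinearMap.ker (J.domRestrict W)) := by
      rw [LinearMap.ker_domRestrict, Submodule.map_comap_subtype]
    rw [e, Submodule.finrank_map_subtype_eq]
  omega

lemma exists_three (W : Submodule ℝ V) {k : ℕ} (hW : Module.finrank ℝ W = k + 3) :
    ∃ t : Fin 3 → V, (∀ i, t i ∈ W) ∧ LinearIndependent ℝ t := by
  obtain ⟨b⟩ : Nonempty (Module.Basis (Fin (k + 3)) ℝ W) :=
    ⟨Module.finBasisOfFinrankEq ℝ W hW⟩
  have h1 : LinearIndependent ℝ fun i : Fin (k + 3) => ((b i : W) : V) :=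
    b.linearIndependent.map' W.subtype (Submodule.ker_subtype W)
  refine ⟨fun i => ((b (Fin.castLE (by omega) i) : W) : V), fun i => (b _).2, ?_⟩
  exact h1.comp (Fin.castLE (by omega)) (Fin.castLE_injective _)

end linear

/-- Cramer's rule -/
lemma det_ind {a b c : ℝ} {p q r : ℂ} (h : UC.det3 a b c p q r ≠ 0) {x y w : ℝ}
    (h1 : x * a + y * b + w * c = 0)
    (h2 : (x : ℂ) * p + (y : ℂ) * q + (w : ℂ) * r = 0) : x = 0 ∧ y = 0 ∧ w = 0 := by
  have e1 : x * p.re + y * q.re + w * r.re = 0 := by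
    have := congrArg Complex.re h2
    simpa using this
  have e2 : x * p.im + y * q.im + w * r.im = 0 := by
    have := congrArg Complex.im h2
    simpa using this
  unfold UC.det3 at h
  refine ⟨?_, ?_, ?_⟩
  · refine (mul_eq_zero.1 (?_ : (a * (q.re * r.im - q.im * r.re) -
      b * (p.re * r.im - p.im * r.re) + c * (p.re * q.im - p.im * q.re)) * x = 0)).resolve_left h
    linear_combination (q.re * r.im - q.im * r.re) * h1 - (b * r.im - c * q.im) * e1 +
      (b * r.re - c * q.re) * e2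
  · refine (mul_eq_zero.1 (?_ : (a * (q.re * r.im - q.im * r.re) -
      b * (p.re * r.im - p.im * r.re) + c * (p.re * q.im - p.im * q.re)) * y = 0)).resolve_left h
    linear_combination -(p.re * r.im - p.im * r.re) * h1 + (a * r.im - c * p.im) * e1 -
      (a * r.re - c * p.re) * e2
  · refine (mul_eq_zero.1 (?_ : (a * (q.re * r.im - q.im * r.re) -
      b * (p.re * r.im - p.im * r.re) + c * (p.re * q.im - p.im * q.re)) * w = 0)).resolve_left h
    linear_combination (p.re * q.im - p.im * q.re) * h1 - (a * q.im - b * p.im) * e1 +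
      (a * q.re - b * p.re) * e2

variable {m : ℕ} {O : Set ℂ} {u : Fin m → ℂ → ℝ} {g : Fin m → ℂ → ℂ}

/-- a point where no nonzero function of a finite family vanishes, in an open set -/
lemma open_avoid (hu : ∀ i, ContinuousOn (u i) O)
    (h1 : ∀ t : Fin m → ℝ, t ≠ 0 → ∀ B ⊆ O, IsOpen B → B.Nonempty → ∃ z ∈ B, ∑ i, t i * u i z ≠ 0)
    (F : List (Fin m → ℝ)) (hF : ∀ t ∈ F, t ≠ 0) : ∀ B ⊆ O, IsOpen B → B.Nonempty →
    ∃ B' ⊆ B, IsOpen B' ∧ B'.Nonempty ∧ ∀ t ∈ F, ∀ z ∈ B', ev u z t ≠ 0 := by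
  induction F with
  | nil =>
    intro B hB hBo hBn
    exact ⟨B, subset_rfl, hBo, hBn, fun t ht => absurd ht (by simp)⟩
  | cons t F ih =>
    intro B hB hBo hBn
    obtain ⟨B', hB', hBo', hBn', h2⟩ := ih (fun s hs => hF s (List.mem_cons_of_mem _ hs)) B hB hBo hBn
    obtain ⟨z, hz, hzt⟩ := h1 t (hF t (List.mem_cons_self ..)) B' (hB'.trans hB) hBo' hBn'
    have hc : ContinuousOn (fun z => ∑ i, t i * u i z) B' :=
      (continuousOn_finsetSum _ fun i _ => continuousOn_const.mul (hu i)).mono (hB'.trans hB)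
    refine ⟨B' ∩ (fun z => ∑ i, t i * u i z) ⁻¹' {0}ᶜ, inter_subset_left.trans hB',
      hc.isOpen_inter_preimage hBo' isOpen_compl_singleton, ⟨z, hz, hzt⟩, ?_⟩
    intro s hs y hy
    rcases List.mem_cons.1 hs with rfl | hs
    · rw [ev_apply]
      exact hy.2
    · exact h2 s hs y hy.1

/-- **the choice of the points** -/
theorem points (hu : ∀ i, ContinuousOn (u i) O)
    (h1 : ∀ t : Fin m → ℝ, t ≠ 0 → ∀ B ⊆ O, IsOpen B → B.Nonempty → ∃ z ∈ B, ∑ i, t i * u i z ≠ 0)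
    (h2 : ∀ t₁ t₂ t₃ : Fin m → ℝ, LinearIndependent ℝ ![t₁, t₂, t₃] → ∀ B ⊆ O, IsOpen B →
      B.Nonempty → ¬ ∀ᵐ z ∂(volume.restrict B), UC.det3 (∑ i, t₁ i * u i z) (∑ i, t₂ i * u i z)
        (∑ i, t₃ i * u i z) (∑ i, ((t₁ i : ℝ) : ℂ) * g i z) (∑ i, ((t₂ i : ℝ) : ℂ) * g i z)
        (∑ i, ((t₃ i : ℝ) : ℂ) * g i z) = 0) {N : Set ℂ} (hN : volume N = 0) (k : ℕ) :
    ∀ W : Submodule ℝ (Fin m → ℝ), Module.finrank ℝ W = k + 2 →
    ∀ 𝓛 : List (Submodule ℝ (Fin m → ℝ)), (∀ L ∈ 𝓛, Module.finrank ℝ L ≤ k) →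
    ∀ B ⊆ O, IsOpen B → B.Nonempty → ∃ z : Fin k → ℂ, (∀ i, z i ∈ B ∧ z i ∉ N) ∧
      (∀ i, ∀ f ∈ W, (∀ j, ev u (z j) f = 0) → gr g (z i) f = 0 → f = 0) ∧
      ∀ L ∈ 𝓛, ∀ f ∈ L, (∀ j, ev u (z j) f = 0) → f = 0 := by
  induction k with
  | zero =>
    intro W hW 𝓛 h𝓛 B hB hBo hBn
    refine ⟨Fin.elim0, fun i => i.elim0, fun i => i.elim0, fun L hL f hf _ => ?_⟩
    have h3 : L = ⊥ := Submodule.finrank_eq_zero.1 (Nat.le_zero.1 (h𝓛 L hL))
    rw [h3] at hf
    exact (Submodule.mem_bot ℝ).1 hf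
  | succ k ih =>
    intro W hW 𝓛 h𝓛 B hB hBo hBn
    obtain ⟨t, htW, htl⟩ := exists_three W (k := k) (by rw [hW])
    -- functions of the spaces of the list
    have hex : ∀ 𝓜 : List (Submodule ℝ (Fin m → ℝ)), ∃ F : List (Fin m → ℝ), (∀ t ∈ F, t ≠ 0) ∧
        ∀ L ∈ 𝓜, L ≠ ⊥ → ∃ f ∈ F, f ∈ L := by
      intro 𝓜
      induction 𝓜 with
      | nil => exact ⟨[], fun t ht => absurd ht (by simp), fun L hL => absurd hL (by simp)⟩
      | cons L 𝓜 ih =>
        obtain ⟨F, hF1, hF2⟩ := ih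
        by_cases hL : L = ⊥
        · refine ⟨F, hF1, fun L' hL' hne => ?_⟩
          rcases List.mem_cons.1 hL' with rfl | hL'
          · exact absurd hL hne
          · exact hF2 L' hL' hne
        · obtain ⟨f, hf, hf0⟩ := Submodule.exists_mem_ne_zero_of_ne_bot hL
          refine ⟨f :: F, fun s hs => ?_, fun L' hL' hne => ?_⟩
          · rcases List.mem_cons.1 hs with rfl | hs
            · exact hf0
            · exact hF1 s hs
          · rcases List.mem_cons.1 hL' with rfl | hL'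
            · exact ⟨f, List.mem_cons_self .., hf⟩
            · obtain ⟨f', h3, h4⟩ := hF2 L' hL' hne
              exact ⟨f', List.mem_cons_of_mem _ h3, h4⟩
    obtain ⟨F, hF1, hF2⟩ := hex (W :: 𝓛)
    obtain ⟨B', hB', hBo', hBn', hav⟩ := open_avoid hu h1 F hF1 B hB hBo hBn
    have h3 := h2 (t 0) (t 1) (t 2) (by
      have e : ![t 0, t 1, t 2] = t := by
        funext i
        fin_cases i <;> rfl
      rw [e]
      exact htl) B' (hB'.trans hB) hBo' hBn'
    obtain ⟨z₀, hz₀, hzN, hdet⟩ : ∃ z₀ ∈ B', z₀ ∉ N ∧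
        UC.det3 (∑ i, t 0 i * u i z₀) (∑ i, t 1 i * u i z₀)
        (∑ i, t 2 i * u i z₀) (∑ i, ((t 0 i : ℝ) : ℂ) * g i z₀) (∑ i, ((t 1 i : ℝ) : ℂ) * g i z₀)
        (∑ i, ((t 2 i : ℝ) : ℂ) * g i z₀) ≠ 0 := by
      by_contra hcon
      push Not at hcon
      refine h3 ?_
      have hN' : ∀ᵐ z ∂(volume.restrict B'), z ∉ N :=
        ae_restrict_of_ae (measure_eq_zero_iff_ae_notMem.1 hN)
      filter_upwards [hN', ae_restrict_mem hBo'.measurableSet] with z h4 h5
      exact hcon z h5 h4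
    obtain ⟨W', hW'⟩ : ∃ W' : Submodule ℝ (Fin m → ℝ), W' = W ⊓ LinearMap.ker (ev u z₀) := ⟨_, rfl⟩
    obtain ⟨L₀, hL₀⟩ : ∃ L₀ : Submodule ℝ (Fin m → ℝ), L₀ = W ⊓ LinearMap.ker (jt u g z₀) :=
      ⟨_, rfl⟩
    have hWne : W ≠ ⊥ := by
      intro h
      rw [h, finrank_bot] at hW
      omega
    have hWf : Module.finrank ℝ W' = k + 2 := by
      obtain ⟨f, hf, hfW⟩ := hF2 W (List.mem_cons_self ..) hWne
      have := drop_one W (ev u z₀) hfW (hav f hf z₀ hz₀)
      rw [hW']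
      omega
    have hL₀f : Module.finrank ℝ L₀ ≤ k := by
      have h4 := drop_three W (jt u g z₀) t htW (by
        rw [Fintype.linearIndependent_iff]
        intro c hc
        rw [Fin.sum_univ_three] at hc
        have e1 : c 0 * ev u z₀ (t 0) + c 1 * ev u z₀ (t 1) + c 2 * ev u z₀ (t 2) = 0 :=
          congrArg Prod.fst hc
        have e2 : c 0 • gr g z₀ (t 0) + c 1 • gr g z₀ (t 1) + c 2 • gr g z₀ (t 2) = 0 :=
          congrArg Prod.snd hc
        simp only [ev_apply] at e1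
        simp only [gr_apply, Complex.real_smul] at e2
        obtain ⟨c0, c1, c2⟩ := det_ind hdet e1 e2
        intro i
        fin_cases i
        · exact c0
        · exact c1
        · exact c2)
      rw [hL₀]
      omega
    obtain ⟨z, hz, ha, hb⟩ := ih W' hWf (L₀ :: 𝓛.map fun L => L ⊓ LinearMap.ker (ev u z₀)) (by
      intro L hL
      rcases List.mem_cons.1 hL with rfl | hL
      · exact hL₀f
      · obtain ⟨L', hL', rfl⟩ := List.mem_map.1 hL
        refine drop_le L' _ (h𝓛 L' hL') fun hne => ?_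
        obtain ⟨f, hf, hfL⟩ := hF2 L' (List.mem_cons_of_mem _ hL') hne
        exact ⟨f, hfL, hav f hf z₀ hz₀⟩) B hB hBo hBn
    refine ⟨Fin.cons z₀ z, ?_, ?_, ?_⟩
    · intro i
      refine Fin.cases ?_ (fun j => ?_) i
      · rw [Fin.cons_zero]
        exact ⟨hB' hz₀, hzN⟩
      · rw [Fin.cons_succ]
        exact hz j
    · intro i f hf hev
      have e0 : ev u z₀ f = 0 := by
        have := hev 0
        rwa [Fin.cons_zero] at this
      have ej : ∀ j, ev u (z j) f = 0 := by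
        intro j
        have := hev j.succ
        rwa [Fin.cons_succ] at this
      refine Fin.cases ?_ (fun j => ?_) i
      · rw [Fin.cons_zero]
        intro hg
        refine hb L₀ (List.mem_cons_self ..) f ?_ ej
        rw [hL₀]
        refine ⟨hf, ?_⟩
        rw [SetLike.mem_coe, LinearMap.mem_ker]
        exact Prod.ext e0 hg
      · rw [Fin.cons_succ]
        intro hg
        refine ha j f ?_ ej hg
        rw [hW']
        exact ⟨hf, e0⟩
    · intro L hL f hf hev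
      have e0 : ev u z₀ f = 0 := by
        have := hev 0
        rwa [Fin.cons_zero] at this
      have ej : ∀ j, ev u (z j) f = 0 := by
        intro j
        have := hev j.succ
        rwa [Fin.cons_succ] at this
      exact hb (L ⊓ LinearMap.ker (ev u z₀)) (List.mem_cons_of_mem _ (List.mem_map.2 ⟨L, hL, rfl⟩)) f
        ⟨hf, e0⟩ ej

end Pool.Agent.H23.CL.PT
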