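import Pool.Agent.H23.CL.PtsA

/-!
# The dimension of the space spanned by the products of functions of rank three
-/

set_option autoImplicit false

open Set Filter Topology MeasureTheory

noncomputable section

namespace Pool.Agent.H23.CL.PT

variable {m : ℕ}

/-- the form `f ⊗ f'` -/
def fm (f f' : Fin m → ℝ) : Module.Dual ℝ (Fin m × Fin m → ℝ) :=
  ∑ i, ∑ j, (f i * f' j) • LinearMap.proj (i, j)

lemma fm_apply (f f' : Fin m → ℝ) (w : Fin m × Fin m → ℝ) :
    fm f f' w = ∑ i, ∑ j, f i * f' j * w (i, j) := by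
  unfold fm
  rw [LinearMap.sum_apply]
  refine Finset.sum_congr rfl fun i _ => ?_
  rw [LinearMap.sum_apply]
  refine Finset.sum_congr rfl fun j _ => ?_
  rw [LinearMap.smul_apply, LinearMap.proj_apply, smul_eq_mul]

/-- the products of the values -/
def pv (u : Fin m → ℂ → ℝ) (z : ℂ) : Fin m × Fin m → ℝ := fun p => u p.1 z * u p.2 z

/-- the real parts of the gradients of the products -/
def pr (u : Fin m → ℂ → ℝ) (g : Fin m → ℂ → ℂ) (z : ℂ) : Fin m × Fin m → ℝ :=
  fun p => u p.1 z * (g p.2 z).re + (g p.1 z).re * u p.2 z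

/-- the imaginary parts of the gradients of the products -/
def pj (u : Fin m → ℂ → ℝ) (g : Fin m → ℂ → ℂ) (z : ℂ) : Fin m × Fin m → ℝ :=
  fun p => u p.1 z * (g p.2 z).im + (g p.1 z).im * u p.2 z

lemma gr_re (g : Fin m → ℂ → ℂ) (z : ℂ) (t : Fin m → ℝ) :
    (gr g z t).re = ∑ i, t i * (g i z).re := by
  rw [gr_apply, Complex.re_sum]
  refine Finset.sum_congr rfl fun i _ => ?_
  simp

lemma gr_im (g : Fin m → ℂ → ℂ) (z : ℂ) (t : Fin m → ℝ) :
    (gr g z t).im = ∑ i, t i * (g i z).im := by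
  rw [gr_apply, Complex.im_sum]
  refine Finset.sum_congr rfl fun i _ => ?_
  simp

lemma fm_prod (f f' a b : Fin m → ℝ) : fm f f' (fun p => a p.1 * b p.2) =
    (∑ i, f i * a i) * ∑ j, f' j * b j := by
  rw [fm_apply, Finset.sum_mul_sum]
  refine Finset.sum_congr rfl fun i _ => Finset.sum_congr rfl fun j _ => ?_
  ring

lemma fm_pv (u : Fin m → ℂ → ℝ) (z : ℂ) (f f' : Fin m → ℝ) :
    fm f f' (pv u z) = ev u z f * ev u z f' := by
  rw [ev_apply, ev_apply]
  exact fm_prod f f' (fun i => u i z) fun i => u i z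

lemma fm_pr (u : Fin m → ℂ → ℝ) (g : Fin m → ℂ → ℂ) (z : ℂ) (f f' : Fin m → ℝ) :
    fm f f' (pr u g z) = ev u z f * (gr g z f').re + (gr g z f).re * ev u z f' := by
  rw [ev_apply, ev_apply, gr_re, gr_re, ← fm_prod f f' (fun i => u i z) fun i => (g i z).re,
    ← fm_prod f f' (fun i => (g i z).re) fun i => u i z, ← map_add]
  rfl

lemma fm_pj (u : Fin m → ℂ → ℝ) (g : Fin m → ℂ → ℂ) (z : ℂ) (f f' : Fin m → ℝ) :
    fm f f' (pj u g z) = ev u z f * (gr g z f').im + (gr g z f).im * ev u z f' := by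
  rw [ev_apply, ev_apply, gr_im, gr_im, ← fm_prod f f' (fun i => u i z) fun i => (g i z).im,
    ← fm_prod f f' (fun i => (g i z).im) fun i => u i z, ← map_add]
  rfl

/-- the functions which vanish at the other points have arbitrary values and gradients at a point -/
lemma jet_surj {k : ℕ} {u : Fin (k + 2) → ℂ → ℝ} {g : Fin (k + 2) → ℂ → ℂ} {z : Fin k → ℂ}
    (ha : ∀ i, ∀ f : Fin (k + 2) → ℝ, (∀ j, ev u (z j) f = 0) → gr g (z i) f = 0 → f = 0)
    (i : Fin k) (α : ℝ) (β : ℂ) : ∃ f : Fin (k + 2) → ℝ, (∀ j, j ≠ i → ev u (z j) f = 0) ∧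
      ev u (z i) f = α ∧ gr g (z i) f = β := by
  classical
  obtain ⟨T, hT⟩ : ∃ T : (Fin (k + 2) → ℝ) →ₗ[ℝ] ({j : Fin k // j ≠ i} → ℝ),
      T = LinearMap.pi fun j => ev u (z j.1) := ⟨_, rfl⟩
  have hTz : ∀ f : Fin (k + 2) → ℝ, T f = 0 → ∀ j, j ≠ i → ev u (z j) f = 0 := by
    intro f hf j hj
    have h := congrFun hf ⟨j, hj⟩
    rw [hT] at h
    exact h
  have h1 := LinearMap.finrank_range_add_finrank_ker T
  have h2 : Module.finrank ℝ (LinearMap.range T) ≤ k - 1 := by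
    refine (Submodule.finrank_le _).trans (le_of_eq ?_)
    rw [Module.finrank_pi, Fintype.card_subtype_compl, Fintype.card_fin, Fintype.card_subtype_eq]
  have hk : 0 < k := i.pos
  have h3 : 3 ≤ Module.finrank ℝ (LinearMap.ker T) := by
    rw [Module.finrank_pi, Fintype.card_fin] at h1
    omega
  obtain ⟨J, hJ⟩ : ∃ J : LinearMap.ker T →ₗ[ℝ] ℝ × ℂ, J = (jt u g (z i)).domRestrict _ := ⟨_, rfl⟩
  have hinj : Function.Injective J := by
    rw [injective_iff_map_eq_zero]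
    intro f hf
    have h4 : jt u g (z i) f.1 = 0 := by rw [hJ] at hf; exact hf
    have h5 : T f.1 = 0 := f.2
    refine Subtype.ext (ha i f.1 (fun j => ?_) (congrArg Prod.snd h4))
    by_cases hj : j = i
    · subst hj
      exact congrArg Prod.fst h4
    · exact hTz f.1 h5 j hj
  have h6 : Module.finrank ℝ (ℝ × ℂ) = 3 := by
    rw [Module.finrank_prod, Module.finrank_self, Complex.finrank_real_complex]
  have h7 : Module.finrank ℝ (LinearMap.ker T) ≤ 3 := by
    rw [← h6]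
    exact LinearMap.finrank_le_finrank_of_injective hinj
  have hsurj : Function.Surjective J :=
    (LinearMap.injective_iff_surjective_of_finrank_eq_finrank (by omega)).1 hinj
  obtain ⟨f, hf⟩ := hsurj (α, β)
  have h8 : jt u g (z i) f.1 = (α, β) := by rw [hJ] at hf; exact hf
  refine ⟨f.1, fun j hj => ?_, congrArg Prod.fst h8, congrArg Prod.snd h8⟩
  exact hTz f.1 f.2 j hj

/-- two functions which vanish at all the points -/
lemma two_zero {k : ℕ} (u : Fin (k + 2) → ℂ → ℝ) (z : Fin k → ℂ) :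
    ∃ h₁ h₂ : Fin (k + 2) → ℝ, (∀ j, ev u (z j) h₁ = 0) ∧ (∀ j, ev u (z j) h₂ = 0) ∧
      ∀ x y : ℝ, x • h₁ + y • h₂ = 0 → x = 0 ∧ y = 0 := by
  obtain ⟨T, hT⟩ : ∃ T : (Fin (k + 2) → ℝ) →ₗ[ℝ] (Fin k → ℝ),
      T = LinearMap.pi fun j => ev u (z j) := ⟨_, rfl⟩
  have hTz : ∀ f : Fin (k + 2) → ℝ, T f = 0 → ∀ j, ev u (z j) f = 0 := by
    intro f hf j
    have h := congrFun hf j
    rw [hT] at h
    exact h
  have h1 := LinearMap.finrank_range_add_finrank_ker T
  have h2 : Module.finrank ℝ (LinearMap.range T) ≤ k := by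
    refine (Submodule.finrank_le _).trans (le_of_eq ?_)
    rw [Module.finrank_pi, Fintype.card_fin]
  have h3 : 2 ≤ Module.finrank ℝ (LinearMap.ker T) := by
    rw [Module.finrank_pi, Fintype.card_fin] at h1
    omega
  obtain ⟨b⟩ : Nonempty (Module.Basis (Fin (Module.finrank ℝ (LinearMap.ker T))) ℝ (LinearMap.ker T)) :=
    ⟨Module.finBasis ℝ _⟩
  have hli : LinearIndependent ℝ fun i : Fin 2 =>
      ((b (Fin.castLE h3 i) : LinearMap.ker T) : Fin (k + 2) → ℝ) :=
    (b.linearIndependent.map' (LinearMap.ker T).subtype (Submodule.ker_subtype _)).comp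
      (Fin.castLE h3) (Fin.castLE_injective h3)
  have hz : ∀ (f : LinearMap.ker T) j, ev u (z j) f.1 = 0 := fun f j => hTz f.1 f.2 j
  refine ⟨_, _, hz (b (Fin.castLE h3 0)), hz (b (Fin.castLE h3 1)), fun x y hxy => ?_⟩
  have h4 := Fintype.linearIndependent_iff.1 hli ![x, y] (by
    rw [Fin.sum_univ_two]
    exact hxy)
  exact ⟨h4 0, h4 1⟩

/-- the values at `k` points with gradients and at three other points -/
def lam {k : ℕ} (u : Fin (k + 2) → ℂ → ℝ) (g : Fin (k + 2) → ℂ → ℂ) (z : Fin k → ℂ)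
    (y : Fin 3 → ℂ) : Module.Dual ℝ (Fin (k + 2) × Fin (k + 2) → ℝ) →ₗ[ℝ]
      (Fin k → ℝ × ℝ × ℝ) × (Fin 3 → ℝ) where
  toFun := fun φ => (fun i => (φ (pv u (z i)), φ (pr u g (z i)), φ (pj u g (z i))),
    fun l => φ (pv u (y l)))
  map_add' := fun _ _ => rfl
  map_smul' := fun _ _ => rfl

lemma lam_surj {k : ℕ} {u : Fin (k + 2) → ℂ → ℝ} {g : Fin (k + 2) → ℂ → ℂ} {z : Fin k → ℂ}
    (ha : ∀ i, ∀ f : Fin (k + 2) → ℝ, (∀ j, ev u (z j) f = 0) → gr g (z i) f = 0 → f = 0)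
    {y : Fin 3 → ℂ} {e : Fin 3 → Fin (k + 2) → ℝ} (he : ∀ l j, ev u (z j) (e l) = 0)
    (h0 : ∀ l, ev u (y l) (e l) = 0) (h1 : ∀ l l', l ≠ l' → ev u (y l) (e l') ≠ 0) :
    Function.Surjective (lam u g z y) := by
  intro c
  choose f hf1 hf2 hf3 using fun i => jet_surj ha i 1 0
  choose f' hg1 hg2 hg3 using fun i => jet_surj ha i (c.1 i).1 ⟨(c.1 i).2.1, (c.1 i).2.2⟩
  obtain ⟨φ₁, hφ₁⟩ : ∃ φ₁, φ₁ = ∑ i, fm (f i) (f' i) := ⟨_, rfl⟩
  have k1 : ∀ j, φ₁ (pv u (z j)) = (c.1 j).1 := by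
    intro j
    rw [hφ₁, LinearMap.sum_apply, Finset.sum_eq_single j]
    · rw [fm_pv, hf2, hg2, one_mul]
    · intro i _ hij
      rw [fm_pv, hf1 i j (Ne.symm hij), zero_mul]
    · intro h
      exact absurd (Finset.mem_univ _) h
  have k2 : ∀ j, φ₁ (pr u g (z j)) = (c.1 j).2.1 := by
    intro j
    rw [hφ₁, LinearMap.sum_apply, Finset.sum_eq_single j]
    · rw [fm_pr, hf2, hg2, hg3, hf3, one_mul, Complex.zero_re, zero_mul, add_zero]
    · intro i _ hij
      rw [fm_pr, hf1 i j (Ne.symm hij), hg1 i j (Ne.symm hij), zero_mul, mul_zero, add_zero]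
    · intro h
      exact absurd (Finset.mem_univ _) h
  have k3 : ∀ j, φ₁ (pj u g (z j)) = (c.1 j).2.2 := by
    intro j
    rw [hφ₁, LinearMap.sum_apply, Finset.sum_eq_single j]
    · rw [fm_pj, hf2, hg2, hg3, hf3, one_mul, Complex.zero_im, zero_mul, add_zero]
    · intro i _ hij
      rw [fm_pj, hf1 i j (Ne.symm hij), hg1 i j (Ne.symm hij), zero_mul, mul_zero, add_zero]
    · intro h
      exact absurd (Finset.mem_univ _) h
  have hne : ∀ l : Fin 3, l ≠ l + 1 ∧ l ≠ l + 2 := by decide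
  have hoth : ∀ l l' : Fin 3, l' ≠ l → l = l' + 1 ∨ l = l' + 2 := by decide
  obtain ⟨φ₂, hφ₂⟩ : ∃ φ₂, φ₂ = ∑ l : Fin 3, ((c.2 l - φ₁ (pv u (y l))) /
      (ev u (y l) (e (l + 1)) * ev u (y l) (e (l + 2)))) • fm (e (l + 1)) (e (l + 2)) := ⟨_, rfl⟩
  have k4 : ∀ l, φ₂ (pv u (y l)) = c.2 l - φ₁ (pv u (y l)) := by
    intro l
    rw [hφ₂, LinearMap.sum_apply, Finset.sum_eq_single l]
    · rw [LinearMap.smul_apply, fm_pv, smul_eq_mul, div_mul_cancel₀]
      exact mul_ne_zero (h1 l _ (hne l).1) (h1 l _ (hne l).2)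
    · intro l' _ hl
      rw [LinearMap.smul_apply, fm_pv, smul_eq_mul]
      rcases hoth l l' hl with h | h
      · rw [← h, h0, zero_mul, mul_zero]
      · rw [← h, h0, mul_zero, mul_zero]
    · intro h
      exact absurd (Finset.mem_univ _) h
  have k5 : ∀ j, φ₂ (pv u (z j)) = 0 ∧ φ₂ (pr u g (z j)) = 0 ∧ φ₂ (pj u g (z j)) = 0 := by
    intro j
    rw [hφ₂, LinearMap.sum_apply, LinearMap.sum_apply, LinearMap.sum_apply]
    refine ⟨Finset.sum_eq_zero fun l _ => ?_, Finset.sum_eq_zero fun l _ => ?_,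
      Finset.sum_eq_zero fun l _ => ?_⟩
    · rw [LinearMap.smul_apply, fm_pv, he, zero_mul, smul_zero]
    · rw [LinearMap.smul_apply, fm_pr, he, he, zero_mul, mul_zero, add_zero, smul_zero]
    · rw [LinearMap.smul_apply, fm_pj, he, he, zero_mul, mul_zero, add_zero, smul_zero]
  refine ⟨φ₁ + φ₂, ?_⟩
  refine Prod.ext ?_ ?_
  · funext j
    obtain ⟨q1, q2, q3⟩ := k5 j
    show ((φ₁ + φ₂) (pv u (z j)), (φ₁ + φ₂) (pr u g (z j)), (φ₁ + φ₂) (pj u g (z j))) = c.1 j
    rw [LinearMap.add_apply, LinearMap.add_apply, LinearMap.add_apply, q1, q2, q3, add_zero,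
      add_zero, add_zero, k1, k2, k3]
  · funext l
    show (φ₁ + φ₂) (pv u (y l)) = c.2 l
    rw [LinearMap.add_apply, k4]
    ring

/-- **`LR-PTS`** -/
theorem stPts : UC.StPts := by
  intro m O u g hm hO hOn hu h1 h2 A hA
  obtain ⟨k, rfl⟩ : ∃ k, m = k + 2 := ⟨m - 2, by omega⟩
  -- the null set
  obtain ⟨S, hS⟩ : ∃ S : Finset (Module.Dual ℝ (Fin (k + 2) × Fin (k + 2) → ℝ)),
      Submodule.span ℝ (S : Set (Module.Dual ℝ (Fin (k + 2) × Fin (k + 2) → ℝ))) = A :=
    (Submodule.fg_def.1 (Module.Finite.iff_fg.1 (inferInstance : Module.Finite ℝ A))).elim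
      fun s hs => ⟨hs.1.toFinset, by rw [hs.1.coe_toFinset]; exact hs.2⟩
  have hae : ∀ᵐ z ∂(volume.restrict O), ∀ φ ∈ A, φ (pv u z) = 0 ∧ φ (pr u g z) = 0 ∧
      φ (pj u g z) = 0 := by
    have h3 : ∀ᵐ z ∂(volume.restrict O), ∀ φ ∈ S, φ (pv u z) = 0 ∧ φ (pr u g z) = 0 ∧
        φ (pj u g z) = 0 := by
      rw [Finset.eventually_all]
      intro φ hφ
      have h4 : φ ∈ A := by
        rw [← hS]
        exact Submodule.subset_span hφ
      exact hA φ h4
    filter_upwards [h3] with z hz φ hφ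
    rw [← hS] at hφ
    induction hφ using Submodule.span_induction with
    | mem φ h => exact hz φ h
    | zero => exact ⟨rfl, rfl, rfl⟩
    | add φ ψ _ _ h h' =>
      refine ⟨?_, ?_, ?_⟩
      · rw [LinearMap.add_apply, h.1, h'.1, add_zero]
      · rw [LinearMap.add_apply, h.2.1, h'.2.1, add_zero]
      · rw [LinearMap.add_apply, h.2.2, h'.2.2, add_zero]
    | smul c φ _ h =>
      refine ⟨?_, ?_, ?_⟩
      · rw [LinearMap.smul_apply, h.1, smul_zero]
      · rw [LinearMap.smul_apply, h.2.1, smul_zero]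
      · rw [LinearMap.smul_apply, h.2.2, smul_zero]
  obtain ⟨N, hNd⟩ : ∃ N : Set ℂ, N = {z | z ∈ O ∧ ¬ ∀ φ ∈ A, φ (pv u z) = 0 ∧ φ (pr u g z) = 0 ∧
      φ (pj u g z) = 0} := ⟨_, rfl⟩
  have hN : volume N = 0 := by
    rw [ae_restrict_iff' hO.measurableSet, ae_iff] at hae
    rw [← hae, hNd]
    congr 1
    ext z
    simp only [Set.mem_ofPred_eq, Classical.not_imp]
  have hgood : ∀ z ∈ O, z ∉ N → ∀ φ ∈ A, φ (pv u z) = 0 ∧ φ (pr u g z) = 0 ∧ φ (pj u g z) = 0 := by
    intro z hz hzN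
    by_contra hcon
    exact hzN (by rw [hNd]; exact ⟨hz, hcon⟩)
  -- the points
  obtain ⟨z, hz, ha, -⟩ := points (g := g) hu h1 h2 hN k ⊤ (by
    rw [finrank_top, Module.finrank_pi, Fintype.card_fin]) [] (by simp) O subset_rfl hO hOn
  obtain ⟨p, q, hp, hq, hpq⟩ := two_zero u z
  have hp0 : p ≠ 0 := by
    rintro rfl
    have := hpq 1 0 (by simp)
    exact one_ne_zero this.1
  have hpick : ∀ F : List (Fin (k + 2) → ℝ), (∀ t ∈ F, t ≠ 0) → ∃ y ∈ O, y ∉ N ∧
      ∀ t ∈ F, ev u y t ≠ 0 := by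
    intro F hF
    obtain ⟨B', hB', hBo', hBn', hav⟩ := open_avoid hu h1 F hF O subset_rfl hO hOn
    have h3 : ¬ B' ⊆ N := by
      intro hsub
      have h4 := hBo'.measure_pos volume hBn'
      have h5 := measure_mono_null hsub hN
      rw [h5] at h4
      exact lt_irrefl _ h4
    obtain ⟨y, hy, hyN⟩ := not_subset.1 h3
    exact ⟨y, hB' hy, hyN, fun t ht => hav t ht y hy⟩
  have hcomb : ∀ y : ℂ, ev u y p ≠ 0 → ev u y q • p - ev u y p • q ≠ 0 := by
    intro y hy hcon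
    have := hpq (ev u y q) (-ev u y p) (by rw [neg_smul, ← sub_eq_add_neg]; exact hcon)
    exact hy (neg_eq_zero.1 this.2)
  have hval : ∀ y y' : ℂ, ev u y (ev u y' q • p - ev u y' p • q) =
      ev u y' q * ev u y p - ev u y' p * ev u y q := by
    intro y y'
    rw [map_sub, map_smul, map_smul, smul_eq_mul, smul_eq_mul]
  obtain ⟨y₀, hy₀, hy₀N, hy₀1⟩ := hpick [p] (by simpa using hp0)
  have hp₀ : ev u y₀ p ≠ 0 := hy₀1 p (by simp)
  obtain ⟨y₁, hy₁, hy₁N, hy₁1⟩ := hpick [p, ev u y₀ q • p - ev u y₀ p • q] (by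
    intro t ht
    simp only [List.mem_cons, List.not_mem_nil, or_false] at ht
    rcases ht with rfl | rfl
    · exact hp0
    · exact hcomb y₀ hp₀)
  have hp₁ : ev u y₁ p ≠ 0 := hy₁1 p (by simp)
  have h01 := hy₁1 (ev u y₀ q • p - ev u y₀ p • q) (by simp)
  obtain ⟨y₂, hy₂, hy₂N, hy₂1⟩ := hpick [p, ev u y₀ q • p - ev u y₀ p • q,
    ev u y₁ q • p - ev u y₁ p • q] (by
    intro t ht
    simp only [List.mem_cons, List.not_mem_nil, or_false] at ht
    rcases ht with rfl | rfl | rfl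
    · exact hp0
    · exact hcomb y₀ hp₀
    · exact hcomb y₁ hp₁)
  have h02 := hy₂1 (ev u y₀ q • p - ev u y₀ p • q) (by simp)
  have h12 := hy₂1 (ev u y₁ q • p - ev u y₁ p • q) (by simp)
  rw [hval] at h01 h02 h12
  obtain ⟨y, hyd⟩ : ∃ y : Fin 3 → ℂ, y = ![y₀, y₁, y₂] := ⟨_, rfl⟩
  have hyO : ∀ l, y l ∈ O ∧ y l ∉ N := by
    intro l
    rw [hyd]
    fin_cases l
    · exact ⟨hy₀, hy₀N⟩
    · exact ⟨hy₁, hy₁N⟩
    · exact ⟨hy₂, hy₂N⟩
  obtain ⟨e, hed⟩ : ∃ e : Fin 3 → Fin (k + 2) → ℝ,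
      e = fun l => ev u (y l) q • p - ev u (y l) p • q := ⟨_, rfl⟩
  have hsurj : Function.Surjective (lam u g z y) := by
    refine lam_surj (fun i f h3 h4 => ha i f (Submodule.mem_top) h3 h4) (e := e) ?_ ?_ ?_
    · intro l j
      rw [hed]
      simp only
      rw [map_sub, map_smul, map_smul, hp, hq, smul_zero, smul_zero, sub_zero]
    · intro l
      rw [hed]
      simp only
      rw [hval]
      ring
    · intro l l' hll
      rw [hed]
      simp only
      rw [hval, hyd]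
      fin_cases l <;> fin_cases l'
      · exact absurd rfl hll
      · intro h
        apply h01
        simp only [Fin.zero_eta, Fin.mk_one, Matrix.cons_val_zero, Matrix.cons_val_one] at h
        linarith
      · intro h
        apply h02
        simp at h
        linarith
      · intro h
        apply h01
        simp at h
        linarith
      · exact absurd rfl hll
      · intro h
        apply h12
        simp at h
        linarith
      · intro h
        apply h02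
        simp at h
        linarith
      · intro h
        apply h12
        simp at h
        linarith
      · exact absurd rfl hll
  have hker : A ≤ LinearMap.ker (lam u g z y) := by
    intro φ hφ
    rw [LinearMap.mem_ker]
    refine Prod.ext ?_ ?_
    · funext j
      obtain ⟨q1, q2, q3⟩ := hgood (z j) (hz j).1 (hz j).2 φ hφ
      show (φ (pv u (z j)), φ (pr u g (z j)), φ (pj u g (z j))) = 0
      rw [q1, q2, q3]
      rfl
    · funext l
      exact (hgood (y l) (hyO l).1 (hyO l).2 φ hφ).1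
  have h3 := LinearMap.finrank_range_add_finrank_ker (lam u g z y)
  rw [LinearMap.range_eq_top.2 hsurj, finrank_top, Module.finrank_prod, Module.finrank_pi_fintype,
    Module.finrank_pi, Subspace.dual_finrank_eq, Module.finrank_pi, Fintype.card_prod,
    Fintype.card_fin, Fintype.card_fin] at h3
  simp only [Module.finrank_prod, Module.finrank_self, Finset.sum_const, Finset.card_univ,
    Fintype.card_fin, smul_eq_mul] at h3
  have h4 := Submodule.finrank_mono hker
  have h5 : (k + 2) ^ 2 = (k + 2) * (k + 2) := sq _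
  rw [h5]
  omega

end Pool.Agent.H23.CL.PT
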