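import Pool.Agent.H23.CL.One
import Pool.Agent.H23.UC.Stm6

/-!
# Clusters of levels: finite-dimensional spaces of conformal factors
-/

set_option autoImplicit false
set_option linter.unusedSectionVars false

open Set Filter Topology MeasureTheory
open scoped ENNReal
open Pool.Agent.Y262.QE Pool.Agent.Y264.QR Q101.QG
open Pool.Agent.Q233 Pool.Agent.Q233.GLV

noncomputable section

namespace Pool.Agent.H23.CL

open Pool.Agent.H23.LR

variable {M : Type} [MetricSpace M] [CompactSpace M] [MeasurableSpace M] [BorelSpace M]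
  {μ : Measure M} [IsFiniteMeasure μ] {H : Type} [NormedAddCommGroup H] [InnerProductSpace ℝ H]
  {i : H →L[ℝ] Lp ℝ 2 μ} {a : H →L[ℝ] H →L[ℝ] ℝ} {b : C(M, ℝ) → H →L[ℝ] H →L[ℝ] ℝ}
  {m q r d : ℕ}

lemma kf_sum (hB : IsB μ i b) {ι : Type} (s : Finset ι) (t : ι → ℝ) (f : ι → C(M, ℝ)) (X Y : H) :
    kf b (∑ j ∈ s, t j • f j) X Y = ∑ j ∈ s, t j * kf b (f j) X Y := by
  classical
  induction s using Finset.induction_on with
  | empty =>
    rw [Finset.sum_empty, Finset.sum_empty, kf_apply hB]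
    simp
  | insert j s hj ih =>
    rw [Finset.sum_insert hj, Finset.sum_insert hj, ← ih]
    have h1 := kf_lin hB (f j) (∑ j ∈ s, t j • f j) (t j) 1 X Y
    rwa [one_smul, one_mul] at h1

/-- the combinations of the directions -/
def sp (h : Fin d → C(M, ℝ)) (z : EuclideanSpace ℝ (Fin d)) : C(M, ℝ) := ∑ j, z j • h j

lemma sp_sub (h : Fin d → C(M, ℝ)) (z w : EuclideanSpace ℝ (Fin d)) :
    sp h z - sp h w = sp h (z - w) := by
  unfold sp
  rw [← Finset.sum_sub_distrib]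
  refine Finset.sum_congr rfl fun j _ => ?_
  rw [PiLp.sub_apply, sub_smul]

lemma sp_smul (h : Fin d → C(M, ℝ)) (t : ℝ) (z : EuclideanSpace ℝ (Fin d)) :
    sp h (t • z) = t • sp h z := by
  unfold sp
  rw [Finset.smul_sum]
  refine Finset.sum_congr rfl fun j _ => ?_
  rw [PiLp.smul_apply, smul_eq_mul, mul_smul]

lemma coord_le (z : EuclideanSpace ℝ (Fin d)) (j : Fin d) : |z j| ≤ ‖z‖ := by
  rw [← Real.norm_eq_abs]
  exact PiLp.norm_apply_le z j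

lemma sp_norm (h : Fin d → C(M, ℝ)) (z : EuclideanSpace ℝ (Fin d)) :
    ‖sp h z‖ ≤ ‖z‖ * ∑ j, ‖h j‖ := by
  unfold sp
  refine (norm_sum_le _ _).trans ?_
  rw [Finset.mul_sum]
  refine Finset.sum_le_sum fun j _ => ?_
  rw [norm_smul, Real.norm_eq_abs]
  exact mul_le_mul_of_nonneg_right (coord_le z j) (norm_nonneg _)

lemma sp_cont (h : Fin d → C(M, ℝ)) : Continuous (sp h) := by
  unfold sp
  exact continuous_finsetSum _ fun j _ =>
    ((EuclideanSpace.proj (𝕜 := ℝ) j).continuous).smul continuous_const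

lemma kf_sp (hB : IsB μ i b) (h : Fin d → C(M, ℝ)) (φ : C(M, ℝ)) (z : EuclideanSpace ℝ (Fin d))
    (X Y : H) : kf b (sp h z * ex φ) X Y = ∑ j, z j * kf b (h j * ex φ) X Y := by
  have e1 : sp h z * ex φ = ∑ j, z j • (h j * ex φ) := by
    unfold sp
    rw [Finset.sum_mul]
    refine Finset.sum_congr rfl fun j _ => ?_
    rw [smul_mul_assoc]
  rw [e1, kf_sum hB]

lemma kf_smul (hB : IsB μ i b) (f φ : C(M, ℝ)) (t : ℝ) (X Y : H) :
    kf b ((t • f) * ex φ) X Y = t * kf b (f * ex φ) X Y := by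
  have h1 := kf_lin hB (f * ex φ) 0 t 0 X Y
  rw [smul_zero, add_zero, zero_mul, add_zero] at h1
  rw [smul_mul_assoc, h1]

/-- the mean part -/
def lc (k : H →L[ℝ] H →L[ℝ] ℝ) (E : ℕ → ℝ) (u : ℕ → H) (m q r : ℕ) : ℝ :=
  ∑ j ∈ Finset.Ico m q, k (nv E u j) (nv E u j) +
    (∑ j : Fin (r + 2), k (nv E u (q + (j : ℕ))) (nv E u (q + (j : ℕ)))) / (r + 2)

/-- the excess of the trial vector -/
def xs (k : H →L[ℝ] H →L[ℝ] ℝ) (E : ℕ → ℝ) (u : ℕ → H) (q : ℕ) {r : ℕ} (x : Fin (r + 2) → ℝ) : ℝ :=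
  k (cv E u q x) (cv E u q x) -
    (∑ j : Fin (r + 2), k (nv E u (q + (j : ℕ))) (nv E u (q + (j : ℕ)))) / (r + 2)

lemma dc_eq (k : H →L[ℝ] H →L[ℝ] ℝ) (E : ℕ → ℝ) (u : ℕ → H) (x : Fin (r + 2) → ℝ) :
    dc k E u m q x = lc k E u m q r + xs k E u q x := by
  unfold dc lc xs
  ring

lemma l0_sp (hB : IsB μ i b) (h : Fin d → C(M, ℝ)) (φ : C(M, ℝ)) (z : EuclideanSpace ℝ (Fin d))
    (E : ℕ → ℝ) (u : ℕ → H) : l0 (kf b (sp h z * ex φ)) E u m q =
      ∑ j, z j * l0 (kf b (h j * ex φ)) E u m q := by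
  unfold l0
  simp only [kf_sp hB]
  rw [Finset.sum_comm, ← Finset.sum_add_distrib]
  refine Finset.sum_congr rfl fun j _ => ?_
  rw [mul_add, Finset.mul_sum]

lemma lc_sp (hB : IsB μ i b) (h : Fin d → C(M, ℝ)) (φ : C(M, ℝ)) (z : EuclideanSpace ℝ (Fin d))
    (E : ℕ → ℝ) (u : ℕ → H) : lc (kf b (sp h z * ex φ)) E u m q r =
      ∑ j, z j * lc (kf b (h j * ex φ)) E u m q r := by
  unfold lc
  simp only [kf_sp hB]
  rw [Finset.sum_comm, Finset.sum_comm (s := (Finset.univ : Finset (Fin (r + 2)))),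
    Finset.sum_div, ← Finset.sum_add_distrib]
  refine Finset.sum_congr rfl fun j _ => ?_
  rw [← Finset.mul_sum, ← Finset.mul_sum]
  ring

lemma xs_smul (hB : IsB μ i b) (f φ : C(M, ℝ)) (t : ℝ) (E : ℕ → ℝ) (u : ℕ → H)
    (x : Fin (r + 2) → ℝ) : xs (kf b ((t • f) * ex φ)) E u q x = t * xs (kf b (f * ex φ)) E u q x := by
  unfold xs
  simp only [kf_smul hB]
  rw [← Finset.mul_sum]
  ring

/-- the conformal factors for which the directions `h` are independent on the cluster -/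
def Fd (a : H →L[ℝ] H →L[ℝ] ℝ) (b : C(M, ℝ) → H →L[ℝ] H →L[ℝ] ℝ) (q r : ℕ) (h : Fin d → C(M, ℝ))
    (c : ℝ) : Set C(M, ℝ) :=
  {φ | ∃ u, Tp a b (q + r) φ u ∧ ∀ z : EuclideanSpace ℝ (Fin d), ‖z‖ = 1 →
    ∃ x : Fin (r + 2) → ℝ, ∑ j, x j ^ 2 = 1 ∧
      c ≤ xs (kf b (sp h z * ex φ)) (fun j => Ev a (b φ) j) u q x}

lemma fd_cone (hB : IsB μ i b) {h : Fin d → C(M, ℝ)} {φ : C(M, ℝ)} {c : ℝ} {u : ℕ → H}
    (hu : ∀ z : EuclideanSpace ℝ (Fin d), ‖z‖ = 1 → ∃ x : Fin (r + 2) → ℝ, ∑ j, x j ^ 2 = 1 ∧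
      c ≤ xs (kf b (sp h z * ex φ)) (fun j => Ev a (b φ) j) u q x)
    (z : EuclideanSpace ℝ (Fin d)) : ∃ x : Fin (r + 2) → ℝ, ∑ j, x j ^ 2 = 1 ∧
      c * ‖z‖ ≤ xs (kf b (sp h z * ex φ)) (fun j => Ev a (b φ) j) u q x := by
  by_cases hz : z = 0
  · subst hz
    refine ⟨Pi.single 0 1, ?_, ?_⟩
    · rw [Finset.sum_eq_single 0]
      · simp
      · intro j _ hj
        simp [Pi.single_eq_of_ne hj]
      · intro h
        exact absurd (Finset.mem_univ _) h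
    · have e1 : sp h (0 : EuclideanSpace ℝ (Fin d)) = (0 : ℝ) • (0 : C(M, ℝ)) := by
        rw [← zero_smul ℝ (0 : EuclideanSpace ℝ (Fin d)), sp_smul, zero_smul, zero_smul]
      rw [e1, xs_smul hB, norm_zero, mul_zero, zero_mul]
  · have hz0 : 0 < ‖z‖ := norm_pos_iff.2 hz
    obtain ⟨x, hx, hc⟩ := hu (‖z‖⁻¹ • z) (by
      rw [norm_smul, norm_inv, norm_norm, inv_mul_cancel₀ hz0.ne'])
    refine ⟨x, hx, ?_⟩
    have e1 : sp h z = ‖z‖ • sp h (‖z‖⁻¹ • z) := by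
      rw [← sp_smul, smul_smul, mul_inv_cancel₀ hz0.ne', one_smul]
    rw [e1, xs_smul hB, mul_comm]
    exact mul_le_mul_of_nonneg_left hc hz0.le

/-- a vector with given coordinates -/
def vc (p : Fin d → ℝ) : EuclideanSpace ℝ (Fin d) := WithLp.toLp 2 p

lemma vc_norm (p : Fin d → ℝ) {Y : ℝ} (h : ∀ j, |p j| ≤ Y) : ‖vc p‖ ≤ d * Y := by
  have h1 : vc p = ∑ j, p j • EuclideanSpace.single j (1 : ℝ) := by
    ext k
    rw [WithLp.ofLp_sum, Finset.sum_apply]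
    rw [Finset.sum_eq_single k]
    · simp [vc]
    · intro j _ hj
      simp [Ne.symm hj]
    · intro h
      exact absurd (Finset.mem_univ _) h
  rw [h1]
  refine (norm_sum_le _ _).trans ?_
  calc ∑ j, ‖p j • EuclideanSpace.single j (1 : ℝ)‖ ≤ ∑ _j : Fin d, Y := by
        refine Finset.sum_le_sum fun j _ => ?_
        rw [norm_smul, EuclideanSpace.norm_single, norm_one, mul_one]
        exact h j
    _ = d * Y := by rw [Finset.sum_const, Finset.card_univ, Fintype.card_fin, nsmul_eq_mul]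

lemma inner_vc (p : Fin d → ℝ) (t : ℝ) (s w : EuclideanSpace ℝ (Fin d)) :
    inner ℝ (vc p + t • s) w = (∑ j, w j * p j) + t * inner ℝ s w := by
  rw [inner_add_left, real_inner_smul_left]
  congr 1

/-- **the size of the exceptional set in a space** -/
theorem space [CompleteSpace H] (hpl : UC.StPlaneD) (hS : Sf μ i a) (hB : IsB μ i b)
    (hm0 : ∀ j, j < m → ∀ φ, Ev a (b φ) j = 0) (hmp : ∀ j, m ≤ j → ∀ φ, 0 < Ev a (b φ) j)
    (hmq : m ≤ q) (hd : 0 < d) (h : Fin d → C(M, ℝ)) (R : ℝ) {c : ℝ} (hc : 0 < c) :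
    ∃ ρ > 0, ∃ X > 0, ∀ ψ : C(M, ℝ), ∀ ε > 0, volume {z : EuclideanSpace ℝ (Fin d) |
      z ∈ Metric.closedBall (0 : EuclideanSpace ℝ (Fin d)) ρ ∧
      (‖ψ + sp h z‖ ≤ R ∧ iv a b q (ψ + sp h z) - iv a b (q + r + 1) (ψ + sp h z) ≤ ε) ∧
        ψ + sp h z ∈ Fd a b q r h c} ≤ ENNReal.ofReal (X * ε ^ d) := by
  obtain ⟨hF, hcmp, -⟩ := forms μ i a b hS hB
  obtain ⟨C, hC0, B, hB0, hpt⟩ := ptn (r := r) hS hB hm0 hmp hmq (R + 1 / 2)
  obtain ⟨N, hN⟩ : ∃ N, N = ∑ j, ‖h j‖ := ⟨_, rfl⟩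
  have hN0 : 0 ≤ N := by rw [hN]; exact Finset.sum_nonneg fun j _ => norm_nonneg _
  obtain ⟨ρ, hρ⟩ : ∃ ρ, ρ = 1 / (4 * (N + 1)) := ⟨_, rfl⟩
  have hρ0 : 0 < ρ := by rw [hρ]; positivity
  have hρN : 2 * ρ * N ≤ 1 / 2 := by
    rw [hρ]
    rw [show 2 * (1 / (4 * (N + 1))) * N = N / (2 * (N + 1)) by field_simp; ring]
    rw [div_le_div_iff₀ (by positivity) (by norm_num)]
    linarith
  have hρ1 : ρ ≤ 1 := by
    rw [hρ, div_le_one (by positivity)]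
    linarith
  obtain ⟨Y, hY⟩ : ∃ Y, Y = N * B := ⟨_, rfl⟩
  have hY0 : 0 ≤ Y := by rw [hY]; positivity
  obtain ⟨L, hL⟩ : ∃ L, L = d * ((q + 2 : ℝ) * Y) + 2 * (C * N ^ 2) + 1 := ⟨_, rfl⟩
  have hL0 : 0 < L := by rw [hL]; positivity
  obtain ⟨X, hX0, hX⟩ := hpl d L c hd hL0 hc
  refine ⟨ρ, hρ0, X, hX0, fun ψ ε hε => ?_⟩
  obtain ⟨A, hA⟩ : ∃ A : Set (EuclideanSpace ℝ (Fin d)), A = {z : EuclideanSpace ℝ (Fin d) |
      z ∈ Metric.closedBall (0 : EuclideanSpace ℝ (Fin d)) ρ ∧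
      (‖ψ + sp h z‖ ≤ R ∧ iv a b q (ψ + sp h z) - iv a b (q + r + 1) (ψ + sp h z) ≤ ε) ∧
        ψ + sp h z ∈ Fd a b q r h c} := ⟨_, rfl⟩
  rw [← hA]
  rcases A.eq_empty_or_nonempty with h0 | ⟨z₀, hz₀⟩
  · rw [h0, measure_empty]
    exact zero_le
  have hz₀' : z₀ ∈ Metric.closedBall (0 : EuclideanSpace ℝ (Fin d)) ρ ∧ ‖ψ + sp h z₀‖ ≤ R := by
    rw [hA] at hz₀
    exact ⟨hz₀.1, hz₀.2.1.1⟩
  -- the differences of points of the ball
  have hdist : ∀ s ∈ Metric.closedBall (0 : EuclideanSpace ℝ (Fin d)) ρ,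
      ∀ y ∈ Metric.closedBall (0 : EuclideanSpace ℝ (Fin d)) ρ,
      ‖sp h (y - s)‖ ≤ ‖y - s‖ * N ∧ ‖sp h (y - s)‖ ≤ 1 / 2 := by
    intro s hs y hy
    rw [mem_closedBall_zero_iff] at hs hy
    have h1 := sp_norm h (y - s)
    rw [← hN] at h1
    refine ⟨h1, h1.trans ?_⟩
    have h2 : ‖y - s‖ ≤ 2 * ρ := by
      refine (norm_sub_le _ _).trans ?_
      linarith
    exact (mul_le_mul_of_nonneg_right h2 hN0).trans hρN
  have hball : ∀ s ∈ Metric.closedBall (0 : EuclideanSpace ℝ (Fin d)) ρ,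
      ‖ψ + sp h s‖ ≤ R + 1 / 2 := by
    intro s hs
    have e1 : ψ + sp h s = (ψ + sp h z₀) + sp h (s - z₀) := by
      rw [← sp_sub]
      abel
    rw [e1]
    exact (norm_add_le _ _).trans (add_le_add hz₀'.2 (hdist z₀ hz₀'.1 s hs).2)
  obtain ⟨F, hFd⟩ : ∃ F : EuclideanSpace ℝ (Fin d) → ℝ,
      F = fun z => Sm a b m q (ψ + sp h z) + C * N ^ 2 * ‖z‖ ^ 2 := ⟨_, rfl⟩
  have hFc : Continuous F := by
    rw [hFd]
    exact ((sm_cont hF μ hcmp hmp q).comp (continuous_const.add (sp_cont h))).add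
      (continuous_const.mul (continuous_norm.pow 2))
  -- the algebra of the subgradients
  have hsub : ∀ s y : EuclideanSpace ℝ (Fin d), ∀ p : Fin d → ℝ, ∀ G : ℝ,
      ‖sp h (y - s)‖ ≤ ‖y - s‖ * N →
      Sm a b m q (ψ + sp h s) + (∑ j, (y - s) j * p j) + G -
        C * ‖sp h (y - s)‖ ^ 2 ≤ Sm a b m q (ψ + sp h y) →
      F s + inner ℝ (vc p + (2 * (C * N ^ 2)) • s) (y - s) + G ≤ F y := by
    intro s y p G h1 h2
    have h3 : C * ‖sp h (y - s)‖ ^ 2 ≤ C * N ^ 2 * ‖y - s‖ ^ 2 := by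
      have h4 : ‖sp h (y - s)‖ ^ 2 ≤ (‖y - s‖ * N) ^ 2 := pow_le_pow_left₀ (norm_nonneg _) h1 2
      calc C * ‖sp h (y - s)‖ ^ 2 ≤ C * (‖y - s‖ * N) ^ 2 := mul_le_mul_of_nonneg_left h4 hC0.le
        _ = _ := by ring
    have h4 := norm_add_sq_real s (y - s)
    rw [add_sub_cancel] at h4
    have h5 : C * N ^ 2 * ‖y‖ ^ 2 =
        C * N ^ 2 * (‖s‖ ^ 2 + 2 * inner ℝ s (y - s) + ‖y - s‖ ^ 2) := by rw [← h4]
    rw [hFd, inner_vc]
    simp only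
    rw [h5]
    nlinarith
  have hpbd : ∀ (p : Fin d → ℝ) (s : EuclideanSpace ℝ (Fin d)), (∀ j, |p j| ≤ (q + 2 : ℝ) * Y) →
      s ∈ Metric.closedBall (0 : EuclideanSpace ℝ (Fin d)) ρ →
      ‖vc p + (2 * (C * N ^ 2)) • s‖ ≤ L := by
    intro p s h1 hs
    rw [mem_closedBall_zero_iff] at hs
    refine (norm_add_le _ _).trans ?_
    have h3 := vc_norm p h1
    rw [norm_smul, Real.norm_eq_abs, abs_of_nonneg (by positivity)]
    have h4 : 2 * (C * N ^ 2) * ‖s‖ ≤ 2 * (C * N ^ 2) * 1 :=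
      mul_le_mul_of_nonneg_left (hs.trans hρ1) (by positivity)
    rw [hL]
    linarith
  have hl0 : ∀ φ : C(M, ℝ), ‖φ‖ ≤ R + 1 / 2 → ∀ u, Tp a b (q + r) φ u → ∀ g : C(M, ℝ), ‖g‖ ≤ N →
      |l0 (kf b (g * ex φ)) (fun j => Ev a (b φ) j) u m q| ≤ (q + 2 : ℝ) * Y ∧
      |lc (kf b (g * ex φ)) (fun j => Ev a (b φ) j) u m q r| ≤ (q + 2 : ℝ) * Y := by
    intro φ hφ u hu g hg
    obtain ⟨h1, -⟩ := hpt φ hφ u hu
    have h2 : ∀ j l, m ≤ j → j < q + r + 2 → m ≤ l → l < q + r + 2 →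
        |kf b (g * ex φ) (nv (fun j => Ev a (b φ) j) u j) (nv (fun j => Ev a (b φ) j) u l)| ≤ Y := by
      intro j l h3 h4 h5 h6
      refine (h1 g j l h3 h4 h5 h6).trans ?_
      rw [hY]
      exact mul_le_mul_of_nonneg_right hg hB0.le
    have h3 : |∑ j ∈ Finset.Ico m q, kf b (g * ex φ) (nv (fun j => Ev a (b φ) j) u j)
        (nv (fun j => Ev a (b φ) j) u j)| ≤ (q : ℝ) * Y := by
      refine (Finset.abs_sum_le_sum_abs _ _).trans ?_
      refine (Finset.sum_le_sum fun j hj => h2 j j (Finset.mem_Ico.1 hj).1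
        (by have := (Finset.mem_Ico.1 hj).2; omega) (Finset.mem_Ico.1 hj).1
        (by have := (Finset.mem_Ico.1 hj).2; omega)).trans ?_
      rw [Finset.sum_const, Nat.card_Ico, nsmul_eq_mul]
      refine mul_le_mul_of_nonneg_right ?_ hY0
      exact_mod_cast Nat.sub_le q m
    have h4 := h2 q q hmq (by omega) hmq (by omega)
    have h5 : |(∑ j : Fin (r + 2), kf b (g * ex φ) (nv (fun j => Ev a (b φ) j) u (q + (j : ℕ)))
        (nv (fun j => Ev a (b φ) j) u (q + (j : ℕ)))) / ((r : ℝ) + 2)| ≤ Y := by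
      rw [abs_div, abs_of_pos (show (0 : ℝ) < r + 2 by positivity), div_le_iff₀ (by positivity)]
      refine (Finset.abs_sum_le_sum_abs _ _).trans ?_
      refine (Finset.sum_le_sum fun (j : Fin (r + 2)) _ => h2 (q + (j : ℕ)) (q + (j : ℕ)) (by omega)
        (by have := j.2; omega) (by omega) (by have := j.2; omega)).trans ?_
      rw [Finset.sum_const, Finset.card_univ, Fintype.card_fin, nsmul_eq_mul]
      push_cast
      linarith
    rw [abs_le] at h3 h4 h5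
    constructor
    · unfold l0
      rw [abs_le]
      constructor <;> linarith [h3.1, h3.2, h4.1, h4.2]
    · unfold lc
      rw [abs_le]
      constructor <;> linarith [h3.1, h3.2, h5.1, h5.2]
  have hjN : ∀ j, ‖h j‖ ≤ N := fun j => by
    rw [hN]
    exact Finset.single_le_sum (fun j _ => norm_nonneg (h j)) (Finset.mem_univ j)
  have hshift : ∀ s y : EuclideanSpace ℝ (Fin d), ψ + sp h s + sp h (y - s) = ψ + sp h y := by
    intro s y
    rw [← sp_sub]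
    abel
  refine hX ρ F A ε hρ0 hε (fun z hz => ?_) hFc.continuousOn ?_ ?_
  · rw [hA] at hz
    exact hz.1
  · intro s hs
    obtain ⟨u, hu⟩ := tp_ex hF (q + r) (ψ + sp h s)
    obtain ⟨-, h2⟩ := hpt _ (hball s hs) u hu
    refine ⟨vc (fun j => l0 (kf b (h j * ex (ψ + sp h s))) (fun j => Ev a (b (ψ + sp h s)) j) u m q) +
      (2 * (C * N ^ 2)) • s, hpbd _ _ (fun j => (hl0 _ (hball s hs) u hu (h j) (hjN j)).1) hs,
      fun y hy => ?_⟩
    obtain ⟨d1, d2⟩ := hdist s hs y hy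
    obtain ⟨h3, -⟩ := h2 (sp h (y - s)) d2
    rw [l0_sp hB, hshift] at h3
    have h4 := hsub s y
      (fun j => l0 (kf b (h j * ex (ψ + sp h s))) (fun j => Ev a (b (ψ + sp h s)) j) u m q) 0 d1
      (by simpa using h3)
    rwa [add_zero] at h4
  · intro s hs
    rw [hA] at hs
    obtain ⟨hs1, ⟨-, hs2⟩, u, hu, hcone⟩ := hs
    obtain ⟨-, h2⟩ := hpt _ (hball s hs1) u hu
    refine ⟨vc (fun j => lc (kf b (h j * ex (ψ + sp h s))) (fun j => Ev a (b (ψ + sp h s)) j)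
      u m q r) + (2 * (C * N ^ 2)) • s,
      hpbd _ _ (fun j => (hl0 _ (hball s hs1) u hu (h j) (hjN j)).2) hs1, fun y hy => ?_⟩
    obtain ⟨d1, d2⟩ := hdist s hs1 y hy
    obtain ⟨-, h3⟩ := h2 (sp h (y - s)) d2
    obtain ⟨x, hx, h5⟩ := fd_cone hB hcone (y - s)
    have h6 := h3 x hx
    rw [dc_eq, lc_sp hB, hshift] at h6
    have h4 := hsub s y
      (fun j => lc (kf b (h j * ex (ψ + sp h s))) (fun j => Ev a (b (ψ + sp h s)) j) u m q r)
      (c * ‖y - s‖ - ε) d1 (by linarith)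
    linarith

end Pool.Agent.H23.CL
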