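import Pool.Agent.H23.CL.Gap
import Pool.Agent.H23.UC.Stm7

/-!
# Clusters of three levels: quadratic relations between eigenfunctions
-/

set_option autoImplicit false
set_option linter.unusedSectionVars false

open Set Filter Topology MeasureTheory
open scoped ContDiff ENNReal
open Pool.Agent.Y262.QE Pool.Agent.Y264.QR Q101.QG
open Pool.Agent.Q233 Pool.Agent.Q233.GLV

noncomputable section

namespace Pool.Agent.H23.CL

open Pool.Agent.H23.LR

lemma int_congr_supp {O : Set ℂ} {F G : ℂ → ℝ} (h : ∀ᵐ z ∂(volume.restrict O), F z = G z)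
    (hO : MeasurableSet O) (h0 : ∀ z ∉ O, F z = 0) (h1 : ∀ z ∉ O, G z = 0) :
    ∫ z, F z = ∫ z, G z := by
  refine integral_congr_ae ?_
  filter_upwards [(ae_restrict_iff' hO).1 h] with z hz
  by_cases hzO : z ∈ O
  · exact hz hzO
  · rw [h0 z hzO, h1 z hzO]

/-- the weak equation for another representative -/
lemma weak_congr {O : Set ℂ} (hO : IsOpen O) {U U' : ℂ → ℝ} {g : ℂ → ℂ} {w w' : ℂ → ℝ}
    (hw : UC.Weak O U g w) (hU : ∀ᵐ z ∂(volume.restrict O), U z = U' z)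
    (hww : ∀ᵐ z ∂(volume.restrict O), w z = w' z) : UC.Weak O U' g w' where
  mU := fun K hK hc => (hw.mU K hK hc).ae_eq (ae_mono (Measure.restrict_mono hK le_rfl) hU)
  mg := hw.mg
  mw := fun K hK hc => (hw.mw K hK hc).ae_eq (ae_mono (Measure.restrict_mono hK le_rfl) hww)
  grad := by
    intro η h1 h2 h3 v
    rw [← hw.grad η h1 h2 h3 v]
    have h4 : ∀ z ∉ O, fderiv ℝ η z v = 0 := by
      intro z hz
      have h5 : z ∉ tsupport η := fun h => hz (h3 h)
      have h6 : fderiv ℝ η z = 0 := by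
        by_contra hne
        exact h5 (support_fderiv_subset ℝ (Function.mem_support.2 hne))
      rw [h6]
      rfl
    refine int_congr_supp (O := O) ?_ hO.measurableSet (fun z hz => ?_) (fun z hz => ?_)
    · filter_upwards [hU] with z hz
      rw [hz]
    · rw [h4 z hz, mul_zero]
    · rw [h4 z hz, mul_zero]
  lap := by
    intro η h1 h2 h3
    rw [hw.lap η h1 h2 h3]
    have h4 : ∀ z ∉ O, η z = 0 := fun z hz => image_eq_zero_of_notMem_tsupport fun h => hz (h3 h)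
    refine int_congr_supp (O := O) ?_ hO.measurableSet (fun z hz => ?_) (fun z hz => ?_)
    · filter_upwards [hww] with z hz
      rw [hz]
    · rw [h4 z hz, mul_zero]
    · rw [h4 z hz, mul_zero]

variable {M : Type} [MetricSpace M] [CompactSpace M] [MeasurableSpace M] [BorelSpace M]
  {μ : Measure M} {D : Data M} [IsFiniteMeasure μ]

/-- an eigenvector which vanishes is zero -/
lemma ev_zero {i : HF D μ →L[ℝ] Lp ℝ 2 μ} {a : HF D μ →L[ℝ] HF D μ →L[ℝ] ℝ}
    {b : C(M, ℝ) → HF D μ →L[ℝ] HF D μ →L[ℝ] ℝ} (hS : Sf μ i a) (hB : IsB μ i b)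
    {φ : C(M, ℝ)} {E : ℝ} {w : HF D μ} (hw : ∀ w', a w w' = E * b φ w w')
    (h : ∀ᵐ x ∂μ, (i w : M → ℝ) x = 0) : w = 0 := by
  have h4 : i w = 0 := by
    rw [Lp.ext_iff]
    filter_upwards [h, Lp.coeFn_zero ℝ 2 μ] with x hx hx0
    rw [hx, hx0]
    rfl
  have h6 := hS.nm w
  have h7 : b φ w w = 0 := by
    rw [hB]
    refine integral_eq_zero_of_ae ?_
    filter_upwards [h] with x hx
    rw [hx]
    simp
  rw [hw, h7, h4, norm_zero] at h6
  have h8 : ‖w‖ ^ 2 = 0 := by rw [h6]; ring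
  exact norm_eq_zero.1 (pow_eq_zero_iff (two_ne_zero) |>.1 h8)

lemma i_comb {i : HF D μ →L[ℝ] Lp ℝ 2 μ} (α β : ℝ) (u v : HF D μ) :
    ∀ᵐ x ∂μ, (i (α • u + β • v) : M → ℝ) x = α * (i u : M → ℝ) x + β * (i v : M → ℝ) x := by
  rw [map_add, map_smul, map_smul]
  filter_upwards [Lp.coeFn_add (α • i u) (β • i v), Lp.coeFn_smul α (i u),
    Lp.coeFn_smul β (i v)] with x h1 h2 h3
  rw [h1, Pi.add_apply, h2, h3]
  rfl

/-- **three eigenvectors with `e₁ ^ 2 + e₂ ^ 2 = e₃ ^ 2`** -/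
theorem three_core (hcont : UC.StCont) (hucp : UC.StUCP) (hthree : UC.StThree) [ConnectedSpace M]
    (S : D.IsSurf μ) (hiso : ∀ p, ∀ z ∈ D.T p, ∃ c : ℝ, ∀ v, ‖D.A p z v‖ = c * ‖v‖)
    {i : HF D μ →L[ℝ] Lp ℝ 2 μ} {a : HF D μ →L[ℝ] HF D μ →L[ℝ] ℝ}
    {b : C(M, ℝ) → HF D μ →L[ℝ] HF D μ →L[ℝ] ℝ} (hS : Sf μ i a)
    (hi : ∀ v, i v = v.1.fst) (ha : ∀ u v, a u v = inner ℝ u.1.snd v.1.snd) (hB : IsB μ i b)
    {φ : C(M, ℝ)} {E : ℝ} {e₁ e₂ e₃ : HF D μ} (h1 : ∀ w, a e₁ w = E * b φ e₁ w)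
    (h2 : ∀ w, a e₂ w = E * b φ e₂ w) (h3 : ∀ w, a e₃ w = E * b φ e₃ w) (hne : e₃ ≠ 0)
    (hq : ∀ᵐ x ∂μ, (i e₁ : M → ℝ) x ^ 2 + (i e₂ : M → ℝ) x ^ 2 = (i e₃ : M → ℝ) x ^ 2) :
    ∃ c : ℝ, e₁ = c • e₃ := by
  obtain ⟨x₀⟩ : Nonempty M := inferInstance
  obtain ⟨p, hp⟩ := S.cover x₀
  obtain ⟨ρ, hρ⟩ : ∃ ρ : ℂ → ℝ, ρ = fun z => E * (Real.exp (φ (D.ψ p z)) * |(D.A p z).det|) :=
    ⟨_, rfl⟩
  have hρc : ContinuousOn ρ (D.T p) := by
    rw [hρ]
    exact continuousOn_const.mul ((Real.continuous_exp.comp_continuousOn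
      (φ.continuous.comp_continuousOn (S.contψ p))).mul (Pool.Agent.Y960.QE.contDet S p))
  have hrep : ∀ {w : HF D μ}, (∀ w', a w w' = E * b φ w w') → ∃ (U' : ℂ → ℝ) (g : ℂ → ℂ),
      ContinuousOn U' (D.T p) ∧
      (∀ᵐ z ∂(volume.restrict (D.T p)), (i w : M → ℝ) (D.ψ p z) = U' z) ∧
      UC.Weak (D.T p) U' g (fun z => ρ z * U' z) := by
    intro w hw
    obtain ⟨g, hg⟩ := weak_of_ev S hi ha hB (hiso p) hw
    obtain ⟨U', hU'c, hU'⟩ := hcont _ _ _ _ (S.openT p) hg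
    refine ⟨U', g, hU'c, hU', weak_congr (S.openT p) hg hU' ?_⟩
    filter_upwards [hU'] with z hz
    rw [hρ, ← hz]
  obtain ⟨U, gU, hUc, hUe, hUw⟩ := hrep h1
  obtain ⟨V, gV, hVc, hVe, hVw⟩ := hrep h2
  obtain ⟨W, gW, hWc, hWe, hWw⟩ := hrep h3
  have hid : ∀ z ∈ D.T p, U z ^ 2 + V z ^ 2 = W z ^ 2 := by
    have h4 : (fun z => U z ^ 2 + V z ^ 2) =ᵐ[volume.restrict (D.T p)] fun z => W z ^ 2 := by
      filter_upwards [ae_chart S p hq, hUe, hVe, hWe] with z h5 h6 h7 h8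
      rw [← h6, ← h7, ← h8]
      exact h5
    exact fun z hz => Measure.eqOn_open_of_ae_eq h4 (S.openT p) ((hUc.pow 2).add (hVc.pow 2))
      (hWc.pow 2) hz
  -- open sets of the chart
  have hopen : ∀ {B : Set ℂ}, IsOpen B → B ⊆ D.T p → B.Nonempty → ∀ {w : HF D μ},
      (∀ w', a w w' = E * b φ w w') →
      (∀ᵐ z ∂(volume.restrict (D.T p)), z ∈ B → (i w : M → ℝ) (D.ψ p z) = 0) → w = 0 := by
    intro B hBo hBT hBne w hw h0
    refine ev_zero hS hB hw ?_
    have hO₂o : IsOpen (D.U p ∩ D.φ p ⁻¹' B) :=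
      (S.contφ p).isOpen_inter_preimage (S.openU p) hBo
    refine uc_open hucp S hiso hi ha hB hw hO₂o ?_ ?_
    · obtain ⟨z, hz⟩ := hBne
      obtain ⟨hU, hφ⟩ := Pool.Agent.Y183.QR.Loc.φψ S (hBT hz)
      refine ⟨D.ψ p z, hU, ?_⟩
      rw [mem_preimage, hφ]
      exact hz
    · have h5 : ∀ᵐ z ∂(volume.restrict (D.T p)),
          (fun x => x ∈ D.U p ∩ D.φ p ⁻¹' B → (i w : M → ℝ) x = 0) (D.ψ p z) := by
        filter_upwards [h0, ae_restrict_mem (S.openT p).measurableSet] with z h4 hzT h5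
        have h6 := h5.2
        rw [mem_preimage, (Pool.Agent.Y183.QR.Loc.φψ S hzT).2] at h6
        exact h4 h6
      filter_upwards [ae_chart' S p
        (P := fun x => x ∈ D.U p ∩ D.φ p ⁻¹' B → (i w : M → ℝ) x = 0) h5] with y hy hyO
      exact hy hyO.1 hyO
  have hz : ∃ z₀ ∈ D.T p, W z₀ ≠ 0 := by
    by_contra hcon
    push Not at hcon
    refine hne (hopen (S.openT p) subset_rfl ⟨D.φ p x₀, mem_image_of_mem _ hp⟩ h3 ?_)
    filter_upwards [hWe] with z hz hzT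
    rw [hz, hcon z hzT]
  obtain ⟨z₀, hz₀, hW0⟩ := hz
  obtain ⟨c, B, hBo, hzB, hBT, hBc⟩ := hthree (D.T p) U V W gU gV gW ρ (S.openT p) hUc hVc hWc hρc
    hUw hVw hWw hid z₀ hz₀ hW0
  refine ⟨c, ?_⟩
  have h4 : e₁ + (-c) • e₃ = 0 := by
    have h5 : ∀ w', a (e₁ + (-c) • e₃) w' = E * b φ (e₁ + (-c) • e₃) w' := by
      intro w'
      simp only [map_add, map_smul, add_apply, smul_apply, smul_eq_mul]
      rw [h1, h3]
      ring
    refine hopen hBo hBT ⟨z₀, hzB⟩ h5 ?_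
    have h6 := ae_chart S p (i_comb (i := i) 1 (-c) e₁ e₃)
    filter_upwards [h6, hUe, hWe] with z h7 h8 h9 hzB
    rw [one_smul] at h7
    rw [h7, h8, h9, hBc z hzB]
    ring
  have h5 : e₁ = e₁ + (-c) • e₃ + c • e₃ := by
    rw [neg_smul]
    abel
  rw [h5, h4, zero_add]

omit [MetricSpace M] [CompactSpace M] [BorelSpace M] [IsFiniteMeasure μ] in
/-- proportional members of an independent family -/
lemma pair_zero {V : Type} [AddCommGroup V] [Module ℝ V] {n : ℕ} {w : Fin n → V}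
    (hw : LinearIndependent ℝ w) {j l : Fin n} (hjl : j ≠ l) {s t : ℝ} (h : s • w j = t • w l) :
    s = 0 := by
  classical
  have h1 := Fintype.linearIndependent_iff.1 hw
    (fun k => (if k = j then s else 0) - (if k = l then t else 0)) (by
    simp only [sub_smul, Finset.sum_sub_distrib, ite_smul, zero_smul, Finset.sum_ite_eq',
      Finset.mem_univ, if_true]
    rw [h, sub_self]) j
  simp only [if_true, if_neg hjl, sub_zero] at h1
  exact h1

lemma fin3 : ∀ j k l k' : Fin 3, k ≠ j → k' ≠ l → j ≠ l → k ≠ l → k' = j ∨ k' = k := by decide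

/-- **no quadratic relation between three eigenvectors** -/
theorem rich_three (hcont : UC.StCont) (hucp : UC.StUCP) (hthree : UC.StThree) (hdiag : UC.StDiag)
    (halt : UC.StAlt) [ConnectedSpace M]
    (S : D.IsSurf μ) (hiso : ∀ p, ∀ z ∈ D.T p, ∃ c : ℝ, ∀ v, ‖D.A p z v‖ = c * ‖v‖)
    {i : HF D μ →L[ℝ] Lp ℝ 2 μ} {a : HF D μ →L[ℝ] HF D μ →L[ℝ] ℝ}
    {b : C(M, ℝ) → HF D μ →L[ℝ] HF D μ →L[ℝ] ℝ} (hS : Sf μ i a)
    (hi : ∀ v, i v = v.1.fst) (ha : ∀ u v, a u v = inner ℝ u.1.snd v.1.snd) (hB : IsB μ i b) :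
    Rich μ i a b 1 5 := by
  intro φ E v hE0 hvlin hveig A hA
  have h0 : 2 * Module.finrank ℝ A + 3 * (3 + 1) ≤ 2 * 3 ^ 2 := halt 3 A ?_
  · have h00 : 2 * Module.finrank ℝ A + 12 ≤ 18 := h0
    show Module.finrank ℝ A + 6 ≤ 9
    omega
  intro f hf
  obtain ⟨L, lam, hL, hdg⟩ := hdiag 3 f
  -- the new basis
  obtain ⟨w, hw⟩ : ∃ w : Fin 3 → HF D μ, w = fun j => ∑ k, L j k • v k := ⟨_, rfl⟩
  have hweig : ∀ j w', a (w j) w' = E * b φ (w j) w' := by
    intro j w'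
    rw [hw]
    simp only
    rw [sum_form, sum_form, Finset.mul_sum]
    refine Finset.sum_congr rfl fun k _ => ?_
    rw [hveig]
    ring
  have hwlin : LinearIndependent ℝ w := by
    rw [Fintype.linearIndependent_iff]
    intro t ht
    have h1 : ∑ k, (∑ j, t j * L j k) • v k = 0 := by
      rw [← ht, hw]
      simp only [Finset.smul_sum, smul_smul, Finset.sum_smul]
      rw [Finset.sum_comm]
    have h2 := hL t (fun k => Fintype.linearIndependent_iff.1 hvlin _ h1 k)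
    intro j
    rw [h2]
    rfl
  have hwi : ∀ᵐ x ∂μ, ∀ j, (i (w j) : M → ℝ) x = ∑ k, L j k * (i (v k) : M → ℝ) x := by
    rw [ae_all_iff]
    intro j
    have h3 : i (w j) = ∑ k, L j k • i (v k) := by
      rw [hw]
      simp only
      rw [map_sum]
      refine Finset.sum_congr rfl fun k _ => ?_
      rw [map_smul]
    rw [h3]
    have h4 : ∀ s : Finset (Fin 3), ∀ᵐ x ∂μ,
        ((∑ k ∈ s, L j k • i (v k) : Lp ℝ 2 μ) : M → ℝ) x = ∑ k ∈ s, L j k * (i (v k) : M → ℝ) x := by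
      intro s
      classical
      induction s using Finset.induction_on with
      | empty =>
        rw [Finset.sum_empty]
        filter_upwards [Lp.coeFn_zero ℝ 2 μ] with x hx
        rw [hx, Finset.sum_empty]
        rfl
      | insert k s hk ih =>
        rw [Finset.sum_insert hk]
        filter_upwards [ih, Lp.coeFn_add (L j k • i (v k)) (∑ k ∈ s, L j k • i (v k)),
          Lp.coeFn_smul (L j k) (i (v k))] with x h5 h6 h7
        rw [h6, Pi.add_apply, h5, h7, Pi.smul_apply, smul_eq_mul, Finset.sum_insert hk]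
    exact h4 Finset.univ
  have hrel : ∀ᵐ x ∂μ, ∑ j, lam j * (i (w j) : M → ℝ) x ^ 2 = 0 := by
    filter_upwards [hA f hf, hwi] with x h1 h2
    simp only [h2]
    rw [← hdg fun k => (i (v k) : M → ℝ) x]
    exact h1
  have hwne : ∀ j, w j ≠ 0 := fun j => hwlin.ne_zero j
  -- the coefficients vanish
  have key : ∀ (s : ℝ) (a' b' c' : Fin 3), a' ≠ b' → c' ≠ b' → a' ≠ c' →
      (∀ g : Fin 3 → ℝ, ∑ j, g j = g a' + g b' + g c') → 0 ≤ s * lam a' → 0 ≤ s * lam c' →
      s * lam b' < 0 → False := by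
    intro s a' b' c' hab hcb hac hsum hla hlc hlb
    obtain ⟨α, hα⟩ : ∃ α, α = Real.sqrt (s * lam a') := ⟨_, rfl⟩
    obtain ⟨γ, hγ⟩ : ∃ γ, γ = Real.sqrt (s * lam c') := ⟨_, rfl⟩
    obtain ⟨β, hβ⟩ : ∃ β, β = Real.sqrt (-(s * lam b')) := ⟨_, rfl⟩
    have hα2 : α ^ 2 = s * lam a' := by rw [hα, Real.sq_sqrt hla]
    have hγ2 : γ ^ 2 = s * lam c' := by rw [hγ, Real.sq_sqrt hlc]
    have hβ2 : β ^ 2 = -(s * lam b') := by rw [hβ, Real.sq_sqrt (by linarith)]
    have hβ0 : β ≠ 0 := by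
      rw [hβ]
      exact (Real.sqrt_pos.2 (by linarith)).ne'
    have hsc : ∀ (j : Fin 3) (t : ℝ), ∀ w', a (t • w j) w' = E * b φ (t • w j) w' := by
      intro j t w'
      simp only [map_smul, smul_apply, smul_eq_mul]
      rw [hweig]
      ring
    have hsi : ∀ (j : Fin 3) (t : ℝ), ∀ᵐ x ∂μ, (i (t • w j) : M → ℝ) x =
        t * (i (w j) : M → ℝ) x := by
      intro j t
      rw [map_smul]
      filter_upwards [Lp.coeFn_smul t (i (w j))] with x hx
      rw [hx]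
      rfl
    have hq : ∀ᵐ x ∂μ, (i (α • w a') : M → ℝ) x ^ 2 + (i (γ • w c') : M → ℝ) x ^ 2 =
        (i (β • w b') : M → ℝ) x ^ 2 := by
      filter_upwards [hrel, hsi a' α, hsi b' β, hsi c' γ] with x h1 h2 h3 h4
      rw [hsum] at h1
      rw [h2, h3, h4, mul_pow, mul_pow, mul_pow, hα2, hβ2, hγ2]
      linear_combination s * h1
    have hne : β • w b' ≠ 0 := smul_ne_zero hβ0 (hwne b')
    obtain ⟨c₁, hc₁⟩ := three_core hcont hucp hthree S hiso hS hi ha hB (hsc a' α) (hsc c' γ)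
      (hsc b' β) hne hq
    obtain ⟨c₂, hc₂⟩ := three_core hcont hucp hthree S hiso hS hi ha hB (hsc c' γ) (hsc a' α)
      (hsc b' β) hne (by
        filter_upwards [hq] with x hx
        rw [add_comm]
        exact hx)
    have hα0 : α = 0 := pair_zero hwlin hab (s := α) (t := c₁ * β) (by rw [hc₁, smul_smul])
    have hγ0 : γ = 0 := pair_zero hwlin hcb (s := γ) (t := c₂ * β) (by rw [hc₂, smul_smul])
    refine hne (ev_zero hS hB (hsc b' β) ?_)
    filter_upwards [hq, hsi a' α, hsi c' γ] with x h1 h2 h3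
    rw [h2, h3, hα0, hγ0] at h1
    have h4 : (i (β • w b') : M → ℝ) x ^ 2 = 0 := by
      rw [← h1]
      ring
    exact pow_eq_zero_iff two_ne_zero |>.1 h4
  have key' : ∀ (s : ℝ) (b' : Fin 3), (∀ j, j ≠ b' → 0 ≤ s * lam j) → s * lam b' < 0 → False := by
    intro s b' h1 h2
    fin_cases b'
    · exact key s 1 0 2 (by decide) (by decide) (by decide)
        (fun g => by rw [Fin.sum_univ_three]; ring) (h1 1 (by decide)) (h1 2 (by decide)) h2
    · exact key s 0 1 2 (by decide) (by decide) (by decide)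
        (fun g => by rw [Fin.sum_univ_three]) (h1 0 (by decide)) (h1 2 (by decide)) h2
    · exact key s 0 2 1 (by decide) (by decide) (by decide)
        (fun g => by rw [Fin.sum_univ_three]; ring) (h1 0 (by decide)) (h1 1 (by decide)) h2
  have hsame : ∀ s : ℝ, s ≠ 0 → (∀ j, 0 ≤ s * lam j) → ∀ j, lam j = 0 := by
    intro s hs hall j
    by_contra hj
    refine hwne j (ev_zero hS hB (hweig j) ?_)
    filter_upwards [hrel] with x hx
    have h1 : ∑ j, s * lam j * (i (w j) : M → ℝ) x ^ 2 = 0 := by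
      have h2 : ∑ j, s * lam j * (i (w j) : M → ℝ) x ^ 2 =
          s * ∑ j, lam j * (i (w j) : M → ℝ) x ^ 2 := by
        rw [Finset.mul_sum]
        exact Finset.sum_congr rfl fun j _ => by ring
      rw [h2, hx, mul_zero]
    have h2 := (Finset.sum_eq_zero_iff_of_nonneg fun j _ =>
      mul_nonneg (hall j) (sq_nonneg _)).1 h1 j (Finset.mem_univ j)
    rcases mul_eq_zero.1 h2 with h3 | h3
    · exact absurd h3 (mul_ne_zero hs hj)
    · exact pow_eq_zero_iff two_ne_zero |>.1 h3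
  have hlam : ∀ j, lam j = 0 := by
    by_cases hp : ∀ j, 0 ≤ lam j
    · exact hsame 1 one_ne_zero fun j => by rw [one_mul]; exact hp j
    · by_cases hn : ∀ j, lam j ≤ 0
      · exact hsame (-1) (by norm_num) fun j => by linarith [hn j]
      · exfalso
        push Not at hp hn
        obtain ⟨j, hj⟩ := hp
        obtain ⟨l, hl⟩ := hn
        -- one of the signs occurs exactly once
        by_cases h1 : ∀ k, k ≠ j → 0 ≤ lam k
        · exact key' 1 j (fun k hk => by rw [one_mul]; exact h1 k hk) (by rw [one_mul]; exact hj)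
        · push Not at h1
          obtain ⟨k, hk, hkn⟩ := h1
          refine key' (-1) l (fun k' hk' => ?_) (by linarith)
          have h2 : k' = j ∨ k' = k :=
            fin3 j k l k' hk hk' (fun h => by rw [h] at hj; linarith)
              (fun h => by rw [h] at hkn; linarith)
          rcases h2 with h2 | h2
          · rw [h2]; linarith
          · rw [h2]; linarith
  intro y
  rw [hdg]
  refine Finset.sum_eq_zero fun j _ => ?_
  rw [hlam j, zero_mul]

end Pool.Agent.H23.CL
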